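import Pool.Agent.L0h8.K2.Mix2
import Pool.Agent.H14R2.RC.Asy

/-!
Two random even permutations: short words act transitively on `r`-tuples for `r ≤ n^a`, `a < 1/21`,
and mix the pairs of points.
-/

set_option autoImplicit false
set_option linter.unusedSectionVars false
set_option linter.unusedVariables false

namespace Pool.Agent.L0h8.K2
open Finset RC14 Filter Topology
open Pool.Agent.L0h8.ND (ball ball_mono ball_sub gen_mem_ball mul_mem_ball one_mem_ball)

noncomputable section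

/-- short words act transitively on `r`-tuples, and mix the pairs of points -/
def GoodMix (n r T : ℕ) (x : Fin 2 → Alt n) : Prop :=
  (∀ b c : Tup r n, ∃ w ∈ ball x T, mv (w : Equiv.Perm (Fin n)) b = c) ∧
  ∃ (Ω : Type) (_ : Fintype Ω) (G : Ω → Alt n), 0 < Fintype.card Ω ∧ (∀ ω, G ω ∈ ball x T) ∧
    ∀ b c : Tup 2 n, |(#(univ.filter fun ω => mv (G ω : Equiv.Perm (Fin n)) b = c) : ℝ) /
      Fintype.card Ω - 1 / Fintype.card (Tup 2 n)| ≤ 1 / (n : ℝ) ^ 4

/-- from small collision numbers to good mixing -/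
theorem goodMix_of_coll {n r ℓ t : ℕ} (hn : 2 ≤ n) (hr : r ≤ n) (x : Fin 2 → Alt n) (κ : ℝ)
    (h1 : coll (hw ℓ x) r - 1 ≤ κ) (h2 : coll (hw ℓ x) 2 - 1 ≤ κ)
    (hκ : κ ^ t ≤ (1 / (n : ℝ) ^ (r + 4)) ^ 2) : GoodMix n r (t * ℓ) x := by
  classical
  have hn0 : (0 : ℝ) < n := by exact_mod_cast (by omega : 0 < n)
  have hn2 : (2 : ℝ) ≤ n := by exact_mod_cast hn
  have hn1 : (1 : ℝ) ≤ n := by linarith
  have hneT : ∀ m, m ≤ n → Nonempty (Tup m n) := fun m hm => ⟨Fin.castLEEmb hm⟩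
  have key : ∀ m, m ≤ n → coll (hw ℓ x) m - 1 ≤ κ → ∀ b c : Tup m n,
      |(#(univ.filter fun ω : Fin t → (Fin ℓ → Fin 2) =>
        mv (GG (hw ℓ x) t ω : Equiv.Perm (Fin n)) b = c) : ℝ) /
        Fintype.card (Fin t → (Fin ℓ → Fin 2)) - 1 / Fintype.card (Tup m n)| ≤
          1 / (n : ℝ) ^ (r + 4) := by
    intro m hm hcoll b c
    haveI := hneT m hm
    have h3 := av_mix (hw ℓ x) c b t
    rw [av_iter_eq] at h3
    have h4 : (∑ w : Fin t → (Fin ℓ → Fin 2),
        (if mv (GG (hw ℓ x) t w : Equiv.Perm (Fin n)) b = c then (1 : ℝ) else 0)) =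
        (#(univ.filter fun ω : Fin t → (Fin ℓ → Fin 2) =>
        mv (GG (hw ℓ x) t ω : Equiv.Perm (Fin n)) b = c) : ℝ) := by
      rw [← sum_filter, sum_const, nsmul_eq_mul, mul_one]
    rw [h4] at h3
    have h5 : ((Fintype.card (Fin t → (Fin ℓ → Fin 2)) : ℕ) : ℝ) =
        (Fintype.card (Fin ℓ → Fin 2) : ℝ) ^ t := by
      rw [Fintype.card_fun (α := Fin t), Fintype.card_fin]
      push_cast
      rfl
    rw [h5]
    refine abs_le_of_sq_le_sq (h3.trans ?_) (by positivity)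
    refine le_trans ?_ hκ
    have := one_le_coll (hw ℓ x) (r := m)
    exact pow_le_pow_left₀ (by linarith) hcoll t
  refine ⟨fun b c => ?_, (Fin t → (Fin ℓ → Fin 2)), inferInstance, GG (hw ℓ x) t, Fintype.card_pos,
    fun ω => GG_mem _ (hw_mem ℓ x) t ω, fun b c => ?_⟩
  · by_contra hcon
    push Not at hcon
    have h3 := key r hr h1 b c
    have h4 : (univ.filter fun ω : Fin t → (Fin ℓ → Fin 2) =>
        mv (GG (hw ℓ x) t ω : Equiv.Perm (Fin n)) b = c) = ∅ := by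
      rw [filter_eq_empty_iff]
      intro ω _
      exact hcon _ (GG_mem _ (hw_mem ℓ x) t ω)
    rw [h4, card_empty, Nat.cast_zero, zero_div, zero_sub, abs_neg, abs_of_nonneg (by positivity)]
      at h3
    haveI := hneT r hr
    have h5 : (Fintype.card (Tup r n) : ℝ) ≤ (n : ℝ) ^ r := by
      have h6 : Fintype.card (Tup r n) ≤ n ^ r := by
        have h7 := Fintype.card_le_of_injective (fun b : Tup r n => fun i => b i)
          (fun b b' h => DFunLike.ext _ _ fun i => congrFun h i)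
        rwa [Fintype.card_fun, Fintype.card_fin, Fintype.card_fin] at h7
      exact_mod_cast h6
    have h6 := cT (n := n) (r := r)
    have h7 : 1 / (n : ℝ) ^ r ≤ 1 / (n : ℝ) ^ (r + 4) :=
      le_trans (one_div_le_one_div_of_le h6 h5) h3
    rw [div_le_div_iff₀ (by positivity) (by positivity), one_mul, one_mul, pow_add] at h7
    have h8 : (0 : ℝ) < (n : ℝ) ^ r := by positivity
    have h9 : (16 : ℝ) ≤ (n : ℝ) ^ 4 := by
      calc (16 : ℝ) = 2 ^ 4 := by norm_num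
        _ ≤ (n : ℝ) ^ 4 := by gcongr
    nlinarith
  · refine (key 2 hn h2 b c).trans ?_
    apply one_div_le_one_div_of_le (by positivity)
    exact pow_le_pow_right₀ hn1 (by omega)

/-- the sum of the collision numbers -/
theorem sum_coll {n r ℓ : ℕ} (E : ℝ) (h : ∑ p : (Fin ℓ → Fin 2) × (Fin ℓ → Fin 2), Ag n r p.1 p.2 ≤
    (Fintype.card (Alt n) : ℝ) ^ 2 * (4 ^ ℓ * E)) :
    ∑ x : Fin 2 → Alt n, (coll (hw ℓ x) r - 1) ≤ (Fintype.card (Alt n) : ℝ) ^ 2 * (E - 1) := by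
  rw [sum_sub_distrib]
  simp only [coll_hw]
  rw [← sum_div, sum_comm]
  unfold Ag at h
  have h4 : (0 : ℝ) < 4 ^ ℓ := by positivity
  have h1 : (∑ p : (Fin ℓ → Fin 2) × (Fin ℓ → Fin 2),
      ∑ x : Fin 2 → Alt n, (ag n r x p.1 p.2 : ℝ)) / 4 ^ ℓ ≤
      (Fintype.card (Alt n) : ℝ) ^ 2 * E := by
    rw [div_le_iff₀ h4]
    linarith
  rw [sum_const, card_univ, Fintype.card_fun, Fintype.card_fin, nsmul_eq_mul, mul_one]
  push_cast
  linarith

/-- Markov -/
theorem markov_coll {n r ℓ : ℕ} (hr : r ≤ n) (κ E : ℝ) (hκ : 0 < κ)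
    (h : ∑ x : Fin 2 → Alt n, (coll (hw ℓ x) r - 1) ≤ (Fintype.card (Alt n) : ℝ) ^ 2 * (κ * E)) :
    (Nat.card {x : Fin 2 → Alt n // ¬ (coll (hw ℓ x) r - 1 ≤ κ)} : ℝ) ≤
      E * (Fintype.card (Alt n) : ℝ) ^ 2 := by
  classical
  haveI : Nonempty (Tup r n) := ⟨Fin.castLEEmb hr⟩
  have h1 : (Nat.card {x : Fin 2 → Alt n // ¬ (coll (hw ℓ x) r - 1 ≤ κ)} : ℝ) * κ ≤
      ∑ x : Fin 2 → Alt n, (coll (hw ℓ x) r - 1) := by
    rw [Nat.card_eq_fintype_card, Fintype.card_subtype, ← nsmul_eq_mul, ← sum_const]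
    refine (sum_le_sum fun x hx => ?_).trans
      (sum_le_sum_of_subset_of_nonneg (filter_subset _ _) fun x _ _ => ?_)
    · exact (lt_of_not_ge (mem_filter.1 hx).2).le
    · have := one_le_coll (hw ℓ x) (r := r)
      linarith
  have h2 := h1.trans h
  have h3 : (Fintype.card (Alt n) : ℝ) ^ 2 * (κ * E) =
    (E * (Fintype.card (Alt n) : ℝ) ^ 2) * κ := by ring
  rw [h3] at h2
  exact le_of_mul_le_mul_right h2 hκ

end

end Pool.Agent.L0h8.K2
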