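import Pool.Agent.L0h8.K2.Asym

/-!
Two random even permutations: asymptotic form of the mixing of short words on tuples.
-/

set_option autoImplicit false
set_option linter.unusedSectionVars false
set_option linter.unusedVariables false

namespace Pool.Agent.L0h8.K2
open Finset RC14 Filter Topology
open Pool.Agent.L0h8.ND (ball ball_mono ball_sub gen_mem_ball mul_mem_ball one_mem_ball)

noncomputable section

/-- `(n/(n-N))^N` is close to one -/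
lemma ratio_pow_le (n N : ℕ) (hn : 0 < n) (h : 2 * N ≤ n) (h2 : 2 * (N : ℝ) ^ 2 ≤ n) :
    ((n : ℝ) / ((n : ℝ) - N)) ^ N ≤ 1 + 4 * (N : ℝ) ^ 2 / n := by
  have hn0 : (0 : ℝ) < n := by exact_mod_cast hn
  have h' : 2 * (N : ℝ) ≤ n := by exact_mod_cast h
  have hN0 : (0 : ℝ) ≤ N := Nat.cast_nonneg _
  have hd : (0 : ℝ) < n - N := by linarith
  have h3 : (n : ℝ) / ((n : ℝ) - N) ≤ 1 + 2 * N / n := by
    rw [div_le_iff₀ hd]
    have : (1 + 2 * (N : ℝ) / n) * (n - N) = n + N * (1 - 2 * N / n) := by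
      field_simp; ring
    rw [this]
    have h4 : 2 * (N : ℝ) / n ≤ 1 := by rw [div_le_one hn0]; exact h'
    nlinarith
  have hx : 2 * (N : ℝ) ^ 2 / n ≤ 1 := by rw [div_le_one hn0]; exact h2
  have hx0 : 0 ≤ 2 * (N : ℝ) ^ 2 / n := by positivity
  calc ((n : ℝ) / ((n : ℝ) - N)) ^ N ≤ (1 + 2 * N / n) ^ N := by gcongr
    _ ≤ (Real.exp (2 * N / n)) ^ N := by
        have := Real.add_one_le_exp (2 * (N : ℝ) / n)
        gcongr
        linarith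
    _ = Real.exp (2 * (N : ℝ) ^ 2 / n) := by
        rw [← Real.exp_nat_mul]; congr 1; ring
    _ ≤ 1 + 2 * (2 * (N : ℝ) ^ 2 / n) := by
        have h5 := Real.exp_bound_div_one_sub_of_interval' (x := 2 * (N : ℝ) ^ 2 / n / 2)
        have h6 : Real.exp (2 * (N : ℝ) ^ 2 / n) ≤ 1 + 2 * (N : ℝ) ^ 2 / n + (2 * (N : ℝ) ^ 2 / n) ^ 2 :=
          by
            have := Real.abs_exp_sub_one_sub_id_le (x := 2 * (N : ℝ) ^ 2 / n)
              (by rw [abs_of_nonneg hx0]; exact hx)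
            have h7 := (abs_le.1 this).2
            linarith
        nlinarith
    _ = _ := by ring

/-- `P (1 + P w)` is close to one -/
lemma close_one {P w δ : ℝ} (hδ0 : 0 ≤ δ) (hδ1 : δ ≤ 1) (hP1 : 1 ≤ P) (hP : P ≤ 1 + 16 * δ)
    (hw0 : 0 ≤ w) (hw : w ≤ 8 * δ) : P * (1 + P * w) ≤ 1 + 2328 * δ := by
  have hP17 : P ≤ 17 := by linarith
  have h2 : P * w ≤ 17 * (8 * δ) := by gcongr
  have h3 : P * (P * w) ≤ 17 * (17 * (8 * δ)) := by
    refine mul_le_mul hP17 h2 (by positivity) (by norm_num)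
  have h4 : P * (1 + P * w) = P + P * (P * w) := by ring
  rw [h4]
  linarith

/-- the exponential beats the tuples -/
lemma exp_beats {n ℓ r : ℕ} {a η X : ℝ} (hn1 : (1 : ℝ) ≤ n) (hη : 0 < η) (hη1 : η ≤ 1 / 56)
    (hr : (r : ℝ) ≤ (n : ℝ) ^ a) (hXℓ : X < ℓ + 1) (e7 : 48 * (n : ℝ) ^ a * Real.log n ≤ X)
    (e8 : 32 * Real.log n ≤ X) (e12 : 8 ≤ X) :
    (n : ℝ) ^ (5 * r + 2) * (n : ℝ) ^ (5 * η) ≤ (4 / 3 : ℝ) ^ ℓ := by
  have hn0 : (0 : ℝ) < n := by linarith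
  have hlog : 1 / 4 ≤ Real.log (4 / 3) := by
    have h1 : Real.log (4 / 3) = -Real.log (3 / 4) := by
      rw [← Real.log_inv]; norm_num
    have h2 := Real.log_le_sub_one_of_pos (show (0 : ℝ) < 3 / 4 by norm_num)
    rw [h1]; linarith
  have hl0 : 0 ≤ Real.log n := Real.log_nonneg hn1
  rw [← Real.rpow_natCast, ← Real.rpow_natCast, ← Real.rpow_add hn0,
    Real.rpow_def_of_pos hn0, Real.rpow_def_of_pos (by norm_num : (0 : ℝ) < 4 / 3)]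
  apply Real.exp_le_exp.2
  push_cast
  have h1 : 5 * (r : ℝ) + 2 + 5 * η ≤ 5 * (n : ℝ) ^ a + 3 := by linarith
  have h2 : Real.log n * (5 * (r : ℝ) + 2 + 5 * η) ≤ Real.log n * (5 * (n : ℝ) ^ a + 3) :=
    mul_le_mul_of_nonneg_left h1 hl0
  have h3 : Real.log n * (5 * (n : ℝ) ^ a + 3) =
      5 / 48 * (48 * (n : ℝ) ^ a * Real.log n) + 3 / 32 * (32 * Real.log n) := by ring
  have hℓ0 : (0 : ℝ) ≤ ℓ := Nat.cast_nonneg _
  have h5 : (1 / 4) * (ℓ : ℝ) ≤ Real.log (4 / 3) * ℓ := mul_le_mul_of_nonneg_right hlog hℓ0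
  linarith

/-- the uniform estimate -/
theorem E_ev (a η : ℝ) (ha : 0 < a) (hη : 0 < η) (haη : 3 * a + 8 * η ≤ 1 / 7) :
    ∀ᶠ n : ℕ in atTop, ∀ r : ℕ, (r : ℝ) ≤ (n : ℝ) ^ a →
      ∑ x : Fin 2 → Alt n, (coll (hw ⌊(n : ℝ) ^ (a + η)⌋₊ x) r - 1) ≤
        (Fintype.card (Alt n) : ℝ) ^ 2 * ((n : ℝ) ^ (-(2 * η)) * (n : ℝ) ^ (-(2 * η))) := by
  have hη1 : η ≤ 1 / 56 := by linarith
  have ha1 : a ≤ 1 / 21 := by linarith
  filter_upwards [ev_le (2 / 7) 1 8 (by norm_num),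
    ev_le (1 - 7 * η) 1 2 (by linarith), ev_le (1 / 7) 1 16 (by norm_num),
    ev_le (a + 2 * (a + η)) (1 / 7 - η) (8 * Real.exp 2) (by linarith),
    ev_const η 2400 hη, ev_log a (a + η) 48 (by linarith), ev_log 0 (a + η) 32 (by linarith),
    ev_const (a + η) 8 (by linarith),
    eventually_ge_atTop 20] with n e1 e3 e4 e5 e6 e7 e8 e12 hn20
  intro r hr
  rw [Real.rpow_one] at e1 e3 e4
  have hn20r : (20 : ℝ) ≤ n := by exact_mod_cast hn20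
  have hn0 : (0 : ℝ) < n := by linarith
  have hn1 : (1 : ℝ) ≤ n := by linarith
  set X : ℝ := (n : ℝ) ^ (a + η) with hX
  set ℓ : ℕ := ⌊X⌋₊ with hℓ
  have hX0 : 0 < X := by positivity
  have hℓX : (ℓ : ℝ) ≤ X := Nat.floor_le hX0.le
  have hXℓ : X < ℓ + 1 := Nat.lt_floor_add_one X
  set N : ℕ := r * (2 * ℓ) with hN
  set A : ℝ := (n : ℝ) ^ (1 / 7 : ℝ) with hA
  have hA1 : (1 : ℝ) ≤ A := Real.one_le_rpow hn1 (by norm_num)
  have hNe : (N : ℝ) = 2 * ((r : ℝ) * ℓ) := by rw [hN]; push_cast; ring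
  have hNr : (N : ℝ) ≤ 2 * A := by
    have h1 : (n : ℝ) ^ a * X ≤ A := by
      rw [hX, hA, ← Real.rpow_add hn0]
      exact Real.rpow_le_rpow_of_exponent_le hn1 (by linarith)
    have h2 : (r : ℝ) * ℓ ≤ (n : ℝ) ^ a * X := by gcongr
    rw [hNe]
    linarith
  have hN0 : (0 : ℝ) ≤ N := Nat.cast_nonneg _
  have hsq : A ^ 2 = (n : ℝ) ^ (2 / 7 : ℝ) := by
    rw [hA, ← Real.rpow_natCast, ← Real.rpow_mul hn0.le]; norm_num
  have hNsq : (N : ℝ) ^ 2 ≤ 4 * (n : ℝ) ^ (2 / 7 : ℝ) := by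
    calc (N : ℝ) ^ 2 ≤ (2 * A) ^ 2 := by gcongr
      _ = _ := by rw [mul_pow, hsq]; norm_num
  have hp1 : (1 : ℝ) ≤ (n : ℝ) ^ (2 / 7 : ℝ) := Real.one_le_rpow hn1 (by norm_num)
  have h2Nr : 2 * (N : ℝ) + 4 ≤ n := by linarith
  have h2N : 2 * N + 4 ≤ n := by exact_mod_cast h2Nr
  have hnN : (0 : ℝ) < (n : ℝ) - N := by linarith
  set M : ℝ := (n : ℝ) ^ (1 / 7 - η) with hM
  have hM0 : 0 < M := by positivity
  have hM7 : M ^ 7 ≤ (n : ℝ) - N := by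
    have h1 : M ^ 7 = (n : ℝ) ^ (1 - 7 * η) := by
      rw [hM, ← Real.rpow_natCast, ← Real.rpow_mul hn0.le]
      congr 1
      push_cast
      ring
    rw [h1]
    linarith
  set Y : ℝ := (n : ℝ) ^ (a + 2 * (a + η)) with hY
  have hY0 : 0 < Y := by positivity
  have hrℓ : (r : ℝ) * ((2 * ℓ : ℕ) : ℝ) ^ 2 ≤ 4 * Y := by
    have h1 : Y = (n : ℝ) ^ a * X ^ 2 := by
      rw [hY, hX, ← Real.rpow_natCast, ← Real.rpow_mul hn0.le, ← Real.rpow_add hn0]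
      congr 1
      push_cast
      ring
    rw [h1]
    have h3 : (r : ℝ) * ((2 * ℓ : ℕ) : ℝ) ^ 2 = 4 * ((r : ℝ) * (ℓ : ℝ) ^ 2) := by
      push_cast; ring
    have h2 : (r : ℝ) * (ℓ : ℝ) ^ 2 ≤ (n : ℝ) ^ a * X ^ 2 := by gcongr
    rw [h3]
    linarith
  have hNM : 2 * Real.exp 2 * (r * ((2 * ℓ : ℕ) : ℝ) ^ 2) ≤ M := by
    refine le_trans ?_ e5
    calc 2 * Real.exp 2 * (r * ((2 * ℓ : ℕ) : ℝ) ^ 2) ≤ 2 * Real.exp 2 * (4 * Y) := by gcongr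
      _ = 8 * Real.exp 2 * Y := by ring
  have key := total_ag (n := n) (r := r) ℓ N M le_rfl (by omega) hM0 hM7 hNM
  set P : ℝ := ((n : ℝ) / ((n : ℝ) - N)) ^ N with hP
  set w : ℝ := 2 * (r * ((2 * ℓ : ℕ) : ℝ) ^ 2 / M) with hw'
  set δ : ℝ := (n : ℝ) ^ (-(5 * η)) with hδ
  have hδ0 : 0 < δ := by positivity
  have hδ1 : δ ≤ 1 := by
    rw [hδ]
    exact Real.rpow_le_one_of_one_le_of_nonpos hn1 (by linarith)
  have hw8 : w ≤ 8 * δ := by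
    have h1 : Y / M = (n : ℝ) ^ (3 * a + 3 * η - 1 / 7) := by
      rw [hY, hM, ← Real.rpow_sub hn0]
      congr 1
      ring
    have h3 : Y / M ≤ δ := by
      rw [h1, hδ]
      exact Real.rpow_le_rpow_of_exponent_le hn1 (by linarith)
    calc w ≤ 2 * (4 * Y / M) := by rw [hw']; gcongr
      _ = 8 * (Y / M) := by ring
      _ ≤ 8 * δ := by linarith
  have hw0 : 0 ≤ w := by rw [hw']; positivity
  have hPδ : P ≤ 1 + 16 * δ := by
    have h1 := ratio_pow_le n N (by omega) (by omega) (by linarith)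
    refine h1.trans ?_
    have h3 : (n : ℝ) ^ (2 / 7 : ℝ) ≤ δ * n := by
      have : δ * n = (n : ℝ) ^ (1 - 5 * η) := by
        rw [hδ]
        nth_rewrite 2 [← Real.rpow_one (n : ℝ)]
        rw [← Real.rpow_add hn0]
        congr 1
        ring
      rw [this]
      exact Real.rpow_le_rpow_of_exponent_le hn1 (by linarith)
    have h2 : 4 * (N : ℝ) ^ 2 / n ≤ 16 * δ := by
      rw [div_le_iff₀ hn0]
      linarith
    linarith
  have hP1 : 1 ≤ P := by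
    rw [hP]
    apply one_le_pow₀
    rw [one_le_div hnN]
    linarith
  -- the second term
  have hsec : 9 * (BB r N : ℝ) * 3 ^ ℓ * (n : ℝ) ^ r ≤ 4 ^ ℓ * δ := by
    have hn' : N ^ 2 + 1 ≤ n := by
      have : (N : ℝ) ^ 2 + 1 ≤ n := by linarith
      exact_mod_cast this
    have hrn : (r : ℝ) ≤ A := hr.trans (by
      rw [hA]; exact Real.rpow_le_rpow_of_exponent_le hn1 (by linarith))
    have hrn' : r + 1 ≤ n := by
      have : (r : ℝ) + 1 ≤ n := by linarith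
      exact_mod_cast this
    have hBB : BB r N ≤ n ^ (4 * r + 1) := by
      unfold BB
      calc 2 ^ r * (r + 1) * ((N ^ 2 + 1) ^ (2 * r) * (N + 1) ^ r)
          ≤ n ^ r * n * (n ^ (2 * r) * n ^ r) := by
            gcongr <;> omega
        _ = n ^ (4 * r + 1) := by
            rw [← pow_succ, ← pow_add, ← pow_add]; congr 1; ring
    have hBBr : (BB r N : ℝ) ≤ (n : ℝ) ^ (4 * r + 1) := by exact_mod_cast hBB
    have h9 : (9 : ℝ) ≤ n := by linarith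
    have h34 := exp_beats (n := n) (ℓ := ℓ) (r := r) (a := a) (η := η) (X := X) hn1 hη hη1 hr
      hXℓ e7 (by simpa using e8) e12
    have h43 : (4 : ℝ) ^ ℓ = 3 ^ ℓ * (4 / 3) ^ ℓ := by
      rw [← mul_pow]; norm_num
    have hδinv : (n : ℝ) ^ (5 * η) * δ = 1 := by
      rw [hδ, ← Real.rpow_add hn0]
      simp
    rw [h43]
    calc 9 * (BB r N : ℝ) * 3 ^ ℓ * (n : ℝ) ^ r
        ≤ n * (n : ℝ) ^ (4 * r + 1) * 3 ^ ℓ * (n : ℝ) ^ r := by gcongr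
      _ = 3 ^ ℓ * (n : ℝ) ^ (5 * r + 2) := by
          have : (n : ℝ) ^ (5 * r + 2) = n * (n : ℝ) ^ (4 * r + 1) * (n : ℝ) ^ r := by
            rw [← pow_succ', ← pow_add]; congr 1; ring
          rw [this]; ring
      _ = 3 ^ ℓ * ((n : ℝ) ^ (5 * r + 2) * (n : ℝ) ^ (5 * η)) * δ := by
          rw [mul_assoc, mul_assoc ((n : ℝ) ^ (5 * r + 2)), hδinv, mul_one]
      _ ≤ 3 ^ ℓ * (4 / 3) ^ ℓ * δ := by gcongr
  have hE : ∑ p : (Fin ℓ → Fin 2) × (Fin ℓ → Fin 2), Ag n r p.1 p.2 ≤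
      (Fintype.card (Alt n) : ℝ) ^ 2 * (4 ^ ℓ * (1 + 2400 * δ)) := by
    refine key.trans ?_
    refine mul_le_mul_of_nonneg_left ?_ (by positivity)
    have h1 := close_one hδ0.le hδ1 hP1 hPδ hw0 hw8
    have h4 : (0 : ℝ) < 4 ^ ℓ := by positivity
    have h5 : (4 : ℝ) ^ ℓ * (P * (1 + P * w)) ≤ 4 ^ ℓ * (1 + 2328 * δ) :=
      mul_le_mul_of_nonneg_left h1 h4.le
    have h6 : (4 : ℝ) ^ ℓ * (1 + 2400 * δ) = 4 ^ ℓ * (1 + 2328 * δ) + 72 * (4 ^ ℓ * δ) := by ring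
    have h7 : 0 ≤ (4 : ℝ) ^ ℓ * δ := by positivity
    rw [h6]
    linarith
  have hfin := sum_coll (n := n) (r := r) (ℓ := ℓ) _ hE
  refine hfin.trans ?_
  refine mul_le_mul_of_nonneg_left ?_ (by positivity)
  have h1 : (n : ℝ) ^ (-(2 * η)) * (n : ℝ) ^ (-(2 * η)) = δ * (n : ℝ) ^ η := by
    rw [hδ, ← Real.rpow_add hn0, ← Real.rpow_add hn0]
    congr 1
    ring
  rw [h1]
  have h2 : δ * 2400 ≤ δ * (n : ℝ) ^ η := mul_le_mul_of_nonneg_left e6 hδ0.le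
  linarith

/-- **short words in two random even permutations act transitively on `n^a`-tuples**, `a < 1/21` -/
theorem good_mix (a : ℝ) (ha : 0 < a) (ha1 : a < 1 / 21) (ε₀ : ℝ) (hε₀ : 0 < ε₀) :
    ∀ᶠ n : ℕ in atTop, (Nat.card {x : Fin 2 → Alt n //
      ¬ GoodMix n ⌊(n : ℝ) ^ a⌋₊ ⌊(n : ℝ) ^ (1 / 2 : ℝ)⌋₊ x} : ℝ) ≤
        ε₀ * (Fintype.card (Alt n) : ℝ) ^ 2 := by
  set η : ℝ := (1 / 7 - 3 * a) / 8 with hη'
  have hη : 0 < η := by rw [hη']; linarith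
  have haη : 3 * a + 8 * η ≤ 1 / 7 := by rw [hη']; linarith
  have hη1 : η ≤ 1 / 56 := by linarith
  set q : ℕ := ⌈1 / η⌉₊ with hq
  have hq1 : 1 ≤ η * q := by
    have h1 : 1 / η ≤ q := Nat.le_ceil _
    rw [div_le_iff₀ hη] at h1
    linarith
  filter_upwards [E_ev a η ha hη haη, ev_const (2 * η) (2 / ε₀) (by linarith),
    ev_const a 2 ha, ev_le (a + (a + η)) (1 / 2) (5 * q) (by linarith),
    eventually_ge_atTop 2] with n h1 h2 h3 h4 hn2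
  have hn2r : (2 : ℝ) ≤ n := by exact_mod_cast hn2
  have hn0 : (0 : ℝ) < n := by linarith
  have hn1 : (1 : ℝ) ≤ n := by linarith
  set r : ℕ := ⌊(n : ℝ) ^ a⌋₊ with hr
  set ℓ : ℕ := ⌊(n : ℝ) ^ (a + η)⌋₊ with hℓ
  have hra : (r : ℝ) ≤ (n : ℝ) ^ a := Nat.floor_le (by positivity)
  have hrn : r ≤ n := by
    have h5 : (n : ℝ) ^ a ≤ n := by
      calc (n : ℝ) ^ a ≤ (n : ℝ) ^ (1 : ℝ) := Real.rpow_le_rpow_of_exponent_le hn1 (by linarith)
        _ = n := Real.rpow_one _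
    have : (r : ℝ) ≤ n := hra.trans h5
    exact_mod_cast this
  set κ : ℝ := (n : ℝ) ^ (-(2 * η)) with hκ
  have hκ0 : 0 < κ := by positivity
  have hκε : κ ≤ ε₀ / 2 := by
    rw [hκ, Real.rpow_neg hn0.le, inv_le_comm₀ (by positivity) (by positivity), inv_div]
    exact h2
  have m1 := markov_coll (n := n) (r := r) (ℓ := ℓ) hrn κ κ hκ0 (h1 r hra)
  have m2 := markov_coll (n := n) (r := 2) (ℓ := ℓ) hn2 κ κ hκ0 (h1 2 (by exact_mod_cast h3))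
  have hT : (r + 4) * q * ℓ ≤ ⌊(n : ℝ) ^ (1 / 2 : ℝ)⌋₊ := by
    apply Nat.le_floor
    push_cast
    have h5 : (ℓ : ℝ) ≤ (n : ℝ) ^ (a + η) := Nat.floor_le (by positivity)
    have h6 : (r : ℝ) + 4 ≤ 5 * (n : ℝ) ^ a := by
      have : (1 : ℝ) ≤ (n : ℝ) ^ a := by linarith
      linarith
    calc ((r : ℝ) + 4) * q * ℓ ≤ (5 * (n : ℝ) ^ a) * q * (n : ℝ) ^ (a + η) := by gcongr
      _ = 5 * q * (n : ℝ) ^ (a + (a + η)) := by
          rw [Real.rpow_add hn0 a (a + η)]; ring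
      _ ≤ _ := h4
  have hκt : κ ^ ((r + 4) * q) ≤ (1 / (n : ℝ) ^ (r + 4)) ^ 2 := by
    have h5 : (1 / (n : ℝ) ^ (r + 4)) ^ 2 = (n : ℝ) ^ (-(2 * ((r : ℝ) + 4))) := by
      rw [one_div, inv_pow, ← pow_mul, ← Real.rpow_natCast, ← Real.rpow_neg hn0.le]
      congr 1
      push_cast
      ring
    have h6 : κ ^ ((r + 4) * q) = (n : ℝ) ^ (-(2 * η) * (((r : ℝ) + 4) * q)) := by
      rw [hκ, ← Real.rpow_natCast, ← Real.rpow_mul hn0.le]
      congr 1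
      push_cast
      ring
    rw [h5, h6]
    apply Real.rpow_le_rpow_of_exponent_le hn1
    have h7 : (0 : ℝ) ≤ (r : ℝ) + 4 := by positivity
    have h8 : ((r : ℝ) + 4) * 1 ≤ ((r : ℝ) + 4) * (η * q) := mul_le_mul_of_nonneg_left hq1 h7
    linarith
  have hsub := card_union (ι := Bool) (fun x : Fin 2 → Alt n =>
      ¬ GoodMix n r ⌊(n : ℝ) ^ (1 / 2 : ℝ)⌋₊ x)
    (fun b x => if b then (¬ (coll (hw ℓ x) r - 1 ≤ κ)) else (¬ (coll (hw ℓ x) 2 - 1 ≤ κ))) (by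
      intro x hx
      by_contra hcon
      have ha : coll (hw ℓ x) r - 1 ≤ κ := by
        by_contra h
        exact hcon ⟨true, by rw [if_pos rfl]; exact h⟩
      have hb : coll (hw ℓ x) 2 - 1 ≤ κ := by
        by_contra h
        exact hcon ⟨false, by rw [if_neg (by simp)]; exact h⟩
      apply hx
      obtain ⟨g1, Ω, hΩ, G, g2, g3, g4⟩ := goodMix_of_coll hn2 hrn x κ ha hb hκt
      refine ⟨fun b c => ?_, Ω, hΩ, G, g2, fun ω => ball_mono hT (g3 ω), g4⟩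
      obtain ⟨w, hw, hw'⟩ := g1 b c
      exact ⟨w, ball_mono hT hw, hw'⟩)
  rw [Fintype.sum_bool] at hsub
  simp only [if_true, Bool.false_eq_true, if_false] at hsub
  have hsub' : (Nat.card {x : Fin 2 → Alt n //
      ¬ GoodMix n r ⌊(n : ℝ) ^ (1 / 2 : ℝ)⌋₊ x} : ℝ) ≤
      (Nat.card {x : Fin 2 → Alt n // ¬ (coll (hw ℓ x) r - 1 ≤ κ)} : ℝ) +
      (Nat.card {x : Fin 2 → Alt n // ¬ (coll (hw ℓ x) 2 - 1 ≤ κ)} : ℝ) := by
    exact_mod_cast hsub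
  have hA : (0 : ℝ) ≤ (Fintype.card (Alt n) : ℝ) ^ 2 := by positivity
  have h9 : κ * (Fintype.card (Alt n) : ℝ) ^ 2 ≤ ε₀ / 2 * (Fintype.card (Alt n) : ℝ) ^ 2 :=
    mul_le_mul_of_nonneg_right hκε hA
  linarith

end

end Pool.Agent.L0h8.K2
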