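import Pool.Agent.L0h8.K2.Walk

/-!
Closed walks in Schreier graphs: forced letters, coincidences, and the code of a closed walk, which
determines the word and the pattern of the walk.
-/

set_option autoImplicit false
set_option linter.unusedSectionVars false
set_option linter.unusedVariables false

namespace Pool.Agent.L0h8.K2
open Finset

namespace Cl
variable {n k : ℕ} {ι : Type*} {L : ℕ} (W : Cl n k ι L) [Fintype ι] [DecidableEq ι]

/-- the letter `σ` has been used at the vertex of the walker `i` at time `t` before time `t` -/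
def RL (i : ι) (t : ℕ) (σ : Ltr k) : Prop :=
  ∃ i', ∃ t' < t, (W.s t' = σ ∧ W.V i' t' = W.V i t) ∨ (W.s t' = inv σ ∧ W.V i' (t' + 1) = W.V i t)

lemma RL_iff {i : ι} {t : ℕ} {σ : Ltr k} :
    W.RL i t σ ↔ ed σ (W.V i t) (st W.x σ (W.V i t)) ∈ W.rev t := W.ed_mem_rev.symm

/-- the letter at time `t` is forced by the past -/
def forced (t : ℕ) : Prop :=
  1 ≤ t ∧ ∃ i, W.V i t ∉ W.B ∧ ∃ σ, σ ≠ inv (W.s (t - 1)) ∧ W.RL i t σ

lemma forced_eq {i : ι} {t : ℕ} {σ : Ltr k} (h1 : 1 ≤ t) (ht : t ≤ L) (h2 : W.V i t ∉ W.B)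
    (h3 : σ ≠ inv (W.s (t - 1))) (h4 : W.RL i t σ) : W.s t = σ := by
  obtain ⟨t', rfl⟩ : ∃ t', t = t' + 1 := ⟨t - 1, by omega⟩
  have h5 := W.D_of_not_B h2
  have h6 : σ ∈ W.D (W.V i (t' + 1)) := by
    rw [mem_D]
    exact W.rev_mono ht (W.RL_iff.1 h4)
  rw [h5, mem_insert, mem_singleton] at h6
  rcases h6 with h | h
  · exact h.symm
  · exact absurd h (by simpa using h3)

lemma rev_zero : W.rev 0 = ∅ := by
  rw [eq_empty_iff_forall_notMem]
  intro c hc
  obtain ⟨i, t, h, -⟩ := W.mem_rev.1 hc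
  omega

lemma new_edge {t : ℕ} (hf : ¬ W.forced t) {i : ι} (hi : W.V i t ∉ W.B) : W.e i t ∉ W.rev t := by
  intro h
  apply hf
  have h1 : 1 ≤ t := by
    by_contra hc
    obtain rfl : t = 0 := by omega
    rw [rev_zero] at h
    simp at h
  obtain ⟨t', rfl⟩ : ∃ t', t = t' + 1 := ⟨t - 1, by omega⟩
  refine ⟨h1, i, hi, W.s (t' + 1), by simpa using W.hred t', ?_⟩
  rw [RL_iff, ← W.e_eq]
  exact h

lemma e_inj {i j : ι} {t : ℕ} (h : W.e i t = W.e j t) : i = j := by
  rw [W.e_eq, W.e_eq, ed_eq_iff] at h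
  rcases h with ⟨-, h⟩ | ⟨h, -⟩
  · exact W.V_inj h
  · exact absurd h.symm (inv_ne _)

lemma rev_succ (t : ℕ) : W.rev (t + 1) = W.rev t ∪ univ.image (fun i => W.e i t) := by
  ext c
  rw [mem_union, mem_rev, mem_rev, mem_image]
  constructor
  · rintro ⟨i, t', h1, h2⟩
    rcases Nat.lt_succ_iff_lt_or_eq.1 h1 with h3 | h3
    · exact Or.inl ⟨i, t', h3, h2⟩
    · subst h3
      exact Or.inr ⟨i, mem_univ _, h2⟩
  · rintro (⟨i, t', h1, h2⟩ | ⟨i, -, h2⟩)
    · exact ⟨i, t', by omega, h2⟩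
    · exact ⟨i, t, by omega, h2⟩

lemma vis_succ (t : ℕ) : W.vis (t + 1) = W.vis t ∪ univ.image (fun i => W.V i (t + 1)) := by
  ext c
  rw [mem_union, mem_vis, mem_vis, mem_image]
  constructor
  · rintro ⟨i, t', h1, h2⟩
    rcases Nat.le_succ_iff.1 h1 with h3 | h3
    · exact Or.inl ⟨i, t', h3, h2⟩
    · subst h3
      exact Or.inr ⟨i, mem_univ _, h2⟩
  · rintro (⟨i, t', h1, h2⟩ | ⟨i, -, h2⟩)
    · exact ⟨i, t', by omega, h2⟩
    · exact ⟨i, t + 1, by omega, h2⟩

lemma card_rev_succ (t : ℕ) :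
    #(W.rev (t + 1)) = #(W.rev t) + #(univ.filter fun i => W.e i t ∉ W.rev t) := by
  classical
  rw [rev_succ, ← union_sdiff_self_eq_union, card_union_of_disjoint disjoint_sdiff]
  congr 1
  have : (univ.image (fun i => W.e i t)) \ W.rev t =
      (univ.filter fun i => W.e i t ∉ W.rev t).image (fun i => W.e i t) := by
    ext c
    simp only [mem_sdiff, mem_image, mem_univ, true_and, mem_filter]
    constructor
    · rintro ⟨⟨i, rfl⟩, h⟩; exact ⟨i, h, rfl⟩
    · rintro ⟨i, h, rfl⟩; exact ⟨⟨i, rfl⟩, h⟩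
  rw [this, card_image_of_injective _ fun i j h => W.e_inj h]

lemma card_vis_succ (t : ℕ) :
    #(W.vis (t + 1)) = #(W.vis t) + #(univ.filter fun i => W.V i (t + 1) ∉ W.vis t) := by
  classical
  rw [vis_succ, ← union_sdiff_self_eq_union, card_union_of_disjoint disjoint_sdiff]
  congr 1
  have : (univ.image (fun i => W.V i (t + 1))) \ W.vis t =
      (univ.filter fun i => W.V i (t + 1) ∉ W.vis t).image (fun i => W.V i (t + 1)) := by
    ext c
    simp only [mem_sdiff, mem_image, mem_univ, true_and, mem_filter]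
    constructor
    · rintro ⟨⟨i, rfl⟩, h⟩; exact ⟨i, h, rfl⟩
    · rintro ⟨i, h, rfl⟩; exact ⟨⟨i, rfl⟩, h⟩
  rw [this, card_image_of_injective _ fun i j h => W.V_inj h]

open Classical in
/-- **few free letters** -/
lemma free_mul_le (t : ℕ) :
    #((range t).filter fun t => ¬ W.forced t) * (Fintype.card ι - #(W.B)) ≤ #(W.rev t) := by
  induction t with
  | zero => simp
  | succ t ih =>
    rw [range_add_one, filter_insert, card_rev_succ]
    split_ifs with h
    · exact ih.trans (Nat.le_add_right _ _)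
    · rw [card_insert_of_notMem (by simp), add_mul, one_mul]
      refine add_le_add ih ?_
      have h1 : univ.filter (fun i => W.V i t ∉ W.B) ⊆ univ.filter (fun i => W.e i t ∉ W.rev t) := by
        intro i hi
        rw [mem_filter] at hi ⊢
        exact ⟨mem_univ _, W.new_edge h hi.2⟩
      refine le_trans ?_ (card_le_card h1)
      have h2 := card_filter_add_card_filter_not (s := (univ : Finset ι))
        (fun i => W.V i t ∈ W.B)
      have h3 : #(univ.filter fun i => W.V i t ∈ W.B) ≤ #(W.B) :=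
        card_le_card_of_injOn (fun i => W.V i t) (fun i hi => by simpa using hi)
          (fun i _ j _ h => W.V_inj h)
      rw [card_univ] at h2
      omega

open Classical in
lemma two_free_le (hB : ∀ i, ∃ t, W.V i t ∈ W.B) (hK : 6 * W.ex ≤ Fintype.card ι)
    (hne : Nonempty ι) : 4 * #((range L).filter fun t => ¬ W.forced t) ≤ 3 * L := by
  have h1 := W.free_mul_le L
  have h2 := W.rev_le hB
  have h3 := W.card_B_le
  have h4 : 1 ≤ W.ex := by
    obtain ⟨i⟩ := hne
    obtain ⟨t, ht⟩ := hB i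
    have : 0 < #(W.B) := card_pos.2 ⟨_, ht⟩
    omega
  set F := #((range L).filter fun t => ¬ W.forced t)
  have h5 : F * (4 * W.ex) ≤ 3 * W.ex * L := by
    calc F * (4 * W.ex) ≤ F * (Fintype.card ι - #(W.B)) := Nat.mul_le_mul_left _ (by omega)
      _ ≤ _ := h1.trans h2
  by_contra hc
  push Not at hc
  have h6 : W.ex * (3 * L) < W.ex * (4 * F) := by
    apply Nat.mul_lt_mul_of_pos_left hc (by omega)
  have h7 : F * (4 * W.ex) = W.ex * (4 * F) := by ring
  have h8 : 3 * W.ex * L = W.ex * (3 * L) := by ring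
  omega

/-! ### coincidences -/

/-- the coincidences -/
def co : Finset (ι × ℕ) :=
  ((univ : Finset ι) ×ˢ range L).filter fun p =>
    W.e p.1 p.2 ∉ W.rev p.2 ∧ W.V p.1 (p.2 + 1) ∈ W.vis p.2

lemma vis_of_rev {i : ι} {t : ℕ} (h : W.e i t ∈ W.rev t) : W.V i (t + 1) ∈ W.vis t := by
  rw [W.e_eq, ed_mem_rev] at h
  obtain ⟨i', t', ht', (⟨h1, h2⟩ | ⟨h1, h2⟩)⟩ := h
  · refine W.mem_vis.2 ⟨i', t' + 1, by omega, ?_⟩
    rw [W.hV, W.hV, h1, h2]
  · refine W.mem_vis.2 ⟨i', t', by omega, ?_⟩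
    rw [W.hV i t, ← h2, W.hV i' t', h1]
    have := st_inv W.x (inv (W.s t)) (W.V i' t')
    rw [inv_inv'] at this
    exact this.symm

lemma co_aux (t : ℕ) :
    #(((univ : Finset ι) ×ˢ range t).filter fun p =>
      W.e p.1 p.2 ∉ W.rev p.2 ∧ W.V p.1 (p.2 + 1) ∈ W.vis p.2) + #(W.vis t) =
    #(W.rev t) + Fintype.card ι := by
  classical
  induction t with
  | zero =>
    rw [rev_zero]
    have : W.vis 0 = univ.image (fun i => W.V i 0) := by
      ext c
      rw [mem_vis, mem_image]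
      constructor
      · rintro ⟨i, t', h1, h2⟩
        obtain rfl : t' = 0 := by omega
        exact ⟨i, mem_univ _, h2⟩
      · rintro ⟨i, -, h⟩; exact ⟨i, 0, le_rfl, h⟩
    rw [this, card_image_of_injective _ W.hinj]
    simp
  | succ t ih =>
    rw [card_rev_succ, card_vis_succ]
    have h1 : (((univ : Finset ι) ×ˢ range (t + 1)).filter fun p =>
        W.e p.1 p.2 ∉ W.rev p.2 ∧ W.V p.1 (p.2 + 1) ∈ W.vis p.2) =
        (((univ : Finset ι) ×ˢ range t).filter fun p =>
        W.e p.1 p.2 ∉ W.rev p.2 ∧ W.V p.1 (p.2 + 1) ∈ W.vis p.2) ∪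
        (univ.filter fun i => W.e i t ∉ W.rev t ∧ W.V i (t + 1) ∈ W.vis t).image
          (fun i => (i, t)) := by
      ext ⟨i, a⟩
      simp only [mem_filter, mem_product, mem_univ, true_and, mem_range, mem_union, mem_image,
        Prod.mk.injEq]
      constructor
      · rintro ⟨h1, h2⟩
        rcases Nat.lt_succ_iff_lt_or_eq.1 h1 with h3 | h3
        · exact Or.inl ⟨h3, h2⟩
        · subst h3
          exact Or.inr ⟨i, h2, rfl, rfl⟩
      · rintro (⟨h1, h2⟩ | ⟨i', h2, h3, h4⟩)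
        · exact ⟨by omega, h2⟩
        · subst h3; subst h4
          exact ⟨by omega, h2⟩
    have h2 : Disjoint (((univ : Finset ι) ×ˢ range t).filter fun p =>
        W.e p.1 p.2 ∉ W.rev p.2 ∧ W.V p.1 (p.2 + 1) ∈ W.vis p.2)
        ((univ.filter fun i => W.e i t ∉ W.rev t ∧ W.V i (t + 1) ∈ W.vis t).image
          (fun i => (i, t))) := by
      rw [disjoint_left]
      rintro ⟨i, a⟩ ha hb
      simp only [mem_filter, mem_product, mem_univ, true_and, mem_range] at ha
      simp only [mem_image, Prod.mk.injEq] at hb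
      obtain ⟨_, _, _, h⟩ := hb
      omega
    rw [h1, card_union_of_disjoint h2, card_image_of_injective _ (fun i j h => (Prod.mk.inj h).1)]
    have h3 : #(univ.filter fun i => W.e i t ∉ W.rev t) =
        #(univ.filter fun i => W.e i t ∉ W.rev t ∧ W.V i (t + 1) ∈ W.vis t) +
        #(univ.filter fun i => W.V i (t + 1) ∉ W.vis t) := by
      rw [← card_union_of_disjoint]
      · congr 1
        ext i
        simp only [mem_filter, mem_univ, true_and, mem_union]
        constructor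
        · intro h
          by_cases h' : W.V i (t + 1) ∈ W.vis t
          · exact Or.inl ⟨h, h'⟩
          · exact Or.inr h'
        · rintro (h | h)
          · exact h.1
          · exact fun h' => h (W.vis_of_rev h')
      · rw [disjoint_left]
        intro i hi hi'
        rw [mem_filter] at hi hi'
        exact hi'.2 hi.2.2
    omega

lemma card_co : #(W.co) = W.ex + Fintype.card ι := by
  have h1 := W.co_aux L
  have h2 := W.rev_eq
  unfold co
  omega

/-- an earlier position with the same vertex -/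
lemma exists_tgt (p : ι × ℕ) : ∃ q : ι × ℕ, W.V p.1 (p.2 + 1) ∈ W.vis p.2 →
    q.2 ≤ p.2 ∧ W.V q.1 q.2 = W.V p.1 (p.2 + 1) := by
  by_cases h : W.V p.1 (p.2 + 1) ∈ W.vis p.2
  · obtain ⟨i, t, h1, h2⟩ := W.mem_vis.1 h
    exact ⟨(i, t), fun _ => ⟨h1, h2⟩⟩
  · exact ⟨p, fun h' => absurd h' h⟩

/-- the target of a coincidence -/
noncomputable def tgt (p : ι × ℕ) : ι × ℕ := Classical.choose (W.exists_tgt p)

lemma tgt_spec {p : ι × ℕ} (h : W.V p.1 (p.2 + 1) ∈ W.vis p.2) :
    (W.tgt p).2 ≤ p.2 ∧ W.V (W.tgt p).1 (W.tgt p).2 = W.V p.1 (p.2 + 1) :=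
  Classical.choose_spec (W.exists_tgt p) h

/-- the record of the coincidences -/
noncomputable def rho : Finset ((ι × ℕ) × (ι × ℕ)) := W.co.image fun p => (p, W.tgt p)

lemma card_rho : #(W.rho) = W.ex + Fintype.card ι := by
  rw [rho, card_image_of_injective _ (fun p q h => (Prod.mk.inj h).1), card_co]

lemma mem_rho {p q : ι × ℕ} : (p, q) ∈ W.rho ↔ p ∈ W.co ∧ W.tgt p = q := by
  rw [rho, mem_image]
  constructor
  · rintro ⟨p', h1, h2⟩
    obtain ⟨rfl, h3⟩ := Prod.mk.inj h2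
    exact ⟨h1, h3⟩
  · rintro ⟨h1, h2⟩
    exact ⟨p, h1, by rw [h2]⟩

lemma rho_sub : W.rho ⊆ ((univ : Finset ι) ×ˢ range L) ×ˢ ((univ : Finset ι) ×ˢ range L) := by
  rintro ⟨p, q⟩ h
  obtain ⟨h1, rfl⟩ := W.mem_rho.1 h
  rw [co, mem_filter] at h1
  have h2 := (W.tgt_spec h1.2.2).1
  have h3 := h1.1
  rw [mem_product, mem_range] at h3
  rw [mem_product, mem_product, mem_product, mem_range, mem_range]
  exact ⟨⟨mem_univ _, h3.2⟩, ⟨mem_univ _, lt_of_le_of_lt h2 h3.2⟩⟩

/-! ### the code of the branch vertices -/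

open Classical in
/-- the first occurrences of the branch vertices -/
noncomputable def bet : Finset (ι × ℕ) :=
  ((univ : Finset ι) ×ˢ range L).filter fun p =>
    W.V p.1 p.2 ∈ W.B ∧ ∀ i t, W.V i t = W.V p.1 p.2 → p.2 ≤ t

open Classical in
lemma bet_sub : W.bet ⊆ (univ : Finset ι) ×ˢ range L := filter_subset _ _

open Classical in
lemma card_bet : #(W.bet) ≤ #(W.B) := by
  refine card_le_card_of_injOn (fun p => W.V p.1 p.2) ?_ ?_
  · intro p hp
    rw [mem_coe, bet, mem_filter] at hp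
    exact hp.2.1
  · intro p hp q hq h
    rw [mem_coe, bet, mem_filter] at hp hq
    have h1 : p.2 = q.2 := le_antisymm (hp.2.2 _ _ h.symm) (hq.2.2 _ _ h)
    refine Prod.ext ?_ h1
    simp only at h
    rw [h1] at h
    exact W.V_inj h

lemma mem_B_iff {i : ι} {t : ℕ} :
    W.V i t ∈ W.B ↔ ∃ p ∈ W.bet, p.2 ≤ t ∧ W.V p.1 p.2 = W.V i t := by
  classical
  constructor
  · intro h
    have hex : ∃ t', ∃ j, W.V j t' = W.V i t := ⟨t, i, rfl⟩
    obtain ⟨j, hj⟩ := Nat.find_spec hex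
    have hlt : Nat.find hex < L := by
      refine lt_of_le_of_lt (Nat.find_min' hex ⟨j, ?_⟩)
        (Nat.mod_lt (Nat.find hex) (show 0 < L by have := W.hL; omega))
      rw [W.V_mod]
      exact hj
    refine ⟨(j, Nat.find hex), ?_, Nat.find_min' hex ⟨i, rfl⟩, hj⟩
    rw [bet, mem_filter, mem_product, mem_range]
    refine ⟨⟨mem_univ _, hlt⟩, ?_, fun i' t' h' => ?_⟩
    · simp only; rw [hj]; exact h
    · simp only at h' ⊢
      exact Nat.find_min' hex ⟨i', h'.trans hj⟩
  · rintro ⟨p, hp, -, h2⟩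
    rw [bet, mem_filter] at hp
    rw [← h2]
    exact hp.2.1

/-! ### the free letters -/

open Classical in
/-- the list of the free letters before time `t` -/
noncomputable def FL : ℕ → List (Fin k)
  | 0 => []
  | t + 1 => if W.forced t then FL t else FL t ++ [(W.s t).1]

open Classical in
lemma length_FL (t : ℕ) : (W.FL t).length = #((range t).filter fun t => ¬ W.forced t) := by
  induction t with
  | zero => simp [FL]
  | succ t ih =>
    rw [FL, range_add_one, filter_insert]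
    by_cases h : W.forced t
    · rw [if_pos h, if_neg (not_not.2 h), ih]
    · rw [if_neg h, if_pos h, card_insert_of_notMem (by simp), List.length_append, ih]
      rfl

lemma FL_prefix {a b : ℕ} (h : a ≤ b) : W.FL a <+: W.FL b := by
  induction b, h using Nat.le_induction with
  | base => exact List.prefix_refl _
  | succ b _ ih =>
    rw [FL]
    split_ifs
    · exact ih
    · exact ih.trans (List.prefix_append _ _)

lemma FL_get {t : ℕ} (ht : t < L) (hf : ¬ W.forced t) :
    (W.FL L)[(W.FL t).length]? = some (W.s t).1 := by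
  obtain ⟨r, hr⟩ := W.FL_prefix (show t + 1 ≤ L from ht)
  rw [← hr, FL, if_neg hf, List.append_assoc, List.getElem?_append_right le_rfl]
  simp

/-! ### determinacy -/

/-- the words and the patterns agree up to time `t` -/
def Agree (W W' : Cl n k ι L) (t : ℕ) : Prop :=
  (∀ t' < t, W.s t' = W'.s t') ∧
    ∀ i a i' a', a ≤ t → a' ≤ t → (W.V i a = W.V i' a' ↔ W'.V i a = W'.V i' a')

variable {W} {W' : Cl n k ι L}

lemma Agree.symm {t : ℕ} (h : Agree W W' t) : Agree W' W t :=
  ⟨fun t' ht => (h.1 t' ht).symm, fun i a i' a' h1 h2 => (h.2 i a i' a' h1 h2).symm⟩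

lemma agree_zero : Agree W W' 0 := by
  refine ⟨fun t' ht => by omega, fun i a i' a' h1 h2 => ?_⟩
  obtain rfl : a = 0 := by omega
  obtain rfl : a' = 0 := by omega
  exact ⟨fun h => by rw [W.V_inj h], fun h => by rw [W'.V_inj h]⟩

lemma Agree.RL {t : ℕ} (h : Agree W W' t) {i : ι} {σ : Ltr k} (h1 : W.RL i t σ) : W'.RL i t σ := by
  obtain ⟨i', t', ht', h2⟩ := h1
  refine ⟨i', t', ht', ?_⟩
  rcases h2 with ⟨h3, h4⟩ | ⟨h3, h4⟩
  · exact Or.inl ⟨by rw [← h.1 t' ht', h3], (h.2 _ _ _ _ (by omega) le_rfl).1 h4⟩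
  · exact Or.inr ⟨by rw [← h.1 t' ht', h3], (h.2 _ _ _ _ (by omega) le_rfl).1 h4⟩

lemma Agree.B {t : ℕ} (h : Agree W W' t) (hb : W.bet = W'.bet) {i : ι} :
    W.V i t ∈ W.B ↔ W'.V i t ∈ W'.B := by
  rw [mem_B_iff, mem_B_iff, hb]
  refine exists_congr fun p => and_congr_right fun _ => and_congr_right fun h1 => ?_
  exact h.2 _ _ _ _ h1 le_rfl

lemma Agree.forced' {t : ℕ} (h : Agree W W' t) (hb : W.bet = W'.bet) (hf : W.forced t) :
    W'.forced t := by
  obtain ⟨h1, i, h2, σ, h3, h4⟩ := hf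
  refine ⟨h1, i, fun h5 => h2 ((h.B hb).2 h5), σ, ?_, h.RL h4⟩
  rw [← h.1 (t - 1) (by omega)]
  exact h3

lemma Agree.forced {t : ℕ} (h : Agree W W' t) (hb : W.bet = W'.bet) :
    W.forced t ↔ W'.forced t :=
  ⟨h.forced' hb, h.symm.forced' hb.symm⟩

/-- a forced letter is determined -/
lemma Agree.letter {t : ℕ} (h : Agree W W' t) (ht : t ≤ L) (hb : W.bet = W'.bet)
    (hf : W.forced t) : W.s t = W'.s t := by
  obtain ⟨h1, i, h2, σ, h3, h4⟩ := hf
  have h5 := W.forced_eq h1 ht h2 h3 h4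
  have h6 := W'.forced_eq (i := i) h1 ht (fun h5 => h2 ((h.B hb).2 h5))
    (by rw [← h.1 (t - 1) (by omega)]; exact h3) (h.RL h4)
  rw [h5, h6]

lemma Agree.new_iff {t : ℕ} (h : Agree W W' t) (hs : W.s t = W'.s t) (ht : t < L)
    (hr : W.rho = W'.rho) (i : ι) (hv : W.V i (t + 1) ∈ W.vis t) :
    ∃ q : ι × ℕ, q.2 ≤ t ∧ W.V i (t + 1) = W.V q.1 q.2 ∧ W'.V i (t + 1) = W'.V q.1 q.2 := by
  by_cases h1 : W.e i t ∈ W.rev t
  · rw [W.e_eq, ← RL_iff] at h1
    obtain ⟨i', t', ht', h2⟩ := h1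
    rcases h2 with ⟨h3, h4⟩ | ⟨h3, h4⟩
    · refine ⟨(i', t' + 1), ht', ?_, ?_⟩
      · rw [W.hV, W.hV, h3, h4]
      · have h5 := (h.2 _ _ _ _ (by omega) le_rfl).1 h4
        rw [W'.hV, W'.hV, h5, ← h.1 t' ht', h3, hs]
    · refine ⟨(i', t'), ht'.le, ?_, ?_⟩
      · rw [W.hV i t, ← h4, W.hV i' t', h3]
        have := st_inv W.x (inv (W.s t)) (W.V i' t')
        rwa [inv_inv'] at this
      · have h5 := (h.2 _ _ _ _ (by omega) le_rfl).1 h4
        rw [W'.hV i t, ← h5, W'.hV i' t', ← h.1 t' ht', h3, hs]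
        have := st_inv W'.x (inv (W'.s t)) (W'.V i' t')
        rwa [inv_inv'] at this
  · have h2 : (i, t) ∈ W.co := by
      rw [co, mem_filter, mem_product, mem_range]
      exact ⟨⟨mem_univ _, ht⟩, h1, hv⟩
    have h3 : ((i, t), W.tgt (i, t)) ∈ W.rho := W.mem_rho.2 ⟨h2, rfl⟩
    have h4 := h3
    rw [hr, W'.mem_rho] at h4
    obtain ⟨h5, h6⟩ := W.tgt_spec (p := (i, t)) hv
    rw [co, mem_filter] at h4
    obtain ⟨h7, h8⟩ := W'.tgt_spec (p := (i, t)) h4.1.2.2
    rw [h4.2] at h7 h8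
    exact ⟨W.tgt (i, t), h5, h6.symm, h8.symm⟩

lemma Agree.succ {t : ℕ} (h : Agree W W' t) (hs : W.s t = W'.s t) (ht : t < L)
    (hr : W.rho = W'.rho) : Agree W W' (t + 1) := by
  have hsym := h.symm
  -- one vertex at time `t + 1`
  have one : ∀ i i' a', a' ≤ t → (W.V i (t + 1) = W.V i' a' ↔ W'.V i (t + 1) = W'.V i' a') := by
    intro i i' a' ha'
    constructor
    · intro h1
      obtain ⟨q, hq, h2, h3⟩ := h.new_iff hs ht hr i (W.mem_vis.2 ⟨i', a', ha', h1.symm⟩)
      rw [h3, ← h.2 _ _ _ _ hq ha', ← h2, h1]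
    · intro h1
      obtain ⟨q, hq, h2, h3⟩ := hsym.new_iff hs.symm ht hr.symm i
        (W'.mem_vis.2 ⟨i', a', ha', h1.symm⟩)
      rw [h3, ← hsym.2 _ _ _ _ hq ha', ← h2, h1]
  refine ⟨fun t' ht' => ?_, fun i a i' a' h1 h2 => ?_⟩
  · rcases Nat.lt_succ_iff_lt_or_eq.1 ht' with h3 | h3
    · exact h.1 t' h3
    · rw [h3]; exact hs
  · rcases Nat.le_succ_iff.1 h1 with h3 | h3
    · rcases Nat.le_succ_iff.1 h2 with h4 | h4
      · exact h.2 _ _ _ _ h3 h4
      · subst h4
        rw [eq_comm, one i' i a h3, eq_comm]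
    · subst h3
      rcases Nat.le_succ_iff.1 h2 with h4 | h4
      · exact one i i' a' h4
      · subst h4
        exact ⟨fun h => by rw [W.V_inj h], fun h => by rw [W'.V_inj h]⟩

/-- with the word fixed, the record determines the pattern -/
theorem agree_of_rho (hs : ∀ t, W.s t = W'.s t) (hr : W.rho = W'.rho) {t : ℕ} (ht : t ≤ L) :
    Agree W W' t := by
  induction t with
  | zero => exact agree_zero
  | succ t ih => exact (ih (by omega)).succ (hs t) (by omega) hr

/-- **the code determines the word** -/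
theorem word_of_code {T : ℕ} (δ : Fin k) (hr : W.rho = W'.rho) (hb : W.bet = W'.bet)
    (hF : ∀ c < T, ((W.FL L)[c]?).getD δ = ((W'.FL L)[c]?).getD δ) (hT : (W.FL L).length ≤ T)
    (hsgn : ∀ t < L, (W.s t).2 = (W'.s t).2) {t : ℕ} (ht : t ≤ L) :
    Agree W W' t ∧ W.FL t = W'.FL t := by
  induction t with
  | zero => exact ⟨agree_zero, rfl⟩
  | succ t ih =>
    obtain ⟨h, hFL⟩ := ih (by omega)
    have hfi := h.forced hb
    have hs : W.s t = W'.s t := by
      by_cases hf : W.forced t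
      · exact h.letter (by omega) hb hf
      · have h1 := W.FL_get (show t < L by omega) hf
        have h2 := W'.FL_get (show t < L by omega) (fun h => hf (hfi.2 h))
        have hlen : (W.FL t).length < T := by
          obtain ⟨r, hr⟩ := W.FL_prefix (show t + 1 ≤ L from ht)
          rw [← hr, FL, if_neg hf] at hT
          simp only [List.length_append, List.length_singleton] at hT
          omega
        have h3 := hF _ hlen
        rw [h1, hFL, h2] at h3
        exact Prod.ext (by simpa using h3) (hsgn t (by omega))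
    refine ⟨h.succ hs (by omega) hr, ?_⟩
    rw [FL, FL, hFL, hs]
    by_cases hf : W.forced t
    · rw [if_pos hf, if_pos (hfi.1 hf)]
    · rw [if_neg hf, if_neg (fun h => hf (hfi.2 h))]

end Cl

end Pool.Agent.L0h8.K2
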