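import Pool.Agent.L0h8.K2.Asym

/-!
Support reduction by commutators with random conjugates.
-/

set_option autoImplicit false
set_option linter.unusedSectionVars false

namespace Pool.Agent.L0h8.K2
open Finset RC14
open Pool.Agent.L0h8.ND (ball ball_mono mul_mem_ball inv_mem_ball conj_mem_ball)

section Comm
variable {n : ℕ}

/-- upper bound for the support of a commutator -/
lemma comm_supp_sub (h g : Equiv.Perm (Fin n)) : (h * g * h⁻¹ * g⁻¹).support ⊆
    (h.support ∩ g.support) ∪ (h.support ∩ g.support).image h ∪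
      (h.support ∩ g.support).image g := by
  intro x hx
  by_contra hcon
  simp only [mem_union, not_or, mem_image, mem_inter, not_exists, not_and, Equiv.Perm.mem_support,
    ne_eq, not_not] at hcon
  obtain ⟨⟨h1, h2⟩, h3⟩ := hcon
  rw [Equiv.Perm.mem_support] at hx
  apply hx
  rw [Equiv.Perm.mul_apply, Equiv.Perm.mul_apply, Equiv.Perm.mul_apply]
  by_cases hB : g x = x
  · have e1 : g⁻¹ x = x := by rw [Equiv.Perm.inv_eq_iff_eq, hB]
    rw [e1]
    by_cases hA : h x = x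
    · have e2 : h⁻¹ x = x := by rw [Equiv.Perm.inv_eq_iff_eq, hA]
      rw [e2, hB, hA]
    · -- `y = h⁻¹ x`
      have e2 : h (h⁻¹ x) = x := h.apply_symm_apply x
      by_cases hy : g (h⁻¹ x) = h⁻¹ x
      · rw [hy, e2]
      · exfalso
        refine h2 (h⁻¹ x) ⟨?_, hy⟩ e2
        intro h4
        rw [e2] at h4
        exact hA (by conv_lhs => rw [h4, e2])
  · have hA : h x = x := by
      by_contra hA
      exact hB (h1 hA)
    have e2 : g (g⁻¹ x) = x := g.apply_symm_apply x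
    by_cases hy : h (g⁻¹ x) = g⁻¹ x
    · have e3 : h⁻¹ (g⁻¹ x) = g⁻¹ x := by rw [Equiv.Perm.inv_eq_iff_eq, hy]
      rw [e3, e2, hA]
    · exfalso
      refine h3 (g⁻¹ x) ⟨hy, ?_⟩ e2
      intro h4
      rw [e2] at h4
      exact hB (by conv_lhs => rw [h4, e2])

/-- lower bound for the support of a commutator -/
lemma comm_supp_sup (h g : Equiv.Perm (Fin n)) :
    ((h.support ∩ g.support).filter fun y => h y ∉ g.support).image h ⊆
      (h * g * h⁻¹ * g⁻¹).support := by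
  intro x hx
  obtain ⟨y, hy, rfl⟩ := mem_image.1 hx
  obtain ⟨hy1, hy2⟩ := mem_filter.1 hy
  rw [mem_inter] at hy1
  rw [Equiv.Perm.mem_support, not_not] at hy2
  rw [Equiv.Perm.mem_support] at hy1 ⊢
  rw [Equiv.Perm.mul_apply, Equiv.Perm.mul_apply, Equiv.Perm.mul_apply]
  have e1 : g⁻¹ (h y) = h y := by rw [Equiv.Perm.inv_eq_iff_eq, hy2]
  rw [e1]
  have e2 : h⁻¹ (h y) = y := h.symm_apply_apply y
  rw [e2]
  intro h3
  have h4 := h.injective h3
  exact (Equiv.Perm.mem_support.1 hy1.2) h4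

lemma comm_card_le (h g : Equiv.Perm (Fin n)) :
    #(h * g * h⁻¹ * g⁻¹).support ≤ 3 * #(h.support ∩ g.support) := by
  refine (card_le_card (comm_supp_sub h g)).trans ?_
  have h1 := card_union_le ((h.support ∩ g.support) ∪ (h.support ∩ g.support).image h)
    ((h.support ∩ g.support).image g)
  have h2 := card_union_le (h.support ∩ g.support) ((h.support ∩ g.support).image h)
  have h3 : #((h.support ∩ g.support).image h) ≤ #(h.support ∩ g.support) := card_image_le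
  have h4 : #((h.support ∩ g.support).image g) ≤ #(h.support ∩ g.support) := card_image_le
  omega

lemma comm_card_ge (h g : Equiv.Perm (Fin n)) : #(h.support ∩ g.support) ≤
    #(h * g * h⁻¹ * g⁻¹).support + #((h.support ∩ g.support).filter fun y => h y ∈ g.support) := by
  have h1 := card_le_card (comm_supp_sup h g)
  rw [card_image_of_injective _ h.injective] at h1
  have h2 := card_filter_add_card_filter_not (s := h.support ∩ g.support)
    (fun y => h y ∈ g.support)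
  omega

/-- the two counts, for a conjugate -/
lemma conj_counts (h u : Equiv.Perm (Fin n)) :
    #(h.support ∩ (u * h * u⁻¹).support) = #(h.support.filter fun c => u c ∈ h.support) ∧
    #((h.support ∩ (u * h * u⁻¹).support).filter fun y => h y ∈ (u * h * u⁻¹).support) =
      #(h.support.filter fun y => u⁻¹ y ∈ h.support ∧ u⁻¹ (h y) ∈ h.support) := by
  have hs : ∀ y, y ∈ (u * h * u⁻¹).support ↔ u⁻¹ y ∈ h.support := by
    intro y
    rw [Equiv.Perm.mem_support, Equiv.Perm.mem_support, Equiv.Perm.mul_apply,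
      Equiv.Perm.mul_apply, ne_eq, ne_eq, not_iff_not]
    constructor
    · intro h1
      exact Equiv.Perm.eq_inv_iff_eq.2 h1
    · intro h1
      rw [h1]
      exact u.apply_symm_apply y
  constructor
  · have h1 : h.support ∩ (u * h * u⁻¹).support =
        (h.support.filter fun c => u c ∈ h.support).image u := by
      ext y
      rw [mem_inter, hs, mem_image]
      constructor
      · rintro ⟨h1, h2⟩
        refine ⟨u⁻¹ y, mem_filter.2 ⟨h2, ?_⟩, u.apply_symm_apply y⟩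
        rw [show u (u⁻¹ y) = y from u.apply_symm_apply y]
        exact h1
      · rintro ⟨c, hc, rfl⟩
        obtain ⟨h1, h2⟩ := mem_filter.1 hc
        refine ⟨h2, ?_⟩
        rw [show u⁻¹ (u c) = c from u.symm_apply_apply c]
        exact h1
    rw [h1, card_image_of_injective _ u.injective]
  · congr 1
    ext y
    rw [mem_filter, mem_inter, hs, hs, mem_filter]
    tauto

end Comm

/-- numerical estimates -/
lemma num_est (n m q pp pm : ℝ) (hn : 2 ≤ n) (hm1 : 1 ≤ m) (hmn : 100 * m ≤ n)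
    (hq : q = m ^ 2 / n) (hpp : pp = 1 / (n * (n - 1)) + 1 / n ^ 4)
    (hpm : pm = 1 / (n * (n - 1)) - 1 / n ^ 4) :
    m ^ 2 * ((n - 1) * pp) ≤ q + 1 ∧ q - q / n ^ 2 ≤ m ^ 2 * ((n - 1) * pm) ∧
    (m * (m - 1)) ^ 2 * pp ≤ q ^ 2 + 1 ∧ m * (m * ((m - 1) * pp)) ≤ q / 50 ∧
    q * (q / n ^ 2) ≤ 1 := by
  have hn0 : 0 < n := by linarith
  have hn1' : 0 < n - 1 := by linarith
  have hn1 : 1 ≤ n := by linarith
  have hm0 : 0 < m := by linarith
  have hmn' : m ≤ n := by linarith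
  have hn2 : (1 : ℝ) ≤ n ^ 2 := one_le_pow₀ hn1
  have hmm : m * m ≤ m * n := mul_le_mul_of_nonneg_left hmn' hm0.le
  have hnm' : n ≤ m * n := le_mul_of_one_le_left hn0.le hm1
  have hmn2 : m * n ≤ n * n := mul_le_mul_of_nonneg_right hmn' hn0.le
  have hm2 : m ^ 2 ≤ n ^ 2 := by gcongr
  have hq0 : 0 ≤ q := by rw [hq]; positivity
  have hqn : q ≤ n := by
    rw [hq, div_le_iff₀ hn0]
    calc m ^ 2 ≤ n ^ 2 := hm2
      _ = n * n := by ring
  have hq2 : q / n ^ 2 ≤ 1 := by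
    rw [div_le_one (by positivity)]
    calc q ≤ n := hqn
      _ = n * 1 := (mul_one n).symm
      _ ≤ n * n := mul_le_mul_of_nonneg_left hn1 hn0.le
      _ = n ^ 2 := by ring
  have hnp : (n - 1) * pp = 1 / n + (n - 1) / n ^ 4 := by
    rw [hpp]; field_simp
  have hnm : (n - 1) * pm = 1 / n - (n - 1) / n ^ 4 := by
    rw [hpm]; field_simp
  have hsm : (n - 1) / n ^ 4 ≤ 1 / n ^ 3 := by
    rw [div_le_div_iff₀ (by positivity) (by positivity)]
    have : 0 < n ^ 3 := by positivity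
    calc (n - 1) * n ^ 3 ≤ n * n ^ 3 := by gcongr; linarith
      _ = 1 * n ^ 4 := by ring
  have hqe : m ^ 2 * (1 / n) = q := by rw [hq]; ring
  have hq3 : m ^ 2 * (1 / n ^ 3) = q / n ^ 2 := by rw [hq]; field_simp
  have e3 : m ^ 2 * ((n - 1) / n ^ 4) ≤ q / n ^ 2 := by
    rw [← hq3]; gcongr
  have f1 : m ^ 2 * ((n - 1) * pp) ≤ q + 1 := by
    rw [hnp, mul_add, hqe]; linarith
  have f2 : q - q / n ^ 2 ≤ m ^ 2 * ((n - 1) * pm) := by
    rw [hnm, mul_sub, hqe]; linarith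
  have f3 : (m * (m - 1)) ^ 2 * pp ≤ q ^ 2 + 1 := by
    rw [hpp, mul_add]
    have g1 : (m * (m - 1)) ^ 2 * (1 / (n * (n - 1))) ≤ q ^ 2 := by
      rw [mul_one_div, div_le_iff₀ (by positivity)]
      have g2 : q ^ 2 * (n * (n - 1)) = m ^ 2 * (m ^ 2 * ((n - 1) / n)) := by
        rw [hq]; field_simp
      rw [g2]
      have g3 : (m - 1) ^ 2 ≤ m ^ 2 * ((n - 1) / n) := by
        rw [mul_div_assoc', le_div_iff₀ hn0]
        have a1 : (m - 1) ^ 2 * n = m ^ 2 * n - 2 * (m * n) + n := by ring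
        have a2 : m ^ 2 * (n - 1) = m ^ 2 * n - m * m := by ring
        rw [a1, a2]
        linarith
      calc (m * (m - 1)) ^ 2 = m ^ 2 * (m - 1) ^ 2 := by ring
        _ ≤ m ^ 2 * (m ^ 2 * ((n - 1) / n)) := mul_le_mul_of_nonneg_left g3 (by positivity)
    have g4 : (m * (m - 1)) ^ 2 * (1 / n ^ 4) ≤ 1 := by
      rw [mul_one_div, div_le_one (by positivity)]
      have g5 : m * (m - 1) ≤ n ^ 2 := by
        calc m * (m - 1) ≤ m * m := by gcongr; linarith
          _ ≤ m * n := hmm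
          _ ≤ n * n := hmn2
          _ = n ^ 2 := by ring
      have g6 : 0 ≤ m * (m - 1) := mul_nonneg hm0.le (by linarith)
      calc (m * (m - 1)) ^ 2 ≤ (n ^ 2) ^ 2 := by gcongr
        _ = _ := by ring
    linarith
  have f4 : m * (m * ((m - 1) * pp)) ≤ q / 50 := by
    have e1 : (m - 1) * pp ≤ 2 * m / n ^ 2 := by
      rw [hpp, mul_add]
      have e2 : (m - 1) * (1 / (n * (n - 1))) ≤ m / n ^ 2 := by
        rw [mul_one_div, div_le_div_iff₀ (by positivity) (by positivity)]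
        have a1 : (m - 1) * n ^ 2 = m * n ^ 2 - n * n := by ring
        have a2 : m * (n * (n - 1)) = m * n ^ 2 - m * n := by ring
        rw [a1, a2]
        linarith
      have e3 : (m - 1) * (1 / n ^ 4) ≤ m / n ^ 2 := by
        rw [mul_one_div, div_le_div_iff₀ (by positivity) (by positivity)]
        calc (m - 1) * n ^ 2 ≤ m * n ^ 2 := by gcongr; linarith
          _ ≤ m * (n ^ 2 * n ^ 2) := by
              gcongr
              exact le_mul_of_one_le_left (by positivity) hn2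
          _ = m * n ^ 4 := by ring
      have e5 : 2 * m / n ^ 2 = m / n ^ 2 + m / n ^ 2 := by ring
      linarith
    calc m * (m * ((m - 1) * pp)) ≤ m * (m * (2 * m / n ^ 2)) := by gcongr
      _ = q * (2 * m / n) := by rw [hq]; field_simp
      _ ≤ q * (1 / 50) := by
          refine mul_le_mul_of_nonneg_left ?_ hq0
          rw [div_le_div_iff₀ hn0 (by norm_num)]
          linarith
      _ = q / 50 := by ring
  have f5 : q * (q / n ^ 2) ≤ 1 := by
    rw [mul_div_assoc', div_le_one (by positivity)]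
    calc q * q ≤ n * n := by gcongr
      _ = n ^ 2 := by ring
  exact ⟨f1, f2, f3, f4, f5⟩

section Moments
variable {n : ℕ} {Ω : Type} [Fintype Ω]

/-- the number of `ω` moving `i` to `k` and `j` to `l` -/
noncomputable def P4 (G : Ω → Alt n) (i j k l : Fin n) : ℝ :=
  ∑ ω, if (G ω : Equiv.Perm (Fin n)) i = k ∧ (G ω : Equiv.Perm (Fin n)) j = l then (1 : ℝ) else 0

/-- a pair as a tuple -/
def pr (i j : Fin n) (h : i ≠ j) : Tup 2 n :=
  ⟨![i, j], by
    intro a b hab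
    fin_cases a <;> fin_cases b <;> simp_all⟩

lemma P4_eq (G : Ω → Alt n) {i j k l : Fin n} (hij : i ≠ j) (hkl : k ≠ l) :
    P4 G i j k l = #{ω | mv (G ω : Equiv.Perm (Fin n)) (pr i j hij) = pr k l hkl} := by
  classical
  unfold P4
  rw [Finset.sum_boole]
  congr 2
  ext ω
  simp only [mem_filter, mem_univ, true_and]
  constructor
  · rintro ⟨h1, h2⟩
    ext a
    fin_cases a
    · simpa [pr, mv] using congrArg Fin.val h1
    · simpa [pr, mv] using congrArg Fin.val h2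
  · intro h1
    have h2 := DFunLike.congr_fun h1 0
    have h3 := DFunLike.congr_fun h1 1
    simp only [pr, mv_apply, Function.Embedding.coeFn_mk, Matrix.cons_val_zero,
      Matrix.cons_val_one] at h2 h3
    exact ⟨h2, h3⟩

variable (G : Ω → Alt n) (A : Finset (Fin n))

/-- the number of points of `A` moved into `A` -/
noncomputable def Xc (ω : Ω) : ℝ := #(A.filter fun c => (G ω : Equiv.Perm (Fin n)) c ∈ A)

lemma Xc_eq (ω : Ω) : Xc G A ω =
    ∑ i ∈ A, if (G ω : Equiv.Perm (Fin n)) i ∈ A then (1 : ℝ) else 0 := by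
  unfold Xc
  rw [Finset.sum_boole]

/-- the number of `ω` moving `i` to `k` -/
noncomputable def P2 (i k : Fin n) : ℝ :=
  ∑ ω, if (G ω : Equiv.Perm (Fin n)) i = k then (1 : ℝ) else 0

lemma P2_eq {i j k : Fin n} (hij : i ≠ j) : P2 G i k = ∑ l ∈ univ.erase k, P4 G i j k l := by
  unfold P2 P4
  rw [Finset.sum_comm]
  refine Finset.sum_congr rfl fun ω _ => ?_
  by_cases h : (G ω : Equiv.Perm (Fin n)) i = k
  · simp only [h, true_and, if_true]
    rw [Finset.sum_ite_eq, if_pos]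
    rw [mem_erase]
    refine ⟨?_, mem_univ _⟩
    rw [← h]
    exact fun h' => hij ((G ω : Equiv.Perm (Fin n)).injective h').symm
  · simp [h]

lemma sum_X : ∑ ω, Xc G A ω = ∑ i ∈ A, ∑ k ∈ A, P2 G i k := by
  simp only [Xc_eq]
  rw [Finset.sum_comm]
  refine Finset.sum_congr rfl fun i _ => ?_
  unfold P2
  rw [Finset.sum_comm]
  refine Finset.sum_congr rfl fun ω _ => ?_
  rw [Finset.sum_ite_eq]

lemma sum_X_sq : ∑ ω, Xc G A ω ^ 2 = ∑ ω, Xc G A ω +
    ∑ i ∈ A, ∑ j ∈ A.erase i, ∑ k ∈ A, ∑ l ∈ A.erase k, P4 G i j k l := by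
  classical
  have h1 : ∀ ω, Xc G A ω ^ 2 = Xc G A ω + ∑ i ∈ A, ∑ j ∈ A.erase i, ∑ k ∈ A, ∑ l ∈ A.erase k,
      (if (G ω : Equiv.Perm (Fin n)) i = k ∧ (G ω : Equiv.Perm (Fin n)) j = l
        then (1 : ℝ) else 0) := by
    intro ω
    set a : Fin n → ℝ := fun i => if (G ω : Equiv.Perm (Fin n)) i ∈ A then (1 : ℝ) else 0 with ha
    have h2 : Xc G A ω = ∑ i ∈ A, a i := Xc_eq G A ω
    have h3 : ∀ i ∈ A, a i * ∑ j ∈ A, a j = a i + ∑ j ∈ A.erase i, a i * a j := by
      intro i hi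
      rw [← Finset.add_sum_erase _ _ hi, mul_add, Finset.mul_sum]
      congr 1
      simp only [ha]
      split_ifs <;> simp
    have h4 : ∀ i ∈ A, ∀ j ∈ A.erase i, a i * a j = ∑ k ∈ A, ∑ l ∈ A.erase k,
        (if (G ω : Equiv.Perm (Fin n)) i = k ∧ (G ω : Equiv.Perm (Fin n)) j = l
          then (1 : ℝ) else 0) := by
      intro i _ j hj
      have hij : j ≠ i := (mem_erase.1 hj).1
      by_cases hi' : (G ω : Equiv.Perm (Fin n)) i ∈ A
      · have hz : ∑ k ∈ A.erase ((G ω : Equiv.Perm (Fin n)) i), ∑ l ∈ A.erase k,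
            (if (G ω : Equiv.Perm (Fin n)) i = k ∧ (G ω : Equiv.Perm (Fin n)) j = l
              then (1 : ℝ) else 0) = 0 := by
          refine Finset.sum_eq_zero fun k hk => Finset.sum_eq_zero fun l _ => ?_
          rw [if_neg]
          rintro ⟨h5, -⟩
          exact (mem_erase.1 hk).1 h5.symm
        rw [← Finset.add_sum_erase _ _ hi', hz, add_zero]
        simp only [true_and]
        rw [Finset.sum_ite_eq]
        simp only [ha, if_pos hi', one_mul, mem_erase]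
        have h5 : (G ω : Equiv.Perm (Fin n)) j ≠ (G ω : Equiv.Perm (Fin n)) i :=
          fun h => hij ((G ω : Equiv.Perm (Fin n)).injective h)
        simp [h5]
      · rw [Finset.sum_eq_zero]
        · simp [ha, hi']
        · intro k hk
          refine Finset.sum_eq_zero fun l _ => ?_
          rw [if_neg]
          rintro ⟨h5, -⟩
          exact hi' (h5 ▸ hk)
    rw [h2, sq, Finset.sum_mul, Finset.sum_congr rfl h3, Finset.sum_add_distrib]
    congr 1
    exact Finset.sum_congr rfl fun i hi => Finset.sum_congr rfl fun j hj => h4 i hi j hj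
  rw [Finset.sum_congr rfl fun ω _ => h1 ω, Finset.sum_add_distrib]
  congr 1
  rw [Finset.sum_comm]
  refine Finset.sum_congr rfl fun i _ => ?_
  rw [Finset.sum_comm]
  refine Finset.sum_congr rfl fun j _ => ?_
  rw [Finset.sum_comm]
  refine Finset.sum_congr rfl fun k _ => ?_
  rw [Finset.sum_comm]
  rfl

/-- the number of points `y` of the support of `h` such that `y` and `h y` come from the support -/
noncomputable def Yc (h : Equiv.Perm (Fin n)) (ω : Ω) : ℝ :=
  #(h.support.filter fun y => (G ω : Equiv.Perm (Fin n))⁻¹ y ∈ h.support ∧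
    (G ω : Equiv.Perm (Fin n))⁻¹ (h y) ∈ h.support)

lemma sum_Y (h : Equiv.Perm (Fin n)) : ∑ ω, Yc G h ω ≤
    ∑ y ∈ h.support, ∑ i ∈ h.support, ∑ j ∈ h.support.erase i, P4 G i j y (h y) := by
  classical
  have h1 : ∀ ω, Yc G h ω ≤ ∑ y ∈ h.support, ∑ i ∈ h.support, ∑ j ∈ h.support.erase i,
      (if (G ω : Equiv.Perm (Fin n)) i = y ∧ (G ω : Equiv.Perm (Fin n)) j = h y
        then (1 : ℝ) else 0) := by
    intro ω
    unfold Yc
    rw [← Finset.sum_boole]
    refine Finset.sum_le_sum fun y hy => ?_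
    have hnn : ∀ i j : Fin n, (0 : ℝ) ≤ (if (G ω : Equiv.Perm (Fin n)) i = y ∧
        (G ω : Equiv.Perm (Fin n)) j = h y then (1 : ℝ) else 0) := by
      intro i j; split_ifs <;> norm_num
    split_ifs with h2
    · obtain ⟨h3, h4⟩ := h2
      have hne : (G ω : Equiv.Perm (Fin n))⁻¹ (h y) ≠ (G ω : Equiv.Perm (Fin n))⁻¹ y := by
        intro h5
        exact (Equiv.Perm.mem_support.1 hy) ((G ω : Equiv.Perm (Fin n))⁻¹.injective h5)
      calc (1 : ℝ) = (if (G ω : Equiv.Perm (Fin n)) ((G ω : Equiv.Perm (Fin n))⁻¹ y) = y ∧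
            (G ω : Equiv.Perm (Fin n)) ((G ω : Equiv.Perm (Fin n))⁻¹ (h y)) = h y
              then (1 : ℝ) else 0) := by
            rw [if_pos]
            exact ⟨(G ω : Equiv.Perm (Fin n)).apply_symm_apply y,
              (G ω : Equiv.Perm (Fin n)).apply_symm_apply (h y)⟩
        _ ≤ ∑ j ∈ h.support.erase ((G ω : Equiv.Perm (Fin n))⁻¹ y),
            (if (G ω : Equiv.Perm (Fin n)) ((G ω : Equiv.Perm (Fin n))⁻¹ y) = y ∧
              (G ω : Equiv.Perm (Fin n)) j = h y then (1 : ℝ) else 0) :=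
            Finset.single_le_sum (f := fun j => (if (G ω : Equiv.Perm (Fin n))
              ((G ω : Equiv.Perm (Fin n))⁻¹ y) = y ∧
              (G ω : Equiv.Perm (Fin n)) j = h y then (1 : ℝ) else 0))
              (fun j _ => hnn _ j) (mem_erase.2 ⟨hne, h4⟩)
        _ ≤ _ := Finset.single_le_sum (f := fun i => ∑ j ∈ h.support.erase i,
            (if (G ω : Equiv.Perm (Fin n)) i = y ∧
              (G ω : Equiv.Perm (Fin n)) j = h y then (1 : ℝ) else 0))
              (fun i _ => Finset.sum_nonneg fun j _ => hnn i j) h3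
    · exact Finset.sum_nonneg fun i _ => Finset.sum_nonneg fun j _ => hnn i j
  refine (Finset.sum_le_sum fun ω _ => h1 ω).trans (le_of_eq ?_)
  rw [Finset.sum_comm]
  refine Finset.sum_congr rfl fun y _ => ?_
  rw [Finset.sum_comm]
  refine Finset.sum_congr rfl fun i _ => ?_
  rw [Finset.sum_comm]
  rfl

/-- **the moments**: there is `ω` with good counts -/
theorem exists_good (h : Equiv.Perm (Fin n)) {m : ℕ} (hm : #h.support = m) (h8 : 8 * n ≤ m ^ 2)
    (h100 : 100 * m ≤ n) (hn : 2 ≤ n) (hΩ : 0 < Fintype.card Ω)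
    (hP : ∀ i j k l, i ≠ j → k ≠ l →
      |P4 G i j k l / Fintype.card Ω - 1 / ((n : ℝ) * (n - 1))| ≤ 1 / (n : ℝ) ^ 4) :
    ∃ ω, |Xc G h.support ω - (m : ℝ) ^ 2 / n| ≤ (m : ℝ) ^ 2 / n / 2 ∧
      Yc G h ω ≤ (m : ℝ) ^ 2 / n / 4 := by
  classical
  have hnr : (2 : ℝ) ≤ n := by exact_mod_cast hn
  have hn0 : (0 : ℝ) < n := by linarith
  have hm0' : 0 < m := by
    rcases Nat.eq_zero_or_pos m with h | h
    · subst h; simp at h8; omega
    · exact h
  have hm0 : (0 : ℝ) < m := by exact_mod_cast hm0'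
  have hm1 : (1 : ℝ) ≤ m := by exact_mod_cast hm0'
  have hmn : 100 * (m : ℝ) ≤ n := by exact_mod_cast h100
  have h8r : 8 * (n : ℝ) ≤ (m : ℝ) ^ 2 := by exact_mod_cast h8
  set N : ℝ := (Fintype.card Ω : ℝ) with hN
  have hN0 : 0 < N := by rw [hN]; exact_mod_cast hΩ
  set q : ℝ := (m : ℝ) ^ 2 / n with hq
  have hq8 : 8 ≤ q := by rw [hq, le_div_iff₀ hn0]; exact h8r
  set pp : ℝ := 1 / ((n : ℝ) * (n - 1)) + 1 / (n : ℝ) ^ 4 with hpp
  set pm : ℝ := 1 / ((n : ℝ) * (n - 1)) - 1 / (n : ℝ) ^ 4 with hpm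
  have hn1' : (0 : ℝ) < (n : ℝ) - 1 := by linarith
  have hub : ∀ i j k l, i ≠ j → k ≠ l → P4 G i j k l ≤ N * pp := by
    intro i j k l hij hkl
    have h1 := (abs_le.1 (hP i j k l hij hkl)).2
    have h2 : P4 G i j k l / N ≤ pp := by rw [hpp]; linarith
    rw [div_le_iff₀ hN0] at h2
    linarith
  have hlb : ∀ i j k l, i ≠ j → k ≠ l → N * pm ≤ P4 G i j k l := by
    intro i j k l hij hkl
    have h1 := (abs_le.1 (hP i j k l hij hkl)).1
    have h2 : pm ≤ P4 G i j k l / N := by rw [hpm]; linarith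
    rw [le_div_iff₀ hN0] at h2
    linarith
  have hpp0 : 0 ≤ pp := by positivity
  set A := h.support with hA
  have hex : ∀ i : Fin n, ∃ j, i ≠ j := by
    intro i
    have : Nontrivial (Fin n) := Fin.nontrivial_iff_two_le.2 hn
    obtain ⟨j, hj⟩ := exists_ne i
    exact ⟨j, hj.symm⟩
  have hcer : ∀ k : Fin n, ((#((univ : Finset (Fin n)).erase k) : ℕ) : ℝ) = (n : ℝ) - 1 := by
    intro k
    rw [card_erase_of_mem (mem_univ k), card_univ, Fintype.card_fin, Nat.cast_sub (by omega),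
      Nat.cast_one]
  have hP2u : ∀ i k, P2 G i k ≤ (n - 1) * (N * pp) := by
    intro i k
    obtain ⟨j, hj⟩ := hex i
    rw [P2_eq G hj]
    calc ∑ l ∈ univ.erase k, P4 G i j k l ≤ ∑ _l ∈ (univ : Finset (Fin n)).erase k, N * pp :=
          Finset.sum_le_sum fun l hl => hub i j k l hj (mem_erase.1 hl).1.symm
      _ = _ := by rw [Finset.sum_const, nsmul_eq_mul, hcer]
  have hP2l : ∀ i k, (n - 1) * (N * pm) ≤ P2 G i k := by
    intro i k
    obtain ⟨j, hj⟩ := hex i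
    rw [P2_eq G hj]
    calc (n - 1) * (N * pm) = ∑ _l ∈ (univ : Finset (Fin n)).erase k, N * pm := by
          rw [Finset.sum_const, nsmul_eq_mul, hcer]
      _ ≤ _ := Finset.sum_le_sum fun l hl => hlb i j k l hj (mem_erase.1 hl).1.symm
  have hXu : ∑ ω, Xc G A ω ≤ m ^ 2 * ((n - 1) * (N * pp)) := by
    rw [sum_X]
    calc ∑ i ∈ A, ∑ k ∈ A, P2 G i k ≤ ∑ _i ∈ A, ∑ _k ∈ A, (n - 1) * (N * pp) :=
          Finset.sum_le_sum fun i _ => Finset.sum_le_sum fun k _ => hP2u i k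
      _ = _ := by
          rw [Finset.sum_const, Finset.sum_const, nsmul_eq_mul, nsmul_eq_mul, hm]; ring
  have hXl : m ^ 2 * ((n - 1) * (N * pm)) ≤ ∑ ω, Xc G A ω := by
    rw [sum_X]
    calc m ^ 2 * ((n - 1) * (N * pm)) = ∑ _i ∈ A, ∑ _k ∈ A, (n - 1) * (N * pm) := by
          rw [Finset.sum_const, Finset.sum_const, nsmul_eq_mul, nsmul_eq_mul, hm]; ring
      _ ≤ _ := Finset.sum_le_sum fun i _ => Finset.sum_le_sum fun k _ => hP2l i k
  have hcA : ∀ k ∈ A, ((#(A.erase k) : ℕ) : ℝ) = (m : ℝ) - 1 := by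
    intro k hk
    rw [card_erase_of_mem hk, hm, Nat.cast_sub (by omega), Nat.cast_one]
  have hX2 : ∑ ω, Xc G A ω ^ 2 ≤ ∑ ω, Xc G A ω + (m * (m - 1)) ^ 2 * (N * pp) := by
    rw [sum_X_sq]
    have h1 : ∑ i ∈ A, ∑ j ∈ A.erase i, ∑ k ∈ A, ∑ l ∈ A.erase k, P4 G i j k l ≤
        (m * (m - 1)) ^ 2 * (N * pp) := by
      calc ∑ i ∈ A, ∑ j ∈ A.erase i, ∑ k ∈ A, ∑ l ∈ A.erase k, P4 G i j k l
          ≤ ∑ i ∈ A, ∑ j ∈ A.erase i, ∑ k ∈ A, ∑ l ∈ A.erase k, N * pp :=
            Finset.sum_le_sum fun i _ => Finset.sum_le_sum fun j hj =>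
              Finset.sum_le_sum fun k _ => Finset.sum_le_sum fun l hl =>
                hub i j k l (mem_erase.1 hj).1.symm (mem_erase.1 hl).1.symm
        _ = (m * (m - 1)) ^ 2 * (N * pp) := by
            have h2 : ∑ k ∈ A, ∑ _l ∈ A.erase k, N * pp = m * ((m - 1) * (N * pp)) := by
              rw [Finset.sum_congr rfl fun k hk => by
                rw [Finset.sum_const, nsmul_eq_mul, hcA k hk], Finset.sum_const, nsmul_eq_mul, hm]
            rw [h2]
            rw [Finset.sum_congr rfl fun k hk => by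
                rw [Finset.sum_const, nsmul_eq_mul, hcA k hk], Finset.sum_const, nsmul_eq_mul, hm]
            ring
    linarith
  have hY : ∑ ω, Yc G h ω ≤ m * (m * ((m - 1) * (N * pp))) := by
    refine (sum_Y G h).trans ?_
    rw [← hA]
    calc ∑ y ∈ A, ∑ i ∈ A, ∑ j ∈ A.erase i, P4 G i j y (h y)
        ≤ ∑ _y ∈ A, ∑ i ∈ A, ∑ _j ∈ A.erase i, N * pp :=
          Finset.sum_le_sum fun y hy => Finset.sum_le_sum fun i _ => Finset.sum_le_sum fun j hj =>
            hub i j y (h y) (mem_erase.1 hj).1.symm (Equiv.Perm.mem_support.1 hy).symm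
      _ = _ := by
          have h2 : ∑ k ∈ A, ∑ _l ∈ A.erase k, N * pp = m * ((m - 1) * (N * pp)) := by
            rw [Finset.sum_congr rfl fun k hk => by
              rw [Finset.sum_const, nsmul_eq_mul, hcA k hk], Finset.sum_const, nsmul_eq_mul, hm]
          rw [h2, Finset.sum_const, nsmul_eq_mul, hm]
  obtain ⟨n1, n2, n3, n4, n5⟩ := num_est (n : ℝ) m q pp pm hnr hm1 hmn hq hpp hpm
  have eX1 : (m : ℝ) ^ 2 * ((n - 1) * (N * pp)) ≤ N * (q + 1) := by
    have e1 : (m : ℝ) ^ 2 * ((n - 1) * (N * pp)) = N * (m ^ 2 * ((n - 1) * pp)) := by ring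
    rw [e1]
    exact mul_le_mul_of_nonneg_left n1 hN0.le
  have eX2 : N * (q - q / n ^ 2) ≤ (m : ℝ) ^ 2 * ((n - 1) * (N * pm)) := by
    have e1 : (m : ℝ) ^ 2 * ((n - 1) * (N * pm)) = N * (m ^ 2 * ((n - 1) * pm)) := by ring
    rw [e1]
    exact mul_le_mul_of_nonneg_left n2 hN0.le
  by_contra hcon
  push Not at hcon
  have hall : ∀ ω, 1 < 4 * (Xc G A ω - q) ^ 2 / q ^ 2 + 4 * Yc G h ω / q := by
    intro ω
    have hY0 : 0 ≤ Yc G h ω := Nat.cast_nonneg _
    have hq0 : 0 < q := by linarith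
    by_cases hX : |Xc G A ω - q| ≤ q / 2
    · have h1 := hcon ω hX
      have h2 : 1 < 4 * Yc G h ω / q := by
        rw [lt_div_iff₀ hq0]; linarith
      have h3 : 0 ≤ 4 * (Xc G A ω - q) ^ 2 / q ^ 2 := by positivity
      linarith
    · push Not at hX
      have h1 : 1 < 4 * (Xc G A ω - q) ^ 2 / q ^ 2 := by
        rw [lt_div_iff₀ (by positivity), one_mul]
        have h2 : (q / 2) ^ 2 < |Xc G A ω - q| ^ 2 := by gcongr
        rw [sq_abs] at h2
        linarith
      have h3 : 0 ≤ 4 * Yc G h ω / q := by positivity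
      linarith
  have hsum : N < ∑ ω, (4 * (Xc G A ω - q) ^ 2 / q ^ 2 + 4 * Yc G h ω / q) := by
    have h1 : N = ∑ _ω : Ω, (1 : ℝ) := by rw [Finset.sum_const, card_univ, nsmul_eq_mul, mul_one]
    rw [h1]
    have hne : Nonempty Ω := Fintype.card_pos_iff.1 hΩ
    exact Finset.sum_lt_sum_of_nonempty univ_nonempty fun ω _ => hall ω
  have hexp : ∑ ω, (4 * (Xc G A ω - q) ^ 2 / q ^ 2 + 4 * Yc G h ω / q) =
      4 / q ^ 2 * (∑ ω, Xc G A ω ^ 2 - 2 * q * ∑ ω, Xc G A ω + N * q ^ 2) +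
        4 / q * ∑ ω, Yc G h ω := by
    have h1 : ∀ ω, 4 * (Xc G A ω - q) ^ 2 / q ^ 2 + 4 * Yc G h ω / q =
        4 / q ^ 2 * (Xc G A ω ^ 2 - 2 * q * Xc G A ω + q ^ 2) + 4 / q * Yc G h ω := by
      intro ω; ring
    rw [Finset.sum_congr rfl fun ω _ => h1 ω, Finset.sum_add_distrib, ← Finset.mul_sum,
      ← Finset.mul_sum, Finset.sum_add_distrib, Finset.sum_sub_distrib, ← Finset.mul_sum,
      Finset.sum_const, card_univ, nsmul_eq_mul]
  rw [hexp] at hsum
  have hvar : ∑ ω, Xc G A ω ^ 2 - 2 * q * ∑ ω, Xc G A ω + N * q ^ 2 ≤ N * (q + 4) := by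
    have h1 : 2 * q * (N * (q - q / n ^ 2)) ≤ 2 * q * ∑ ω, Xc G A ω :=
      mul_le_mul_of_nonneg_left (eX2.trans hXl) (by linarith)
    have h2 : ((m : ℝ) * (m - 1)) ^ 2 * (N * pp) ≤ N * (q ^ 2 + 1) := by
      calc ((m : ℝ) * (m - 1)) ^ 2 * (N * pp) = N * (((m : ℝ) * (m - 1)) ^ 2 * pp) := by ring
        _ ≤ _ := mul_le_mul_of_nonneg_left n3 hN0.le
    have h4 : 2 * q * (N * (q - q / n ^ 2)) = N * (2 * q ^ 2 - 2 * (q * (q / n ^ 2))) := by ring
    rw [h4] at h1
    have h5 : N * (q * (q / n ^ 2)) ≤ N * 1 := mul_le_mul_of_nonneg_left n5 hN0.le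
    have h6 := hXu.trans eX1
    clear hP hub hlb hex hcer hP2u hP2l hcA hall hcon hsum hexp eX1 eX2 hXl hXu hY
    linarith
  have hYY : ∑ ω, Yc G h ω ≤ N * (q / 50) := by
    refine hY.trans ?_
    calc (m : ℝ) * (m * ((m - 1) * (N * pp))) = N * (m * (m * ((m - 1) * pp))) := by ring
      _ ≤ _ := mul_le_mul_of_nonneg_left n4 hN0.le
  have hq0 : 0 < q := by linarith
  have hfin : 4 / q ^ 2 * (N * (q + 4)) + 4 / q * (N * (q / 50)) ≤ N := by
    have h1 : 4 / q * (N * (q / 50)) = N * (4 / 50) := by field_simp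
    have h2 : 4 / q ^ 2 * (N * (q + 4)) ≤ N * (3 / 4) := by
      rw [div_mul_eq_mul_div, div_le_iff₀ (by positivity)]
      have h3 : 4 * (q + 4) ≤ 3 / 4 * q ^ 2 := by
        have h4 : 0 ≤ (q - 8) * (3 / 4 * q + 2) :=
          mul_nonneg (sub_nonneg.2 hq8) (by linarith)
        have h5 : (q - 8) * (3 / 4 * q + 2) = 3 / 4 * q ^ 2 - 4 * (q + 4) := by ring
        linarith
      calc 4 * (N * (q + 4)) = N * (4 * (q + 4)) := by ring
        _ ≤ N * (3 / 4 * q ^ 2) := mul_le_mul_of_nonneg_left h3 hN0.le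
        _ = _ := by ring
    rw [h1]
    linarith
  have h1 : 4 / q ^ 2 * (∑ ω, Xc G A ω ^ 2 - 2 * q * ∑ ω, Xc G A ω + N * q ^ 2) ≤
      4 / q ^ 2 * (N * (q + 4)) := mul_le_mul_of_nonneg_left hvar (by positivity)
  have h2 : 4 / q * ∑ ω, Yc G h ω ≤ 4 / q * (N * (q / 50)) :=
    mul_le_mul_of_nonneg_left hYY (by positivity)
  linarith

end Moments

/-- **one step of support reduction** -/
theorem reduce {n r T ℓ : ℕ} {x : Fin 2 → Alt n} (hx : GoodMix n r T x) {h : Alt n}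
    (hh : h ∈ ball x ℓ) {m : ℕ} (hm : #(h : Equiv.Perm (Fin n)).support = m)
    (h8 : 8 * n ≤ m ^ 2) (h100 : 100 * m ≤ n) (hn : 2 ≤ n) :
    ∃ h' ∈ ball x (4 * ℓ + 4 * T),
      (m : ℝ) ^ 2 ≤ 4 * n * #(h' : Equiv.Perm (Fin n)).support ∧
      2 * n * (#(h' : Equiv.Perm (Fin n)).support : ℝ) ≤ 9 * (m : ℝ) ^ 2 := by
  classical
  obtain ⟨-, Ω, hΩ, G, hcard, hG, hmix⟩ := hx
  have hn0 : (0 : ℝ) < n := by exact_mod_cast (by omega : 0 < n)
  have hT2 : ((Fintype.card (Tup 2 n) : ℕ) : ℝ) = (n : ℝ) * (n - 1) := by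
    rw [Fintype.card_embedding_eq, Fintype.card_fin, Fintype.card_fin]
    rw [Nat.descFactorial_succ, Nat.descFactorial_one]
    push_cast
    rw [Nat.cast_sub (by omega)]
    push_cast
    ring
  obtain ⟨ω, hω1, hω2⟩ := exists_good G (h : Equiv.Perm (Fin n)) hm h8 h100 hn hcard (by
    intro i j k l hij hkl
    rw [P4_eq G hij hkl, ← hT2]
    exact hmix _ _)
  set u : Alt n := G ω with hu
  refine ⟨h * (u * h * u⁻¹) * h⁻¹ * (u * h * u⁻¹)⁻¹, ?_, ?_, ?_⟩
  · have h1 : u * h * u⁻¹ ∈ ball x (ℓ + 2 * T) := conj_mem_ball hh (hG ω)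
    have h2 := mul_mem_ball (mul_mem_ball (mul_mem_ball hh h1) (inv_mem_ball hh)) (inv_mem_ball h1)
    exact ball_mono (by omega) h2
  all_goals
    have e1 : ((h * (u * h * u⁻¹) * h⁻¹ * (u * h * u⁻¹)⁻¹ : Alt n) : Equiv.Perm (Fin n)) =
      (h : Equiv.Perm (Fin n)) * ((u : Equiv.Perm (Fin n)) * h * (u : Equiv.Perm (Fin n))⁻¹) *
        (h : Equiv.Perm (Fin n))⁻¹ *
          ((u : Equiv.Perm (Fin n)) * h * (u : Equiv.Perm (Fin n))⁻¹)⁻¹ := by
      simp only [Subgroup.coe_mul, Subgroup.coe_inv]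
    have c1 := conj_counts (h : Equiv.Perm (Fin n)) (u : Equiv.Perm (Fin n))
    have c2 := comm_card_le (h : Equiv.Perm (Fin n))
      ((u : Equiv.Perm (Fin n)) * h * (u : Equiv.Perm (Fin n))⁻¹)
    have c3 := comm_card_ge (h : Equiv.Perm (Fin n))
      ((u : Equiv.Perm (Fin n)) * h * (u : Equiv.Perm (Fin n))⁻¹)
    rw [c1.1] at c2
    rw [c1.1, c1.2] at c3
    have c2' : (#((h : Equiv.Perm (Fin n)) * ((u : Equiv.Perm (Fin n)) * h *
        (u : Equiv.Perm (Fin n))⁻¹) * (h : Equiv.Perm (Fin n))⁻¹ *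
          ((u : Equiv.Perm (Fin n)) * h * (u : Equiv.Perm (Fin n))⁻¹)⁻¹).support : ℝ) ≤
        3 * Xc G (h : Equiv.Perm (Fin n)).support ω := by
      unfold Xc
      exact_mod_cast c2
    have c3' : Xc G (h : Equiv.Perm (Fin n)).support ω ≤ (#((h : Equiv.Perm (Fin n)) *
        ((u : Equiv.Perm (Fin n)) * h *
        (u : Equiv.Perm (Fin n))⁻¹) * (h : Equiv.Perm (Fin n))⁻¹ *
          ((u : Equiv.Perm (Fin n)) * h * (u : Equiv.Perm (Fin n))⁻¹)⁻¹).support : ℝ) +
          Yc G (h : Equiv.Perm (Fin n)) ω := by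
      unfold Xc Yc
      exact_mod_cast c3
    have hab := abs_le.1 hω1
    rw [e1]
    set S : ℝ := (#((h : Equiv.Perm (Fin n)) * ((u : Equiv.Perm (Fin n)) * h *
        (u : Equiv.Perm (Fin n))⁻¹) * (h : Equiv.Perm (Fin n))⁻¹ *
          ((u : Equiv.Perm (Fin n)) * h * (u : Equiv.Perm (Fin n))⁻¹)⁻¹).support : ℝ) with hS
  · have h1 : (m : ℝ) ^ 2 / n / 4 ≤ S := by linarith [hab.1]
    rw [div_div, div_le_iff₀ (by positivity)] at h1
    linarith
  · have h1 : S ≤ 9 / 2 * ((m : ℝ) ^ 2 / n) := by linarith [hab.2]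
    have h2 : (m : ℝ) ^ 2 / n * n = (m : ℝ) ^ 2 := by field_simp
    calc 2 * (n : ℝ) * S ≤ 2 * n * (9 / 2 * ((m : ℝ) ^ 2 / n)) :=
          mul_le_mul_of_nonneg_left h1 (by positivity)
      _ = 9 * ((m : ℝ) ^ 2 / n * n) := by ring
      _ = 9 * (m : ℝ) ^ 2 := by rw [h2]

end Pool.Agent.L0h8.K2
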