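import Pool.Agent.L0h8.K2.Pat

/-!
Many even permutations have a power with support of size between `m / 4` and `m`.
-/

set_option autoImplicit false
set_option linter.unusedSectionVars false

namespace Pool.Agent.L0h8.K2
open Finset RC14 Function

/-- the even permutations having a power, with exponent at most `n`, whose support has between
`m / 4` and `m` elements -/
def EE (n m : ℕ) : Finset (Alt n) := univ.filter fun g => ∃ L ≤ n,
  m ≤ 4 * #((g : Equiv.Perm (Fin n)) ^ L).support ∧ #((g : Equiv.Perm (Fin n)) ^ L).support ≤ m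

lemma mem_EE {n m : ℕ} {g : Alt n} : g ∈ EE n m ↔ ∃ L ≤ n,
    m ≤ 4 * #((g : Equiv.Perm (Fin n)) ^ L).support ∧
      #((g : Equiv.Perm (Fin n)) ^ L).support ≤ m := by simp [EE]

lemma EE_conj {n m : ℕ} (g h : Alt n) : h * g * h⁻¹ ∈ EE n m ↔ g ∈ EE n m := by
  rw [mem_EE, mem_EE]
  have h1 : ∀ L : ℕ, #(((h * g * h⁻¹ : Alt n) : Equiv.Perm (Fin n)) ^ L).support =
      #((g : Equiv.Perm (Fin n)) ^ L).support := by
    intro L
    rw [Subgroup.coe_mul, Subgroup.coe_mul, Subgroup.coe_inv, conj_pow]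
    exact Equiv.Perm.card_support_conj
  simp only [h1]

variable {n : ℕ}

/-- the points in cycles whose length is a proper divisor of `L` -/
noncomputable def Zs (g : Equiv.Perm (Fin n)) (L : ℕ) : Finset (Fin n) :=
  univ.filter fun x => mp g x ∣ L ∧ mp g x ≠ L

/-- with a cycle of length `L` -/
noncomputable def AL (n L : ℕ) : Finset (Alt n) :=
  univ.filter fun g => ∃ y, mp (g : Equiv.Perm (Fin n)) y = L

/-- the exceptional ones -/
noncomputable def BL (n L : ℕ) : Finset (Alt n) :=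
  (AL n L).filter fun g => n - L < 2 * #(Zs (g : Equiv.Perm (Fin n)) L)

lemma card_supp_pow (g : Equiv.Perm (Fin n)) {L : ℕ} (h : n < 2 * L) (hy : ∃ y, mp g y = L) :
    #(g ^ L).support + L + #(Zs g L) = n := by
  obtain ⟨y, hy⟩ := hy
  have h1 : #(Np g L) = L := le_antisymm (card_Np_le h) (le_card_Np hy)
  have h2 : Disjoint (Np g L) (Zs g L) := by
    rw [disjoint_left]
    intro x hx hx'
    rw [mem_Np] at hx
    exact (mem_filter.1 hx').2.2 hx
  have h3 : (g ^ L).supportᶜ = Np g L ∪ Zs g L := by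
    ext x
    rw [mem_compl, Equiv.Perm.mem_support, not_not, pow_eq_iff, mem_union, mem_Np]
    unfold Zs
    rw [mem_filter]
    constructor
    · intro hx
      by_cases h4 : mp g x = L
      · exact Or.inl h4
      · exact Or.inr ⟨mem_univ _, hx, h4⟩
    · rintro (h4 | h4)
      · rw [h4]
      · exact h4.2.1
  have h4 := card_compl (g ^ L).support
  rw [h3, card_union_of_disjoint h2, h1, Fintype.card_fin] at h4
  have h5 : #(g ^ L).support ≤ n := by simpa using card_le_univ (g ^ L).support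
  omega

lemma mem_EE_of {m L : ℕ} (h : n < 2 * L) (hL : n ≤ L + m) (hL' : 2 * L + m ≤ 2 * n)
    {g : Alt n} (hg : g ∈ AL n L \ BL n L) : g ∈ EE n m := by
  rw [mem_sdiff] at hg
  obtain ⟨hg1, hg2⟩ := hg
  have h1 := (mem_filter.1 hg1).2
  have h2 : 2 * #(Zs (g : Equiv.Perm (Fin n)) L) ≤ n - L := by
    by_contra hcon
    push Not at hcon
    exact hg2 (mem_filter.2 ⟨hg1, hcon⟩)
  have h3 := card_supp_pow (g : Equiv.Perm (Fin n)) h h1
  rw [mem_EE]
  exact ⟨L, by omega, by omega, by omega⟩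

/-- the lower bound for `A_L` -/
lemma AL_ge {L : ℕ} (hL : 1 ≤ L) (hn : L + 2 ≤ n) : Fintype.card (Alt n) ≤ n * #(AL n L) := by
  refine (count_ge hL hn).trans ?_
  have h1 : Nat.card {p : Alt n × Fin n // mp (p.1 : Equiv.Perm (Fin n)) p.2 = L} ≤
      #(AL n L ×ˢ (univ : Finset (Fin n))) := by
    rw [Nat.card_eq_fintype_card, Fintype.card_subtype]
    refine card_le_card fun p hp => ?_
    rw [mem_product]
    exact ⟨mem_filter.2 ⟨mem_univ _, p.2, (mem_filter.1 hp).2⟩, mem_univ _⟩
  rw [card_product, card_univ, Fintype.card_fin, mul_comm] at h1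
  exact h1

/-- the upper bound for `B_L` -/
lemma BL_le {L : ℕ} (hL : 1 ≤ L) :
    #(BL n L) * (L * (n - L)) ≤ 2 * ((2 * Nat.sqrt L) * n.factorial) := by
  have h1 : ∀ g ∈ BL n L, L * (n - L) ≤
      2 * (#(Np (g : Equiv.Perm (Fin n)) L) * #(Zs (g : Equiv.Perm (Fin n)) L)) := by
    intro g hg
    obtain ⟨hg1, hg2⟩ := mem_filter.1 hg
    obtain ⟨y, hy⟩ := (mem_filter.1 hg1).2
    calc L * (n - L) ≤ #(Np (g : Equiv.Perm (Fin n)) L) *
          (2 * #(Zs (g : Equiv.Perm (Fin n)) L)) := Nat.mul_le_mul (le_card_Np hy) hg2.le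
      _ = _ := by ring
  have h2 : ∑ g : Alt n, #(Np (g : Equiv.Perm (Fin n)) L) * #(Zs (g : Equiv.Perm (Fin n)) L) ≤
      ∑ d ∈ L.properDivisors, n.factorial := by
    have h3 : ∀ g : Equiv.Perm (Fin n), #(Zs g L) = ∑ d ∈ L.properDivisors, #(Np g d) := by
      intro g
      rw [← card_biUnion]
      · congr 1
        ext x
        unfold Zs
        rw [mem_filter, mem_biUnion]
        constructor
        · rintro ⟨-, h4, h5⟩
          refine ⟨mp g x, Nat.mem_properDivisors.2 ⟨h4, ?_⟩, mem_Np.2 rfl⟩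
          exact lt_of_le_of_ne (Nat.le_of_dvd hL h4) h5
        · rintro ⟨d, hd, hx⟩
          rw [mem_Np] at hx
          rw [Nat.mem_properDivisors] at hd
          rw [hx]
          exact ⟨mem_univ _, hd.1, hd.2.ne⟩
      · intro d _ e _ hde
        change Disjoint (Np g d) (Np g e)
        rw [disjoint_left]
        intro x hx hx'
        rw [mem_Np] at hx hx'
        exact hde (hx.symm.trans hx')
    have h4 : ∀ d ∈ L.properDivisors, ∑ g : Alt n, #(Np (g : Equiv.Perm (Fin n)) L) *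
        #(Np (g : Equiv.Perm (Fin n)) d) ≤ n.factorial := by
      intro d hd
      rw [Nat.mem_properDivisors] at hd
      have hd0 : 1 ≤ d := Nat.pos_of_dvd_of_pos hd.1 hL
      refine le_trans ?_ (count_le (n := n) hd0 hL hd.2.ne)
      rw [Nat.card_eq_fintype_card, Fintype.card_subtype]
      have h5 : (univ.filter fun p : Alt n × Fin n × Fin n =>
          mp (p.1 : Equiv.Perm (Fin n)) p.2.1 = d ∧ mp (p.1 : Equiv.Perm (Fin n)) p.2.2 = L) =
          (univ : Finset (Alt n)).biUnion fun g => ({g} : Finset (Alt n)) ×ˢ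
            (Np (g : Equiv.Perm (Fin n)) d ×ˢ Np (g : Equiv.Perm (Fin n)) L) := by
        ext ⟨g, x, y⟩
        simp only [mem_filter, mem_univ, true_and, mem_biUnion, mem_product, mem_singleton,
          mem_Np]
        constructor
        · rintro ⟨h6, h7⟩
          exact ⟨g, rfl, h6, h7⟩
        · rintro ⟨g', rfl, h6, h7⟩
          exact ⟨h6, h7⟩
      rw [h5, card_biUnion]
      · refine Finset.sum_le_sum fun g _ => ?_
        rw [card_product, card_product, card_singleton, one_mul, mul_comm]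
      · intro g _ g' _ hgg
        rw [Function.onFun, disjoint_left]
        rintro ⟨a, b⟩ h6 h7
        rw [mem_product, mem_singleton] at h6 h7
        exact hgg (h6.1.symm.trans h7.1)
    calc ∑ g : Alt n, #(Np (g : Equiv.Perm (Fin n)) L) * #(Zs (g : Equiv.Perm (Fin n)) L)
        = ∑ d ∈ L.properDivisors, ∑ g : Alt n, #(Np (g : Equiv.Perm (Fin n)) L) *
            #(Np (g : Equiv.Perm (Fin n)) d) := by
          rw [Finset.sum_comm]
          refine Finset.sum_congr rfl fun g _ => ?_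
          rw [h3, Finset.mul_sum]
      _ ≤ ∑ d ∈ L.properDivisors, n.factorial := Finset.sum_le_sum h4
  have h5 : ∑ d ∈ L.properDivisors, n.factorial ≤ (2 * Nat.sqrt L) * n.factorial := by
    rw [Finset.sum_const, smul_eq_mul]
    refine Nat.mul_le_mul_right _ ?_
    refine le_trans (card_le_card ?_) (card_divisors_le_sqrt L)
    intro d hd
    rw [Nat.mem_properDivisors] at hd
    exact Nat.mem_divisors.2 ⟨hd.1, by omega⟩
  calc #(BL n L) * (L * (n - L)) = ∑ g ∈ BL n L, L * (n - L) := by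
        rw [Finset.sum_const, smul_eq_mul]
    _ ≤ ∑ g ∈ BL n L, 2 * (#(Np (g : Equiv.Perm (Fin n)) L) *
          #(Zs (g : Equiv.Perm (Fin n)) L)) := Finset.sum_le_sum h1
    _ ≤ ∑ g : Alt n, 2 * (#(Np (g : Equiv.Perm (Fin n)) L) *
          #(Zs (g : Equiv.Perm (Fin n)) L)) :=
        Finset.sum_le_sum_of_subset (subset_univ _)
    _ = 2 * ∑ g : Alt n, (#(Np (g : Equiv.Perm (Fin n)) L) *
          #(Zs (g : Equiv.Perm (Fin n)) L)) := by rw [Finset.mul_sum]
    _ ≤ 2 * ((2 * Nat.sqrt L) * n.factorial) := Nat.mul_le_mul_left _ (h2.trans h5)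

/-- **the density** of the permutations with a power of small support -/
theorem EE_dens {m : ℕ} (hm : 64 * Nat.sqrt n ≤ m) (hmn : 2 * m + 4 ≤ n) (hm4 : 4 ≤ m) :
    m * Fintype.card (Alt n) ≤ 4 * n * #(EE n m) := by
  have hn2 : 2 ≤ n := by omega
  have hfac : n.factorial = 2 * Fintype.card (Alt n) := by
    have : Nontrivial (Fin n) := Fin.nontrivial_iff_two_le.2 hn2
    have h1 := two_mul_card_alternatingGroup (α := Fin n)
    rw [Fintype.card_perm, Fintype.card_fin] at h1
    exact h1.symm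
  set I : Finset ℕ := Icc (n - m) (n - (m - m / 2)) with hI
  have hIL : ∀ L ∈ I, n < 2 * L ∧ n ≤ L + m ∧ 2 * L + m ≤ 2 * n ∧ 1 ≤ L ∧ L + 2 ≤ n := by
    intro L hL
    rw [hI, mem_Icc] at hL
    omega
  have hterm : ∀ L ∈ I, Fintype.card (Alt n) ≤ 2 * n * #(AL n L \ BL n L) := by
    intro L hL
    obtain ⟨h1, h2, h3, h4, h5⟩ := hIL L hL
    have h6 := AL_ge h4 h5
    have h7 := BL_le (n := n) h4
    have h8 : #(AL n L \ BL n L) + #(BL n L) = #(AL n L) :=
      card_sdiff_add_card_eq_card (filter_subset _ _)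
    -- `2 n #B ≤ |A|`
    have h9 : 2 * n * #(BL n L) ≤ Fintype.card (Alt n) := by
      have h10 : Nat.sqrt L ≤ Nat.sqrt n := Nat.sqrt_le_sqrt (by omega)
      have h11 : n * m ≤ 4 * (L * (n - L)) := by
        have h12 : n ≤ 2 * L := by omega
        have h13 : m ≤ 2 * (n - L) := by omega
        calc n * m ≤ (2 * L) * (2 * (n - L)) := Nat.mul_le_mul h12 h13
          _ = _ := by ring
      have h14 : #(BL n L) * (n * m) ≤ m / 2 * Fintype.card (Alt n) := by
        calc #(BL n L) * (n * m) ≤ #(BL n L) * (4 * (L * (n - L))) := Nat.mul_le_mul_left _ h11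
          _ = 4 * (#(BL n L) * (L * (n - L))) := by ring
          _ ≤ 4 * (2 * ((2 * Nat.sqrt L) * n.factorial)) := Nat.mul_le_mul_left _ h7
          _ = (32 * Nat.sqrt L) * Fintype.card (Alt n) := by rw [hfac]; ring
          _ ≤ m / 2 * Fintype.card (Alt n) := by
              apply Nat.mul_le_mul_right
              omega
      have h15 : (2 * n * #(BL n L)) * m ≤ Fintype.card (Alt n) * m := by
        calc (2 * n * #(BL n L)) * m = 2 * (#(BL n L) * (n * m)) := by ring
          _ ≤ 2 * (m / 2 * Fintype.card (Alt n)) := Nat.mul_le_mul_left _ h14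
          _ = (2 * (m / 2)) * Fintype.card (Alt n) := by ring
          _ ≤ m * Fintype.card (Alt n) := Nat.mul_le_mul_right _ (Nat.mul_div_le m 2)
          _ = _ := mul_comm _ _
      exact Nat.le_of_mul_le_mul_right h15 (by omega)
    have h16 : 2 * Fintype.card (Alt n) ≤ 2 * n * #(AL n L \ BL n L) + 2 * n * #(BL n L) := by
      calc 2 * Fintype.card (Alt n) ≤ 2 * (n * #(AL n L)) := Nat.mul_le_mul_left _ h6
        _ = 2 * n * #(AL n L \ BL n L) + 2 * n * #(BL n L) := by rw [← h8]; ring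
    omega
  have hdisj : ∑ L ∈ I, #(AL n L \ BL n L) ≤ #(EE n m) := by
    rw [← card_biUnion]
    · refine card_le_card fun g hg => ?_
      obtain ⟨L, hL, hg'⟩ := mem_biUnion.1 hg
      obtain ⟨h1, h2, h3, -, -⟩ := hIL L hL
      exact mem_EE_of h1 h2 h3 hg'
    · intro L hL L' hL' hne
      rw [Function.onFun, disjoint_left]
      intro g hg hg'
      obtain ⟨y, hy⟩ := (mem_filter.1 (mem_sdiff.1 hg).1).2
      obtain ⟨y', hy'⟩ := (mem_filter.1 (mem_sdiff.1 hg').1).2
      have h1 := (hIL L hL).1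
      have h2 := (hIL L' hL').1
      have h3 : mp (g : Equiv.Perm (Fin n)) y ≠ mp (g : Equiv.Perm (Fin n)) y' := by
        rw [hy, hy']; exact hne
      have h4 := add_le_of_ne h3
      omega
  have hcard : m ≤ 2 * #I := by
    rw [hI, Nat.card_Icc]
    omega
  calc m * Fintype.card (Alt n) ≤ (2 * #I) * Fintype.card (Alt n) := Nat.mul_le_mul_right _ hcard
    _ = 2 * ∑ L ∈ I, Fintype.card (Alt n) := by rw [Finset.sum_const, smul_eq_mul]; ring
    _ ≤ 2 * ∑ L ∈ I, 2 * n * #(AL n L \ BL n L) :=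
        Nat.mul_le_mul_left _ (Finset.sum_le_sum hterm)
    _ = 4 * n * ∑ L ∈ I, #(AL n L \ BL n L) := by rw [← Finset.mul_sum]; ring
    _ ≤ 4 * n * #(EE n m) := Nat.mul_le_mul_left _ hdisj

end Pool.Agent.L0h8.K2
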