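import Pool.Agent.L0h8.ND.Comb

/-!
Factorization of even permutations into few conjugates of a given permutation and of its inverse.
-/

set_option autoImplicit false
set_option linter.unusedSectionVars false

namespace Pool.Agent.L0h8.K2
open Equiv Equiv.Perm Finset
open Pool.Agent.L0h8.ND (exists_perm exists_involutions rst rst_mem rst_notMem rst_inv low mem_low
  dbl dbl_inv mem_dbl image_disj card_dbl support_eq_dbl card_support_inv low_rst sign_inv'
  split_one inv_self_apply self_inv_apply)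

variable {n : ℕ}

/-- a family of permutations closed under conjugation and inversion, with members having prescribed
values on matchings of size at most `J` -/
structure Fam (Q : Perm (Fin n) → Prop) (J : ℕ) : Prop where
  conj : ∀ z, Q z → ∀ σ : Perm (Fin n), Q (σ * z * σ⁻¹)
  inv : ∀ z, Q z → Q z⁻¹
  mat : ∀ {ι : Type} [Fintype ι], Fintype.card ι ≤ J → ∀ q c : ι → Fin n,
    Function.Injective (Sum.elim q c) → ∃ z, Q z ∧ ∀ i, z (q i) = c i

/-- products of at most `K` members of the family -/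
def PQ (Q : Perm (Fin n) → Prop) (K : ℕ) (g : Perm (Fin n)) : Prop :=
  ∃ l : List (Perm (Fin n)), l.length ≤ K ∧ (∀ z ∈ l, Q z) ∧ l.prod = g

variable {Q : Perm (Fin n) → Prop}

lemma PQ.mono {K K' : ℕ} {g : Perm (Fin n)} (h : PQ Q K g) (hK : K ≤ K') : PQ Q K' g := by
  obtain ⟨l, h1, h2, h3⟩ := h
  exact ⟨l, h1.trans hK, h2, h3⟩

lemma PQ.mul {K K' : ℕ} {g g' : Perm (Fin n)} (h : PQ Q K g) (h' : PQ Q K' g') :
    PQ Q (K + K') (g * g') := by
  obtain ⟨l, h1, h2, h3⟩ := h
  obtain ⟨l', h1', h2', h3'⟩ := h'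
  refine ⟨l ++ l', by simp; omega, ?_, by simp [h3, h3']⟩
  intro z hz
  rcases List.mem_append.1 hz with hz | hz
  · exact h2 z hz
  · exact h2' z hz

/-- a block: an involution which consists of `2 r` transpositions, `2 r ≤ J`, is the product of two
members of the family -/
lemma blockQ {J r : ℕ} (h0 : Fam Q J) (hr : 2 * r ≤ J) (y : Perm (Fin n))
    (hy : y * y = 1) (hc : (low y).card = 2 * r) : PQ Q 2 y := by
  have hyy : ∀ x, y (y x) = x := fun x => by rw [← mul_apply, hy]; rfl
  obtain ⟨P1, hP1, hc1⟩ := exists_subset_card_eq (s := low y) (n := r) (by omega)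
  set P2 := low y \ P1 with hP2
  have hP2s : P2 ⊆ low y := sdiff_subset
  have hc2 : P2.card = r := by
    rw [hP2, card_sdiff_of_subset hP1]; omega
  have hdis : ∀ a ∈ P1, a ∉ P2 := fun a ha h => (mem_sdiff.1 h).2 ha
  have e1 := P1.equivFinOfCardEq hc1
  have e2 := P2.equivFinOfCardEq hc2
  let p1 : Fin r → Fin n := fun i => (e1.symm i : P1)
  let p2 : Fin r → Fin n := fun i => (e2.symm i : P2)
  have hp1 : ∀ i, p1 i ∈ P1 := fun i => (e1.symm i).2
  have hp2 : ∀ i, p2 i ∈ P2 := fun i => (e2.symm i).2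
  have hi1 : Function.Injective p1 := Subtype.val_injective.comp e1.symm.injective
  have hi2 : Function.Injective p2 := Subtype.val_injective.comp e2.symm.injective
  have hs1 : ∀ a ∈ P1, ∃ i, p1 i = a := fun a ha => ⟨e1 ⟨a, ha⟩, by simp [p1]⟩
  have hs2 : ∀ a ∈ P2, ∃ i, p2 i = a := fun a ha => ⟨e2 ⟨a, ha⟩, by simp [p2]⟩
  have hne12 : ∀ i j, p1 i ≠ p2 j := fun i j h => hdis _ (hp1 i) (h ▸ hp2 j)
  have hneL : ∀ a b : Fin n, a ∈ low y → b ∈ low y → a ≠ y b := fun a b ha hb =>
    image_disj hy subset_rfl ha hb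
  have l1 : ∀ i, p1 i ∈ low y := fun i => hP1 (hp1 i)
  have l2 : ∀ i, p2 i ∈ low y := fun i => hP2s (hp2 i)
  let q : Fin r ⊕ Fin r → Fin n := Sum.elim p1 (fun i => y (p1 i))
  let c : Fin r ⊕ Fin r → Fin n := Sum.elim p2 (fun i => y (p2 i))
  have hinj : Function.Injective (Sum.elim q c) := by
    rintro ((a | a) | (a | a)) ((b | b) | (b | b)) hab <;>
      simp only [Sum.elim_inl, Sum.elim_inr, q, c] at hab
    · rw [hi1 hab]
    · exact absurd hab (hneL _ _ (l1 a) (l1 b))
    · exact absurd hab (hne12 _ _)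
    · exact absurd hab (hneL _ _ (l1 a) (l2 b))
    · exact absurd hab.symm (hneL _ _ (l1 b) (l1 a))
    · rw [hi1 (y.injective hab)]
    · exact absurd hab.symm (hneL _ _ (l2 b) (l1 a))
    · exact absurd (y.injective hab) (hne12 _ _)
    · exact absurd hab.symm (hne12 _ _)
    · exact absurd hab (hneL _ _ (l2 a) (l1 b))
    · rw [hi2 hab]
    · exact absurd hab (hneL _ _ (l2 a) (l2 b))
    · exact absurd hab.symm (hneL _ _ (l1 b) (l2 a))
    · exact absurd (y.injective hab).symm (hne12 _ _)
    · exact absurd hab.symm (hneL _ _ (l2 b) (l2 a))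
    · rw [hi2 (y.injective hab)]
  obtain ⟨z, hz, hzm⟩ := h0.mat (by simp; omega) q c hinj
  have hz1 : ∀ i, z (p1 i) = p2 i := fun i => hzm (Sum.inl i)
  have hz2 : ∀ i, z (y (p1 i)) = y (p2 i) := fun i => hzm (Sum.inr i)
  set S1 := dbl y P1 with hS1
  set S2 := dbl y P2 with hS2
  have mS1 : ∀ x, x ∈ S1 ↔ (∃ i, x = p1 i) ∨ ∃ i, x = y (p1 i) := by
    intro x
    rw [hS1, mem_dbl hy]
    constructor
    · rintro (h | h)
      · obtain ⟨i, hi⟩ := hs1 _ h; exact Or.inl ⟨i, hi.symm⟩
      · obtain ⟨i, hi⟩ := hs1 _ h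
        exact Or.inr ⟨i, by rw [hi, hyy]⟩
    · rintro (⟨i, rfl⟩ | ⟨i, rfl⟩)
      · exact Or.inl (hp1 i)
      · right; rw [hyy]; exact hp1 i
  have mS2 : ∀ x, x ∈ S2 ↔ (∃ i, x = p2 i) ∨ ∃ i, x = y (p2 i) := by
    intro x
    rw [hS2, mem_dbl hy]
    constructor
    · rintro (h | h)
      · obtain ⟨i, hi⟩ := hs2 _ h; exact Or.inl ⟨i, hi.symm⟩
      · obtain ⟨i, hi⟩ := hs2 _ h
        exact Or.inr ⟨i, by rw [hi, hyy]⟩
    · rintro (⟨i, rfl⟩ | ⟨i, rfl⟩)
      · exact Or.inl (hp2 i)
      · right; rw [hyy]; exact hp2 i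
  have hzS : ∀ x, x ∈ S1 ↔ z x ∈ S2 := by
    intro x
    rw [mS1, mS2]
    constructor
    · rintro (⟨i, rfl⟩ | ⟨i, rfl⟩)
      · exact Or.inl ⟨i, hz1 i⟩
      · exact Or.inr ⟨i, hz2 i⟩
    · rintro (⟨i, hi⟩ | ⟨i, hi⟩)
      · rw [← hz1 i] at hi
        exact Or.inl ⟨i, z.injective hi⟩
      · rw [← hz2 i] at hi
        exact Or.inr ⟨i, z.injective hi⟩
  have hzy : ∀ x ∈ S1, z (y x) = y (z x) := by
    intro x hx
    rcases (mS1 x).1 hx with ⟨i, rfl⟩ | ⟨i, rfl⟩
    · rw [hz1, hz2]
    · rw [hyy, hz1, hz2, hyy]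
  have hS12 : ∀ x, x ∈ S1 → x ∉ S2 := by
    intro x h1 h2
    rcases (mS1 x).1 h1 with ⟨i, rfl⟩ | ⟨i, rfl⟩ <;> rcases (mS2 _).1 h2 with ⟨j, hj⟩ | ⟨j, hj⟩
    · exact hne12 _ _ hj
    · exact hneL _ _ (l1 i) (l2 j) hj
    · exact hneL _ _ (l2 j) (l1 i) hj.symm
    · exact hne12 _ _ (y.injective hj)
  have hSU : ∀ x, x ∉ S1 → x ∉ S2 → y x = x := by
    intro x h1 h2
    by_contra hne
    have h3 : x ∈ y.support := mem_support.2 hne
    rw [support_eq_dbl hy, mem_dbl hy] at h3
    rw [hS1, mem_dbl hy] at h1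
    rw [hS2, mem_dbl hy] at h2
    push Not at h1 h2
    rcases h3 with h | h
    · exact h2.1 (mem_sdiff.2 ⟨h, h1.1⟩)
    · exact h2.2 (mem_sdiff.2 ⟨h, h1.2⟩)
  have hinvS2 : ∀ x, x ∈ S2 ↔ y x ∈ S2 := dbl_inv hy P2
  have hinvS1 : ∀ x, x ∈ S1 ↔ y x ∈ S1 := dbl_inv hy P1
  set w := rst y S2 hinvS2 with hw
  have hww : w * w = 1 := rst_inv hy
  have hwi : w⁻¹ = w := inv_eq_of_mul_eq_one_left hww
  have hmain : y = z⁻¹ * (w * z * w⁻¹) := by
    rw [hwi]
    ext x
    congr 1
    simp only [mul_apply]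
    by_cases h2 : x ∈ S2
    · have e1 : w x = y x := rst_mem h2
      rw [e1]
      have h3 : y x ∉ S1 := fun h => hS12 _ h ((hinvS2 x).1 h2)
      have h4 : z (y x) ∉ S2 := fun h => h3 ((hzS _).2 h)
      rw [show w (z (y x)) = z (y x) from rst_notMem h4, inv_self_apply]
    · have e1 : w x = x := rst_notMem h2
      rw [e1]
      by_cases h1 : x ∈ S1
      · have h3 : z x ∈ S2 := (hzS x).1 h1
        rw [show w (z x) = y (z x) from rst_mem h3, ← hzy x h1, inv_self_apply]
      · have h3 : z x ∉ S2 := fun h => h1 ((hzS x).2 h)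
        rw [show w (z x) = z x from rst_notMem h3, inv_self_apply, hSU x h1 h2]
  refine ⟨[z⁻¹, w * z * w⁻¹], by simp, ?_, by simpa using hmain.symm⟩
  intro u hu
  simp only [List.mem_cons, List.not_mem_nil, or_false] at hu
  rcases hu with rfl | rfl
  · exact h0.inv _ hz
  · exact h0.conj _ hz w

/-- an involution with an even number `2 m` of transpositions -/
lemma even_invQ {J r : ℕ} (hr0 : 1 ≤ r) (h0 : Fam Q J) (hr : 2 * r ≤ J) :
    ∀ (m : ℕ) (y : Perm (Fin n)), y * y = 1 → (low y).card = 2 * m →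
      PQ Q (2 * (m / r + 1)) y := by
  intro m
  induction m using Nat.strong_induction_on with
  | _ m ih =>
    intro y hy hc
    by_cases hm : m ≤ r
    · exact (blockQ h0 (by omega) y hy hc).mono (by have := Nat.zero_le (m / r); omega)
    · push Not at hm
      obtain ⟨P, hP, hcP⟩ := exists_subset_card_eq (s := low y) (n := 2 * r) (by omega)
      set S := dbl y P with hS
      have hinv : ∀ x, x ∈ S ↔ y x ∈ S := dbl_inv hy P
      have hinvc : ∀ x, x ∈ Sᶜ ↔ y x ∈ Sᶜ := by
        intro x; rw [mem_compl, mem_compl, hinv]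
      have hlow1 : low (rst y S hinv) = P := by
        rw [low_rst]
        ext x
        rw [mem_filter, hS, mem_dbl hy]
        constructor
        · rintro ⟨h1, h2 | h2⟩
          · exact h2
          · exact absurd (mem_low.1 h1) (by
              have h3 := mem_low.1 (hP h2)
              have hyy : y (y x) = x := by rw [← mul_apply, hy]; rfl
              rw [hyy] at h3
              exact not_lt.2 h3.le)
        · intro h; exact ⟨hP h, Or.inl h⟩
      have hlow2 : low (rst y Sᶜ hinvc) = low y \ P := by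
        rw [low_rst]
        have h1 : low y \ P = (low y).filter (fun x => x ∉ P) := by
          ext x; simp [mem_sdiff]
        rw [h1]
        apply filter_congr
        intro x hx
        rw [mem_compl, not_iff_not]
        constructor
        · intro h
          have : x ∈ low (rst y S hinv) := by rw [low_rst, mem_filter]; exact ⟨hx, h⟩
          rwa [hlow1] at this
        · intro h; rw [hS, mem_dbl hy]; exact Or.inl h
      have hprod : y = rst y S hinv * rst y Sᶜ hinvc := by
        ext x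
        congr 1
        rw [mul_apply]
        by_cases hx : x ∈ S
        · rw [rst_notMem (S := Sᶜ) (by simpa using hx), rst_mem hx]
        · rw [rst_mem (S := Sᶜ) (by simpa using hx),
            rst_notMem (S := S) (fun h => hx ((hinv x).2 h))]
      have h1 : PQ Q 2 (rst y S hinv) := blockQ h0 hr _ (rst_inv hy) (by rw [hlow1, hcP])
      have h2 : PQ Q (2 * ((m - r) / r + 1)) (rst y Sᶜ hinvc) :=
        ih (m - r) (by omega) _ (rst_inv hy) (by
          rw [hlow2, card_sdiff_of_subset hP, hcP, hc]; omega)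
      have h3 := h1.mul h2
      rw [← hprod] at h3
      refine h3.mono ?_
      have h4 : m / r = (m - r) / r + 1 := Nat.div_eq_sub_div (by omega) (by omega)
      rw [h4]; ring_nf; omega

/-- a product of two disjoint transpositions is a block -/
lemma two_swapsQ {J : ℕ} (h0 : Fam Q J) (hs : 2 ≤ J) {a b c d : Fin n}
    (hab : a ≠ b) (hcd : c ≠ d) (hac : a ≠ c) (had : a ≠ d) (hbc : b ≠ c) (hbd : b ≠ d) :
    PQ Q 2 (swap a b * swap c d) := by
  have hdis : Disjoint (swap a b) (swap c d) := by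
    rw [disjoint_iff_disjoint_support, support_swap hab, support_swap hcd]
    simp [hac.symm, had.symm, hbc.symm, hbd.symm]
  have hc : swap a b * swap c d = swap c d * swap a b := hdis.commute
  have hy : (swap a b * swap c d) * (swap a b * swap c d) = 1 := by
    calc (swap a b * swap c d) * (swap a b * swap c d)
        = (swap a b * swap c d) * (swap c d * swap a b) := by rw [← hc]
      _ = swap a b * (swap c d * swap c d) * swap a b := by simp only [mul_assoc]
      _ = 1 := by rw [swap_mul_self, mul_one, swap_mul_self]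
  refine blockQ (r := 1) h0 (by omega) _ hy ?_
  have h1 := card_support_inv hy
  rw [hdis.card_support_mul, card_support_swap hab, card_support_swap hcd] at h1
  omega

/-- every even permutation is a product of few members of the family -/
theorem even_factorQ {J : ℕ} (hs : 2 ≤ J) (h0 : Fam Q J) (hn : 6 ≤ n)
    (σ : Perm (Fin n)) (hσ : sign σ = 1) : PQ Q (4 * (n / (J / 2)) + 8) σ := by
  obtain ⟨a, b, ha, hb, rfl⟩ := exists_involutions σ
  have hr0 : 1 ≤ J / 2 := by omega
  have hr : 2 * (J / 2) ≤ J := by omega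
  have hcard : ∀ y : Perm (Fin n), (low y).card ≤ n := fun y => by
    simpa using card_le_univ (low y)
  have hle : ∀ m, 2 * m ≤ n → m / (J / 2) ≤ n / (J / 2) := fun m hm =>
    Nat.div_le_div_right (by omega)
  rw [Perm.sign_mul, sign_inv' ha, sign_inv' hb] at hσ
  have hpar : Even ((low a).card + (low b).card) := by
    rw [← pow_add] at hσ
    by_contra h
    rw [Nat.not_even_iff_odd] at h
    rw [h.neg_one_pow] at hσ
    exact absurd hσ (by decide)
  rcases Nat.even_or_odd (low a).card with hev | hodd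
  · have hevb : Even (low b).card := (Nat.even_add.1 hpar).1 hev
    obtain ⟨ma, hma⟩ := hev
    obtain ⟨mb, hmb⟩ := hevb
    have h1 := even_invQ hr0 h0 hr ma a ha (by omega)
    have h2 := even_invQ hr0 h0 hr mb b hb (by omega)
    refine (h1.mul h2).mono ?_
    have := hle ma (by have := hcard a; omega)
    have := hle mb (by have := hcard b; omega)
    omega
  · have hoddb : Odd (low b).card := by
      rw [← Nat.not_even_iff_odd] at hodd ⊢
      intro h; exact hodd ((Nat.even_add.1 hpar).2 h)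
    obtain ⟨p, hp⟩ : (low a).Nonempty := by
      rw [← card_pos]; exact hodd.pos
    obtain ⟨q, hq⟩ : (low b).Nonempty := by
      rw [← card_pos]; exact hoddb.pos
    obtain ⟨ha1, ha2, ha3⟩ := split_one ha hp
    obtain ⟨hb1, hb2, hb3⟩ := split_one hb hq
    set a' := a * swap p (a p) with ha'
    set b' := b * swap q (b q) with hb'
    obtain ⟨ma, hma⟩ := hodd
    obtain ⟨mb, hmb⟩ := hoddb
    have h1 := even_invQ hr0 h0 hr ma a' ha1 (by omega)
    have h2 := even_invQ hr0 h0 hr mb b' hb1 (by omega)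
    have hpa : p ≠ a p := (mem_low.1 hp).ne
    have hqb : q ≠ b q := (mem_low.1 hq).ne
    obtain ⟨u, hu⟩ : ∃ u : Fin n, u ∉ ({p, a p, q, b q} : Finset (Fin n)) := by
      by_contra hcon
      push Not at hcon
      have h1 : (univ : Finset (Fin n)) ⊆ {p, a p, q, b q} := fun x _ => hcon x
      have h2 := card_le_card h1
      have h3 : ({p, a p, q, b q} : Finset (Fin n)).card ≤ 4 := card_le_four
      rw [card_univ, Fintype.card_fin] at h2
      omega
    obtain ⟨v, hv⟩ : ∃ v : Fin n, v ∉ (insert u {p, a p, q, b q} : Finset (Fin n)) := by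
      by_contra hcon
      push Not at hcon
      have h1 : (univ : Finset (Fin n)) ⊆ insert u {p, a p, q, b q} := fun x _ => hcon x
      have h2 := card_le_card h1
      have h3 : ({p, a p, q, b q} : Finset (Fin n)).card ≤ 4 := card_le_four
      have h4 := card_insert_le u ({p, a p, q, b q} : Finset (Fin n))
      rw [card_univ, Fintype.card_fin] at h2
      omega
    simp only [mem_insert, mem_singleton, not_or] at hu hv
    have h3 : PQ Q 2 (swap p (a p) * swap u v) :=
      two_swapsQ h0 hs hpa (Ne.symm hv.1) (Ne.symm hu.1) (Ne.symm hv.2.1) (Ne.symm hu.2.1)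
        (Ne.symm hv.2.2.1)
    have h4 : PQ Q 2 (swap u v * swap q (b q)) :=
      two_swapsQ h0 hs (Ne.symm hv.1) hqb hu.2.2.1 hu.2.2.2 hv.2.2.2.1 hv.2.2.2.2
    have h5 := ((h1.mul h3).mul h4).mul h2
    have e1 : a' * (swap p (a p) * swap u v) * (swap u v * swap q (b q)) * b' = a * b := by
      have e2 : a' * swap p (a p) = a := by rw [ha', mul_assoc, swap_mul_self, mul_one]
      have e3 : swap q (b q) * b' = b := by
        rw [← hb2, ← mul_assoc, swap_mul_self, one_mul]
      calc a' * (swap p (a p) * swap u v) * (swap u v * swap q (b q)) * b'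
          = (a' * swap p (a p)) * (swap u v * swap u v) * (swap q (b q) * b') := by
            simp only [mul_assoc]
        _ = a * b := by rw [e2, e3, swap_mul_self, mul_one]
    rw [e1] at h5
    refine h5.mono ?_
    have := hle ma (by have := hcard a; omega)
    have := hle mb (by have := hcard b; omega)
    omega

/-- the conjugates of `h` and of its inverse -/
def QH (h : Perm (Fin n)) (z : Perm (Fin n)) : Prop :=
  ∃ σ : Perm (Fin n), z = σ * h * σ⁻¹ ∨ z = σ * h⁻¹ * σ⁻¹

/-- a large set of points of the support disjoint from its image -/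
lemma exists_X (h : Perm (Fin n)) : ∃ X ⊆ h.support, (∀ a ∈ X, h a ∉ X) ∧
    h.support.card ≤ 3 * X.card := by
  classical
  set S := h.support.powerset.filter fun X => ∀ a ∈ X, h a ∉ X with hS
  have hne : S.Nonempty := ⟨∅, by simp [hS]⟩
  obtain ⟨X, hX, hmax⟩ := exists_max_image S (fun X => X.card) hne
  obtain ⟨hX1, hX2⟩ := mem_filter.1 hX
  rw [mem_powerset] at hX1
  refine ⟨X, hX1, hX2, ?_⟩
  have hsub : h.support ⊆ X ∪ X.image h ∪ X.image (h⁻¹ : Perm (Fin n)) := by
    intro a ha
    rw [mem_union, mem_union, mem_image, mem_image]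
    by_contra hcon
    push Not at hcon
    obtain ⟨⟨h1, h2⟩, h3⟩ := hcon
    have h4 : insert a X ∈ S := by
      rw [hS, mem_filter, mem_powerset]
      refine ⟨insert_subset ha hX1, ?_⟩
      intro b hb hb'
      rw [mem_insert] at hb hb'
      rcases hb with rfl | hb
      · rcases hb' with h5 | h5
        · exact (mem_support.1 ha) h5
        · exact h3 _ h5 (h.symm_apply_apply b)
      · rcases hb' with h5 | h5
        · exact h2 b hb h5
        · exact hX2 b hb h5
    have h5 := hmax _ h4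
    rw [card_insert_of_notMem h1] at h5
    omega
  calc h.support.card ≤ (X ∪ X.image h ∪ X.image (h⁻¹ : Perm (Fin n))).card := card_le_card hsub
    _ ≤ (X ∪ X.image h).card + (X.image (h⁻¹ : Perm (Fin n))).card := card_union_le _ _
    _ ≤ X.card + (X.image h).card + (X.image (h⁻¹ : Perm (Fin n))).card :=
        Nat.add_le_add_right (card_union_le _ _) _
    _ ≤ X.card + X.card + X.card := by
        have := card_image_le (s := X) (f := h)
        have := card_image_le (s := X) (f := (h⁻¹ : Perm (Fin n)))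
        omega
    _ = 3 * X.card := by ring

theorem fam_QH (h : Perm (Fin n)) {J : ℕ} (hJ : 3 * J ≤ h.support.card + 2) : Fam (QH h) J := by
  classical
  obtain ⟨X, hX1, hX2, hX3⟩ := exists_X h
  refine ⟨?_, ?_, ?_⟩
  · rintro z ⟨τ, h1 | h1⟩ σ
    · exact ⟨σ * τ, Or.inl (by rw [h1]; group)⟩
    · exact ⟨σ * τ, Or.inr (by rw [h1]; group)⟩
  · rintro z ⟨τ, h1 | h1⟩
    · exact ⟨τ, Or.inr (by rw [h1]; group)⟩
    · exact ⟨τ, Or.inl (by rw [h1]; group)⟩
  · intro ι _ hι q c hqc
    obtain ⟨e⟩ : Nonempty (ι ↪ X) := Function.Embedding.nonempty_of_card_le (by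
      rw [Fintype.card_coe]; omega)
    have hinj : Function.Injective (Sum.elim (fun i => ((e i : X) : Fin n))
        (fun i => h ((e i : X) : Fin n))) := by
      rintro (a | a) (b | b) hab
      · congr 1; exact e.injective (Subtype.ext hab)
      · exfalso
        simp only [Sum.elim_inl, Sum.elim_inr] at hab
        exact hX2 _ (e b).2 (hab ▸ (e a).2)
      · exfalso
        simp only [Sum.elim_inl, Sum.elim_inr] at hab
        exact hX2 _ (e a).2 (hab.symm ▸ (e b).2)
      · congr 1; exact e.injective (Subtype.ext (h.injective hab))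
    obtain ⟨σ, hσ⟩ := exists_perm _ _ hinj hqc
    refine ⟨σ * h * σ⁻¹, ⟨σ, Or.inl rfl⟩, fun i => ?_⟩
    have h1 : σ ((e i : X) : Fin n) = q i := hσ (Sum.inl i)
    have h2 : σ (h ((e i : X) : Fin n)) = c i := hσ (Sum.inr i)
    rw [← h1, mul_apply, mul_apply, inv_self_apply, ← h2]

end Pool.Agent.L0h8.K2
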