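import Pool.Agent.L0h8.K2.Comm
import Pool.Agent.L0h8.K2.Fact
import Pool.Agent.L0h8.K2.Dens

/-!
The deterministic part: iterated support reduction, and the factorization.
-/

set_option autoImplicit false
set_option linter.unusedSectionVars false

namespace Pool.Agent.L0h8.K2
open Finset RC14 Equiv Equiv.Perm
open Pool.Agent.L0h8.ND (ball ball_mono mul_mem_ball inv_mem_ball conj_mem_ball pow_mem_ball
  list_prod_mem_ball)

/-- iterated support reduction -/
theorem iter {n r T : ℕ} {x : Fin 2 → Alt n} (hx : GoodMix n r T x) (hn : 2 ≤ n) :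
    ∀ (t ℓ : ℕ) (A B : ℝ) (h : Alt n), h ∈ ball x ℓ → 100 ≤ A → 1 ≤ B →
      A * #(h : Perm (Fin n)).support ≤ n → (n : ℝ) ≤ B * #(h : Perm (Fin n)).support →
      (4 * B) ^ (2 ^ t) ≤ 2 * n →
      ∃ h' ∈ ball x (4 ^ t * (ℓ + 2 * T)),
        9 / 2 * (2 / 9 * A) ^ (2 ^ t) * #(h' : Perm (Fin n)).support ≤ n ∧
        4 * (n : ℝ) ≤ (4 * B) ^ (2 ^ t) * #(h' : Perm (Fin n)).support := by
  intro t
  induction t with
  | zero =>
    intro ℓ A B h hh hA hB h1 h2 _
    refine ⟨h, ball_mono (by simp) hh, ?_, ?_⟩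
    · rw [pow_zero, pow_one]
      have e : 9 / 2 * (2 / 9 * A) = A := by ring
      rw [e]
      exact h1
    · simp only [pow_zero, pow_one]
      linarith
  | succ t ih =>
    intro ℓ A B h hh hA hB h1 h2 h3
    set m : ℕ := #(h : Perm (Fin n)).support with hm
    have hn0 : (0 : ℝ) < n := by exact_mod_cast (by omega : 0 < n)
    have hm0 : (0 : ℝ) < m := by
      rcases Nat.eq_zero_or_pos m with h0 | h0
      · rw [h0, Nat.cast_zero, mul_zero] at h2; linarith
      · exact_mod_cast h0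
    have h4B : (1 : ℝ) ≤ 4 * B := by linarith
    have hsq : (4 * B) ^ 2 ≤ 2 * n := by
      refine le_trans ?_ h3
      apply pow_le_pow_right₀ h4B
      calc 2 = 2 ^ 1 := by norm_num
        _ ≤ 2 ^ (t + 1) := Nat.pow_le_pow_right (by norm_num) (by omega)
    have h100 : 100 * m ≤ n := by
      have : 100 * (m : ℝ) ≤ n := by nlinarith
      exact_mod_cast this
    have h8 : 8 * n ≤ m ^ 2 := by
      have e1 : (n : ℝ) ^ 2 ≤ B ^ 2 * m ^ 2 := by
        rw [← mul_pow]; gcongr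
      have e2 : B ^ 2 ≤ n / 8 := by nlinarith
      have e3 : (n : ℝ) ^ 2 ≤ n / 8 * m ^ 2 := e1.trans (by gcongr)
      have e4 : (8 * (n : ℝ)) * n ≤ (m : ℝ) ^ 2 * n := by nlinarith
      have e5 : 8 * (n : ℝ) ≤ (m : ℝ) ^ 2 := le_of_mul_le_mul_right e4 hn0
      exact_mod_cast e5
    obtain ⟨h', hh', hl, hu⟩ := reduce hx hh hm.symm h8 h100 hn
    set m' : ℕ := #(h' : Perm (Fin n)).support with hm'
    have f1 : (2 / 9 * A ^ 2) * m' ≤ n := by
      have e1 : A ^ 2 * (m : ℝ) ^ 2 ≤ n ^ 2 := by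
        rw [← mul_pow]
        have : 0 ≤ A * m := by positivity
        gcongr
      have e2 : (2 / 9 * A ^ 2 * m') * n ≤ n * n := by
        have e3 : A ^ 2 * (2 * n * m') ≤ A ^ 2 * (9 * m ^ 2) := by gcongr
        nlinarith
      exact le_of_mul_le_mul_right e2 hn0
    have f2 : (n : ℝ) ≤ (4 * B ^ 2) * m' := by
      have e1 : (n : ℝ) ^ 2 ≤ B ^ 2 * m ^ 2 := by
        rw [← mul_pow]; gcongr
      have e2 : (n : ℝ) * n ≤ (4 * B ^ 2 * m') * n := by
        have e3 : B ^ 2 * (m : ℝ) ^ 2 ≤ B ^ 2 * (4 * n * m') := by gcongr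
        nlinarith
      exact le_of_mul_le_mul_right e2 hn0
    have f3 : (4 * (4 * B ^ 2)) ^ (2 ^ t) = (4 * B) ^ (2 ^ (t + 1)) := by
      have : 4 * (4 * B ^ 2) = (4 * B) ^ 2 := by ring
      rw [this, ← pow_mul, pow_succ 2 t, mul_comm 2]
    have f4 : (2 / 9 * (2 / 9 * A ^ 2)) ^ (2 ^ t) = (2 / 9 * A) ^ (2 ^ (t + 1)) := by
      have : 2 / 9 * (2 / 9 * A ^ 2) = (2 / 9 * A) ^ 2 := by ring
      rw [this, ← pow_mul, pow_succ 2 t, mul_comm 2]
    obtain ⟨h'', g1, g2, g3⟩ := ih (4 * ℓ + 4 * T) (2 / 9 * A ^ 2) (4 * B ^ 2) h' hh'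
      (by nlinarith) (by nlinarith) f1 f2 (by rw [f3]; exact h3)
    refine ⟨h'', ball_mono ?_ g1, ?_, ?_⟩
    · calc 4 ^ t * (4 * ℓ + 4 * T + 2 * T) ≤ 4 ^ t * (4 * (ℓ + 2 * T)) := by
            apply Nat.mul_le_mul_left; omega
        _ = 4 ^ (t + 1) * (ℓ + 2 * T) := by ring
    · rw [f4] at g2; exact g2
    · rw [f3] at g3; exact g3

/-- conjugates by arbitrary permutations -/
lemma conj_ball {n k r T ℓ : ℕ} {x : Fin k → Alt n}
    (htr : ∀ b c : Tup r n, ∃ w ∈ ball x T, mv (w : Perm (Fin n)) b = c)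
    {h : Alt n} (hh : h ∈ ball x ℓ) (hsr : #(h : Perm (Fin n)).support ≤ r) (hrn : r ≤ n)
    (σ : Perm (Fin n)) :
    ∃ z ∈ ball x (ℓ + 2 * T), (z : Perm (Fin n)) = σ * h * σ⁻¹ := by
  obtain ⟨R, hR, hRc⟩ := exists_superset_card_eq hsr (by rw [Fintype.card_fin]; exact hrn)
  have e := R.equivFinOfCardEq hRc
  let a : Tup r n := ⟨fun i => (e.symm i : Fin n), Subtype.val_injective.comp e.symm.injective⟩
  obtain ⟨u, hu, hua⟩ := htr a (mv σ a)
  have h2 : (σ⁻¹ * (u : Perm (Fin n))).Disjoint (h : Perm (Fin n)) := by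
    intro p
    by_cases hp : p ∈ (h : Perm (Fin n)).support
    · left
      have h3 : a (e ⟨p, hR hp⟩) = p := by
        change ((e.symm (e ⟨p, hR hp⟩) : _) : Fin n) = p
        rw [Equiv.symm_apply_apply]
      have h4 := DFunLike.congr_fun hua (e ⟨p, hR hp⟩)
      rw [mv_apply, mv_apply, h3] at h4
      rw [mul_apply, h4]
      exact σ.symm_apply_apply p
    · right
      rwa [notMem_support] at hp
  have h5 := h2.commute.eq
  refine ⟨u * h * u⁻¹, conj_mem_ball hh hu, ?_⟩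
  rw [Subgroup.coe_mul, Subgroup.coe_mul, Subgroup.coe_inv]
  have h7 : (u : Perm (Fin n)) * h = σ * h * (σ⁻¹ * u) := by
    rw [mul_assoc σ, ← h5]
    group
  rw [h7]
  group

/-- the deterministic part: an element of small support and transitivity -/
theorem det3 {n k r T ℓ J : ℕ} {x : Fin k → Alt n}
    (htr : ∀ b c : Tup r n, ∃ w ∈ ball x T, mv (w : Perm (Fin n)) b = c)
    {h : Alt n} (hh : h ∈ ball x ℓ) (hsr : #(h : Perm (Fin n)).support ≤ r) (hrn : r ≤ n)
    (hJ : 3 * J ≤ #(h : Perm (Fin n)).support + 2) (hJ2 : 2 ≤ J) (hn : 6 ≤ n) (w : Alt n) :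
    w ∈ ball x ((4 * (n / (J / 2)) + 8) * (ℓ + 2 * T)) := by
  have hsig : sign (w : Perm (Fin n)) = 1 := w.2
  obtain ⟨l, hl1, hl2, hl3⟩ := even_factorQ hJ2 (fam_QH (h : Perm (Fin n)) hJ) hn
    (w : Perm (Fin n)) hsig
  have hex : ∀ z, QH (h : Perm (Fin n)) z → ∃ z' ∈ ball x (ℓ + 2 * T), (z' : Perm (Fin n)) = z := by
    rintro z ⟨σ, h1 | h1⟩
    · rw [h1]
      exact conj_ball htr hh hsr hrn σ
    · rw [h1]
      have h2 := conj_ball htr (inv_mem_ball hh) (by
        rw [Subgroup.coe_inv, support_inv]; exact hsr) hrn σ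
      rw [Subgroup.coe_inv] at h2
      exact h2
  choose! f hf1 hf2 using hex
  let l' : List (Alt n) := l.map f
  have hl' : l'.map (Subgroup.subtype (Alt n)) = l := by
    simp only [l', List.map_map]
    conv_rhs => rw [← List.map_id l]
    refine List.map_congr_left fun z hz => ?_
    exact hf2 z (hl2 z hz)
  have hw : l'.prod = w := by
    apply Subtype.ext
    rw [← hl3, ← hl', ← map_list_prod]
    rfl
  rw [← hw]
  refine list_prod_mem_ball l' (by simpa [l'] using hl1) fun z hz => ?_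
  obtain ⟨y, hy, rfl⟩ := List.mem_map.1 hz
  exact hf1 y (hl2 y hy)

end Pool.Agent.L0h8.K2
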