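import Pool.Agent.L0h8.K2.Weights
import Pool.Agent.R236.DenB

/-!
The expected number of tuples on which two positive words agree.
-/

set_option autoImplicit false
set_option linter.unusedSectionVars false
set_option linter.unusedVariables false

namespace Pool.Agent.L0h8.K2
open Finset

/-- the next time -/
def nx {L : ℕ} (t : Fin L) : Fin L := ⟨(t + 1) % L, Nat.mod_lt _ (by have := t.2; omega)⟩

/-- the edges of a trajectory -/
def edgF {n k : ℕ} {ι : Type*} [Fintype ι] {L : ℕ} (s : ℕ → Ltr k) (F : ι → Fin L → Fin n) :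
    Finset (Fin k × Fin n × Fin n) :=
  (univ : Finset (ι × Fin L)).image fun p => ed (s p.2) (F p.1 p.2) (F p.1 (nx p.2))

lemma card_edgF {n k : ℕ} {ι : Type*} [Fintype ι] {L : ℕ} (s : ℕ → Ltr k)
    (F : ι → Fin L → Fin n) : #(edgF s F) ≤ Fintype.card ι * L := by
  refine card_image_le.trans ?_
  rw [card_univ, Fintype.card_prod, Fintype.card_fin]

namespace Cl
variable {n k : ℕ} {ι : Type*} {L : ℕ} (W : Cl n k ι L) [Fintype ι] [DecidableEq ι]

lemma rev_eq_edgF : W.rev L = edgF W.s W.F := by
  ext c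
  rw [mem_rev, edgF, mem_image]
  constructor
  · rintro ⟨i, t, ht, h⟩
    refine ⟨(i, ⟨t, ht⟩), mem_univ _, ?_⟩
    rw [← h]
    unfold e F nx
    simp only
    rw [W.V_mod]
  · rintro ⟨⟨i, t⟩, -, h⟩
    refine ⟨i, t, t.2, ?_⟩
    rw [← h]
    unfold e F nx
    simp only
    rw [W.V_mod]

lemma restr_touch' {S : Finset ι} (hS : W.tch = S) (i : S) :
    ∃ t, (W.restr S).V i t ∈ (W.restr S).B := by
  subst hS
  exact W.restr_touch i

end Cl

section
variable {n : ℕ} {j r : ℕ} {u v : Fin j → Fin 2}

lemma card_rev_split' {ι : Type*} [Fintype ι] [DecidableEq ι] (W : Cl n 2 ι (2 * j))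
    (hs : W.s = wd u v) (h0 : gt u 0 ≠ gt v 0) {S : Finset ι} (hS : W.tch = S) :
    #(W.rev (2 * j)) = #((W.restr S).rev (2 * j)) + (Fintype.card ι - #S) * (2 * j) := by
  subst hS
  exact W.card_rev_split hs h0

/-- the sum over the sets of walkers -/
lemma sum_sets (r : ℕ) (y M : ℝ) (hy : 0 ≤ y) (hM : 0 < M)
    (hyM : 2 * Real.exp 2 * (r * y) ≤ M) :
    ∑ S ∈ (univ : Finset (Fin r)).powerset, Real.exp #S * (#S * y / M) ^ (#S + 1) ≤
      2 * (r * y / M) := by
  rw [sum_powerset_apply_card (fun K => Real.exp K * (K * y / M) ^ (K + 1)), card_univ,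
    Fintype.card_fin]
  set x : ℝ := Real.exp 2 * (r * y / M) with hx
  have hx0 : 0 ≤ x := by positivity
  have hx1 : x ≤ 1 / 2 := by
    rw [hx, mul_div_assoc', div_le_div_iff₀ hM (by norm_num)]
    linarith
  have hterm : ∀ K ∈ range (r + 1), (r.choose K) • (Real.exp K * (K * y / M) ^ (K + 1)) ≤
      (r * y / M) * x ^ K := by
    intro K hK
    rw [mem_range] at hK
    have hKr : (K : ℝ) ≤ r := by
      have : K ≤ r := by omega
      exact_mod_cast this
    rw [nsmul_eq_mul]
    have h1 : (r.choose K : ℝ) * (K : ℝ) ^ K ≤ (Real.exp 1 * r) ^ K := by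
      have h2 := Nat.choose_le_pow_div (α := ℝ) K r
      have h3 := Real.pow_div_factorial_le_exp (x := (K : ℝ)) (Nat.cast_nonneg _) K
      have h4 : (0 : ℝ) < (K.factorial : ℝ) := by exact_mod_cast K.factorial_pos
      calc (r.choose K : ℝ) * (K : ℝ) ^ K ≤ ((r : ℝ) ^ K / K.factorial) * (K : ℝ) ^ K := by
            gcongr
        _ = (r : ℝ) ^ K * ((K : ℝ) ^ K / K.factorial) := by ring
        _ ≤ (r : ℝ) ^ K * Real.exp K := by gcongr
        _ = (Real.exp 1 * r) ^ K := by
            rw [mul_pow, ← Real.exp_nat_mul, mul_one]; ring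
    calc (r.choose K : ℝ) * (Real.exp K * (K * y / M) ^ (K + 1))
        = ((r.choose K : ℝ) * (K : ℝ) ^ K) * (Real.exp K * (y / M) ^ K * (K * y / M)) := by
          rw [pow_succ]
          have : (K * y / M : ℝ) ^ K = (K : ℝ) ^ K * (y / M) ^ K := by
            rw [← mul_pow]; congr 1; ring
          rw [this]; ring
      _ ≤ (Real.exp 1 * r) ^ K * (Real.exp K * (y / M) ^ K * (r * y / M)) := by gcongr
      _ = (r * y / M) * x ^ K := by
          have h5 : Real.exp K = Real.exp 1 ^ K := by rw [← Real.exp_nat_mul, mul_one]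
          have h6 : Real.exp 2 = Real.exp 1 * Real.exp 1 := by
            rw [← Real.exp_add]; norm_num
          rw [h5, hx, h6]
          have : Real.exp 1 * Real.exp 1 * (r * y / M) =
              (Real.exp 1 * r) * Real.exp 1 * (y / M) := by ring
          rw [this]
          have h7 : (Real.exp 1 * r * Real.exp 1 * (y / M)) ^ K =
              (Real.exp 1 * r) ^ K * Real.exp 1 ^ K * (y / M) ^ K := by
            rw [mul_pow, mul_pow]
          rw [h7]
          ring
  refine (sum_le_sum hterm).trans ?_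
  rw [← mul_sum, mul_comm 2]
  refine mul_le_mul_of_nonneg_left ?_ (by positivity)
  calc ∑ K ∈ range (r + 1), x ^ K ≤ ∑ K ∈ range (r + 1), (1 / 2 : ℝ) ^ K :=
        sum_le_sum fun K _ => by gcongr
    _ ≤ 2 := by
        rw [geom_sum_eq (by norm_num)]
        have : (0 : ℝ) ≤ (1 / 2) ^ (r + 1) := by positivity
        have e : ((1 / 2 : ℝ) ^ (r + 1) - 1) / (1 / 2 - 1) = 2 - 2 * (1 / 2) ^ (r + 1) := by
          field_simp
          ring
        rw [e]
        linarith

/-- **all trajectories** -/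
theorem sum_all (hj : 1 ≤ j) (h0 : gt u 0 ≠ gt v 0)
    (hgood : ∀ S : Finset (Fin r), S.Nonempty → ∀ W : Cl n 2 S (2 * j), W.s = wd u v →
      (∀ i, ∃ t, W.V i t ∈ W.B) → #S < 6 * W.ex)
    (T : Finset (Fin r → Fin (2 * j) → Fin n))
    (hT : ∀ F ∈ T, ∃ W : Cl n 2 (Fin r) (2 * j), W.s = wd u v ∧ W.F = F)
    (N : ℕ) (q M : ℝ) (hN : r * (2 * j) ≤ N) (hq : 0 < q) (hnq : 1 ≤ n * q)
    (hM0 : 0 < M)
    (hM : q * M ^ 7 ≤ 1) (hNM : 2 * Real.exp 2 * (r * ((2 * j : ℕ) : ℝ) ^ 2) ≤ M) :
    ∑ F ∈ T, q ^ #(edgF (wd u v) F) ≤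
      (n * q) ^ N * (1 + (n * q) ^ N * (2 * (r * ((2 * j : ℕ) : ℝ) ^ 2 / M))) := by
  classical
  set y : ℝ := ((2 * j : ℕ) : ℝ) ^ 2 with hy
  have hy0 : 0 ≤ y := by positivity
  have hryM : (r : ℝ) * y ≤ M := by
    have h1 : (1 : ℝ) ≤ 2 * Real.exp 2 := by
      have := Real.add_one_le_exp (2 : ℝ)
      linarith
    have h2 : 0 ≤ (r : ℝ) * y := by positivity
    nlinarith
  rw [← sum_attach]
  have hex : ∀ F : T, ∃ W : Cl n 2 (Fin r) (2 * j), W.s = wd u v ∧ W.F = F.1 :=
    fun F => hT F.1 F.2
  choose W hWs hWF using hex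
  have hmaps : ∀ F ∈ T.attach, (W F).tch ∈ (univ : Finset (Fin r)).powerset := fun F _ =>
    mem_powerset.2 (subset_univ _)
  rw [← sum_fiberwise_of_maps_to hmaps]
  have hL : 0 < 2 * j := by omega
  -- the bound for one set of walkers
  have hinner : ∀ S ∈ (univ : Finset (Fin r)).powerset,
      ∑ F ∈ T.attach.filter (fun F => (W F).tch = S), q ^ #(edgF (wd u v) F.1) ≤
        (n * q) ^ N * ((if S = ∅ then 1 else 0) + (n * q) ^ N *
          (Real.exp #S * (#S * y / M) ^ (#S + 1))) := by
    intro S _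
    set TS : Finset (S → Fin (2 * j) → Fin n) :=
      (T.attach.filter (fun F => (W F).tch = S)).image (fun F => fun i => F.1 i) with hTS
    set G : Finset ({i // i ∉ S} → Fin (2 * j) → Fin n) := univ with hG
    have hcG : (#G : ℝ) = (n : ℝ) ^ ((r - #S) * (2 * j)) := by
      rw [hG, card_univ, Fintype.card_fun, Fintype.card_fun, Fintype.card_fin, Fintype.card_fin]
      have : Fintype.card {i // i ∉ S} = r - #S := by
        rw [Fintype.card_subtype_compl (fun i => i ∈ S), Fintype.card_fin]
        simp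
      rw [this, ← pow_mul, mul_comm (2 * j)]
      push_cast
      rfl
    have hsplit : ∀ F ∈ T.attach.filter (fun F => (W F).tch = S),
        q ^ #(edgF (wd u v) F.1) = q ^ ((r - #S) * (2 * j)) *
          q ^ #(edgF (wd u v) (fun i : S => F.1 i)) := by
      intro F hF
      rw [mem_filter] at hF
      have h1 := card_rev_split' (W F) (hWs F) h0 hF.2
      have h2 := (W F).rev_eq_edgF
      have h3 := ((W F).restr S).rev_eq_edgF
      rw [hWs F, hWF F] at h2
      have h4 : ((W F).restr S).F = fun i : S => F.1 i := by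
        rw [← hWF F]; rfl
      have h5 : ((W F).restr S).s = wd u v := hWs F
      rw [h4, h5] at h3
      rw [h2, h3, Fintype.card_fin] at h1
      rw [h1, pow_add, mul_comm]
    rw [sum_congr rfl hsplit, ← mul_sum]
    -- injection
    have hinj : ∑ F ∈ T.attach.filter (fun F => (W F).tch = S),
        q ^ #(edgF (wd u v) (fun i : S => F.1 i)) ≤
        ∑ p ∈ TS ×ˢ G, q ^ #(edgF (wd u v) p.1) := by
      have h1 : ∀ F ∈ T.attach.filter (fun F => (W F).tch = S),
          ((fun i : S => F.1 i, fun i : {i // i ∉ S} => F.1 i) :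
            (S → Fin (2 * j) → Fin n) × ({i // i ∉ S} → Fin (2 * j) → Fin n)) ∈ TS ×ˢ G := by
        intro F hF
        rw [mem_product]
        exact ⟨mem_image_of_mem (fun F : T => fun i : S => F.1 i) hF, mem_univ _⟩
      rw [← sum_image (f := fun p : (S → Fin (2 * j) → Fin n) ×
        ({i // i ∉ S} → Fin (2 * j) → Fin n) => q ^ #(edgF (wd u v) p.1))
        (g := fun F : T => ((fun i : S => F.1 i, fun i : {i // i ∉ S} => F.1 i) :
            (S → Fin (2 * j) → Fin n) × ({i // i ∉ S} → Fin (2 * j) → Fin n)))]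
      · refine sum_le_sum_of_subset_of_nonneg ?_ fun _ _ _ => by positivity
        intro p hp
        rw [mem_image] at hp
        obtain ⟨F, hF, rfl⟩ := hp
        exact h1 F hF
      · intro F _ F' _ h
        simp only [Prod.mk.injEq] at h
        apply Subtype.ext
        funext i
        by_cases hi : i ∈ S
        · exact congrFun h.1 ⟨i, hi⟩
        · exact congrFun h.2 ⟨i, hi⟩
    have hTSw : ∑ f ∈ TS, q ^ #(edgF (wd u v) f) ≤
        (if S = ∅ then 1 else 0) + (n * q) ^ N * (Real.exp #S * (#S * y / M) ^ (#S + 1)) := by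
      rcases S.eq_empty_or_nonempty with hS | hS
      · rw [if_pos hS]
        have h1 : ∀ f ∈ TS, q ^ #(edgF (wd u v) f) = 1 := by
          intro f _
          have : edgF (wd u v) f = ∅ := by
            rw [edgF, image_eq_empty, univ_eq_empty_iff]
            exact ⟨fun p => eq_empty_iff_forall_notMem.1 hS _ p.1.2⟩
          rw [this, card_empty, pow_zero]
        rw [sum_congr rfl h1, sum_const, nsmul_eq_mul, mul_one]
        have h2 : #TS ≤ 1 := by
          rw [card_le_one]
          intro f _ g _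
          funext i
          exact absurd i.2 (eq_empty_iff_forall_notMem.1 hS _)
        have h3 : (#TS : ℝ) ≤ 1 := by exact_mod_cast h2
        have h4 : 0 ≤ (n * q) ^ N * (Real.exp #S * (#S * y / M) ^ (#S + 1)) := by positivity
        linarith
      · rw [if_neg hS.ne_empty, zero_add]
        have hcS : #S ≤ r := by
          have := card_le_univ S
          rwa [Fintype.card_fin] at this
        have key := sum_weights (n := n) (k := 2) (ι := S) (L := 2 * j) (wd u v) TS
          (fun f => #(edgF (wd u v) f)) N q M (by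
            intro f hf
            rw [hTS, mem_image] at hf
            obtain ⟨F, hF, rfl⟩ := hf
            rw [mem_filter] at hF
            refine ⟨(W F).restr S, hWs F, ?_, ?_, ?_⟩
            · rw [← hWF F]; rfl
            · rw [((W F).restr S).rev_eq_edgF]
              have h4 : ((W F).restr S).F = fun i : S => F.1 i := by
                rw [← hWF F]; rfl
              have h5 : ((W F).restr S).s = wd u v := hWs F
              rw [h4, h5]
            · rw [Fintype.card_coe]
              exact hgood S hS _ (hWs F) fun i => (W F).restr_touch' hF.2 i)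
          (by rw [Fintype.card_coe]; exact (Nat.mul_le_mul_right _ hcS).trans hN) hL
          (by rw [Fintype.card_coe]; exact hS.card_pos) hq hnq hM
          (by
            rw [Fintype.card_coe]
            refine le_trans ?_ hryM
            have : (#S : ℝ) ≤ r := by exact_mod_cast hcS
            gcongr)
        rw [Fintype.card_coe] at key
        exact key
    have hp : ∑ p ∈ TS ×ˢ G, q ^ #(edgF (wd u v) p.1) =
        (#G : ℝ) * ∑ f ∈ TS, q ^ #(edgF (wd u v) f) := by
      rw [sum_product, mul_sum]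
      refine sum_congr rfl fun f _ => ?_
      simp only
      rw [sum_const, nsmul_eq_mul]
    have hpos : 0 ≤ (if S = ∅ then (1 : ℝ) else 0) +
        (n * q) ^ N * (Real.exp #S * (#S * y / M) ^ (#S + 1)) := by
      have : (0 : ℝ) ≤ if S = ∅ then (1 : ℝ) else 0 := by split_ifs <;> norm_num
      positivity
    calc q ^ ((r - #S) * (2 * j)) * ∑ F ∈ T.attach.filter (fun F => (W F).tch = S),
          q ^ #(edgF (wd u v) (fun i : S => F.1 i))
        ≤ q ^ ((r - #S) * (2 * j)) * ((#G : ℝ) * ∑ f ∈ TS, q ^ #(edgF (wd u v) f)) := by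
          rw [← hp]
          exact mul_le_mul_of_nonneg_left hinj (by positivity)
      _ ≤ q ^ ((r - #S) * (2 * j)) * ((n : ℝ) ^ ((r - #S) * (2 * j)) *
          ((if S = ∅ then 1 else 0) + (n * q) ^ N * (Real.exp #S * (#S * y / M) ^ (#S + 1)))) := by
          rw [hcG]; gcongr
      _ = (n * q) ^ ((r - #S) * (2 * j)) *
          ((if S = ∅ then 1 else 0) + (n * q) ^ N * (Real.exp #S * (#S * y / M) ^ (#S + 1))) := by
          rw [mul_pow]; ring
      _ ≤ _ := by
          refine mul_le_mul_of_nonneg_right ?_ hpos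
          apply pow_le_pow_right₀ hnq
          exact (Nat.mul_le_mul_right _ (Nat.sub_le _ _)).trans hN
  refine (sum_le_sum hinner).trans ?_
  rw [← mul_sum]
  refine mul_le_mul_of_nonneg_left ?_ (by positivity)
  rw [sum_add_distrib, ← mul_sum]
  have h1 : ∑ S ∈ (univ : Finset (Fin r)).powerset, (if S = ∅ then (1 : ℝ) else 0) = 1 := by
    rw [sum_ite_eq' _ _ (fun _ => (1 : ℝ))]
    simp
  rw [h1]
  have h2 := sum_sets r y M hy0 hM0 hNM
  have h3 : (n * q) ^ N * ∑ S ∈ (univ : Finset (Fin r)).powerset,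
      Real.exp #S * (#S * y / M) ^ (#S + 1) ≤ (n * q) ^ N * (2 * (r * y / M)) := by gcongr
  linarith [h3]

end

end Pool.Agent.L0h8.K2
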