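import Pool.Agent.L0h8.SK.Hit
import Pool.Agent.L0h8.SK.Num2

/-!
Correlations of class functions along the powers of one even permutation; hitting normal sets by
the words `x₀ x₁^i`.
-/

set_option autoImplicit false
set_option linter.unusedSectionVars false

namespace Pool.Agent.L0h8.K2
open RC14 Finset
open Pool.Agent.R236.Den (PX PX_symm FewFixK low_char exists_min)
open Pool.Agent.L0h8.ND (lz wk rmul toFA toFA_apply norm_toFA TL_toFA LT LT_apply
  LT_comm_pow class_RR TL_res_pow avg_le pow_symm)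
open Pool.Agent.L0h8.SK (low_char2 avg_sum rM few_pow)
open scoped InnerProductSpace

noncomputable section

section Irrep
variable {V : Type*} [NormedAddCommGroup V] [InnerProductSpace ℂ V]
variable [FiniteDimensional ℂ V]

/-- characters of the nontrivial irreducible representations -/
theorem char1 (n N F I J0 : ℕ) (κ : ℝ) (hN : 100 ≤ N) (hNn : 2 * (12096 * N) ≤ n)
    (hn : 1000 ≤ n) (hF : 2 * F ≤ n) (hI : 1 ≤ I) (hJF : J0 ≤ F)
    (hJI : n * J0 ^ (I + 1) ≤ F ^ (I + 1)) (hb1 : 2 * Real.exp 4 * F / n ≤ 1)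
    (hκ1 : 2 * Real.exp 4 * F / n ≤ κ)
    (hκ2 : ∀ j, N * j ≤ n → bb j J0 n F ^ J0 ≤ κ)
    (hκ3 : Real.exp (-(1 / (2 * 336 * 12096 * (N : ℝ) ^ 2) * n)) ≤ κ)
    (ρ : Alt n →* (V ≃ₗᵢ[ℂ] V)) (hirr : Irr ρ ⊤) (hnt : ∃ g v, ρ g v ≠ v)
    (g : Alt n) (hg : ∀ i, 1 ≤ i → i ≤ I → nfix ((g : Equiv.Perm (Fin n)) ^ i) ≤ F) :
    ‖chr ρ g‖ ≤ κ * Module.finrank ℂ V := by
  classical
  have hd : (0 : ℝ) ≤ Module.finrank ℂ V := Nat.cast_nonneg _
  have hg1 : nfix (g : Equiv.Perm (Fin n)) ≤ F := by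
    have := hg 1 le_rfl hI
    rwa [pow_one] at this
  have hκ0 : 0 ≤ κ := le_trans (Real.exp_pos _).le hκ3
  by_cases hno : ∀ K : Finset (Fin n), N * K.card ≤ n → ∀ v : V,
      (∀ h : Alt n, (∀ a ∈ K, (h : Equiv.Perm (Fin n)) a = a) → ρ h v = v) → v = 0
  · have hm' : 36 * (n / (12096 * N)) ≤ n := by
      calc 36 * (n / (12096 * N)) ≤ (12096 * N) * (n / (12096 * N)) :=
            Nat.mul_le_mul_right _ (by omega)
        _ ≤ n := Nat.mul_div_le _ _
    have key := LL14.HIGHN N hN n hn ρ hirr hno g (by omega) (n / (12096 * N)) hm'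
    refine (pow_le_pow_iff_left₀ (norm_nonneg _) (by positivity) two_ne_zero).mp
      (key.trans ?_)
    rw [mul_pow]
    refine mul_le_mul_of_nonneg_right ((LL14.HCHARx.num N n hN hNn).trans ?_) (by positivity)
    exact pow_le_pow_left₀ (Real.exp_pos _).le hκ3 2
  · push Not at hno
    obtain ⟨K, hK, v0, hinv, hv0⟩ := hno
    obtain ⟨j, hj1, hjK, κ', v, hv, hκ', hmin⟩ := exists_min ρ hirr hnt K v0 hv0 hinv
    have hNj : N * j ≤ n := (Nat.mul_le_mul_left N hjK).trans hK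
    have h100 : 100 * j ≤ n := (Nat.mul_le_mul_right j hN).trans hNj
    have h2j : 2 * j + 2 ≤ n := by omega
    by_cases hjJ : j ≤ J0
    · have h1 := low_char2 hj1 h2j (hjJ.trans hJF)
        ((Nat.mul_le_mul_left n (Nat.pow_le_pow_left hjJ _)).trans hJI) κ' ρ hirr v hv hκ' hmin g hg
      refine h1.trans (mul_le_mul_of_nonneg_right ?_ hd)
      refine le_trans ?_ hκ1
      have h2 := pow_le_pow_of_le_one (show (0 : ℝ) ≤ 2 * Real.exp 4 * F / n by positivity) hb1 hj1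
      rwa [pow_one] at h2
    · obtain ⟨-, hch⟩ := low_char h2j κ' ρ hirr v hv hκ' hmin
      refine (hch J0 F (by omega) g hg1).trans ?_
      exact mul_le_mul_of_nonneg_right (hκ2 j hNj) hd

/-- the trace of the lazy walk with one generator -/
lemma rtr_TL_one {G : Type*} [Group G] (ρ : G →* (V ≃ₗᵢ[ℂ] V)) (z : G) (κ : ℝ)
    (h1 : ‖chr ρ z‖ ≤ κ * Module.finrank ℂ V) (h2 : ‖chr ρ z⁻¹‖ ≤ κ * Module.finrank ℂ V) :
    rtr (TL ρ (fun _ : Fin 1 => z) ^ 1) ≤ (1 + κ) / 2 * Module.finrank ℂ V := by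
  have e : LinearMap.trace ℂ V (TL ρ (fun _ : Fin 1 => z) ^ 1) =
      ((1 / 2 : ℝ) : ℂ) * (((Module.finrank ℂ V : ℝ) : ℂ) + ((1 / 2 : ℝ) : ℂ) *
        (chr ρ z + chr ρ z⁻¹)) := by
    rw [pow_one, TL, map_smul, map_add, map_smul, LinearMap.trace_one, map_sum]
    simp only [Fintype.card_fin, Nat.cast_one, Finset.univ_unique, Finset.sum_singleton, map_add,
      smul_eq_mul, chr]
    push_cast
    ring
  unfold rtr
  rw [e, Complex.re_ofReal_mul, Complex.add_re, Complex.ofReal_re, Complex.re_ofReal_mul,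
    Complex.add_re]
  have h3 := (Complex.re_le_norm (chr ρ z)).trans h1
  have h4 := (Complex.re_le_norm (chr ρ z⁻¹)).trans h2
  linarith

end Irrep

/-- **correlations of class functions** -/
theorem corr_le {n : ℕ} (z : Alt n) (κ : ℝ)
    (hκ : ∀ (W : Submodule ℂ (HH 0 n)) (hW : Irr (V := HH 0 n) (rM (HH 0 n) (HH_inv 0 n)) W),
      RtL (V := HH 0 n) (rM (HH 0 n) (HH_inv 0 n)) W hW.2.1 (fun _ : Fin 1 => z) 1 ≤
        (1 + κ) / 2 * Module.finrank ℂ W)
    (f : Alt n → ℝ) (hf : ∀ g h, f (h * g * h⁻¹) = f g) (h0 : ∑ g, f g = 0) :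
    ∑ g, f g * f (g * z) ≤ κ * ∑ g, f g ^ 2 := by
  set y : Fin 1 → Alt n := fun _ => z with hy
  have hmem : toFA f ∈ HH 0 n := by
    intro j hj κ
    ext a
    change (∑ g : Alt n, if mv (g : Equiv.Perm (Fin n))⁻¹ κ = a then toFA f g else 0) = 0
    obtain rfl : j = 0 := by omega
    have h2 : ∀ g : Alt n, mv (g : Equiv.Perm (Fin n))⁻¹ κ = a := fun g => Subsingleton.elim _ _
    simp only [h2, if_true, toFA_apply]
    rw [← Complex.ofReal_sum, h0, Complex.ofReal_zero]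
  set ρ0 : Alt n →* (HH 0 n ≃ₗᵢ[ℂ] HH 0 n) := rM (HH 0 n) (HH_inv 0 n) with hρ0
  set F0 : HH 0 n := ⟨toFA f, hmem⟩ with hF0
  have key := avg_sum ρ0 y 1 ((1 + κ) / 2) hκ F0
  have hG : (0 : ℝ) < Fintype.card (Alt n) := by exact_mod_cast Fintype.card_pos
  have hnF : ‖F0‖ ^ 2 = ∑ g, f g ^ 2 := by
    rw [Submodule.coe_norm]; exact norm_toFA f
  have hinner : ∀ (g : Alt n) (v w : FA n), ⟪RR n g v, w⟫_ℂ = ⟪v, RR n g⁻¹ w⟫_ℂ := by
    intro g v w
    have h2 : w = RR n g (RR n g⁻¹ w) := by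
      rw [map_inv]
      exact ((RR n g).apply_symm_apply w).symm
    conv_lhs => rw [h2]
    exact (RR n g).inner_map_map _ _
  have e1 : ∀ z : Alt n, ⟪cj ρ0 (TL ρ0 y ^ 1) z F0, F0⟫_ℂ =
      ⟪(TL (RR n) y ^ 1) (toFA f), toFA f⟫_ℂ := by
    intro z
    rw [Submodule.coe_inner]
    have h1 : ((cj ρ0 (TL ρ0 y ^ 1) z F0 : HH 0 n) : FA n) =
        RR n z (LT n z ((TL (RR n) y ^ 1) (toFA f))) := by
      simp only [cj, Module.End.mul_apply, op_apply]
      rw [hρ0]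
      unfold rM
      rw [res_apply, TL_res_pow, res_apply]
      change RR n z ((TL (RR n) y ^ 1) (RR n z⁻¹ (toFA f))) = _
      rw [class_RR f hf z, LT_comm_pow]
    rw [h1, hinner]
    change ⟪_, RR n z⁻¹ (toFA f)⟫_ℂ = _
    rw [class_RR f hf z]
    exact (LT n z).inner_map_map _ _
  have hsh : ∑ g, f g * f (g * z⁻¹) = ∑ g, f g * f (g * z) := by
    rw [← Equiv.sum_comp (Equiv.mulRight z) (fun g => f g * f (g * z⁻¹))]
    refine Finset.sum_congr rfl fun g _ => ?_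
    simp only [Equiv.coe_mulRight]
    rw [mul_inv_cancel_right, mul_comm]
  have e2 : (⟪(TL (RR n) y ^ 1) (toFA f), toFA f⟫_ℂ).re =
      (∑ g, f g ^ 2 + ∑ g, f g * f (g * z)) / 2 := by
    have h3 := TL_energy (RR n) le_rfl y (toFA f)
    rw [pow_one]
    have h4 : En (RR n) y (toFA f) = 2 * ∑ g, f g ^ 2 - 2 * ∑ g, f g * f (g * z) := by
      unfold En
      simp only [Finset.univ_unique, Finset.sum_singleton, hy]
      rw [EuclideanSpace.norm_sq_eq]
      have h5 : ∀ g : Alt n, ‖(RR n z (toFA f) - toFA f) g‖ ^ 2 =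
          f (g * z) ^ 2 + f g ^ 2 - 2 * (f g * f (g * z)) := by
        intro g
        rw [PiLp.sub_apply, RR_apply, toFA_apply, toFA_apply, ← Complex.ofReal_sub,
          Complex.norm_real, Real.norm_eq_abs, sq_abs]
        ring
      rw [Finset.sum_congr rfl fun g _ => h5 g, Finset.sum_sub_distrib, Finset.sum_add_distrib,
        ← Finset.mul_sum]
      have h6 : ∑ g, f (g * z) ^ 2 = ∑ g, f g ^ 2 :=
        Equiv.sum_comp (Equiv.mulRight z) (fun g => f g ^ 2)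
      rw [h6]; ring
    rw [h4, norm_toFA] at h3
    push_cast at h3
    linarith
  rw [Finset.sum_congr rfl fun z _ => by rw [e1 z, e2], Finset.sum_const,
    Finset.card_univ, nsmul_eq_mul, hnF, mul_assoc] at key
  have := le_of_mul_le_mul_left key hG
  linarith

/-- the trace of the lazy walk with one generator, in an irreducible subspace -/
theorem irr_trace1 {V : Type*} [NormedAddCommGroup V] [InnerProductSpace ℂ V]
    [FiniteDimensional ℂ V] {n : ℕ} (N F I J0 ℓ : ℕ) (κ : ℝ) (hN : 100 ≤ N)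
    (hNn : 2 * (12096 * N) ≤ n)
    (hn : 1000 ≤ n) (hF : 2 * F ≤ n) (hI : 1 ≤ I) (hJF : J0 ≤ F)
    (hJI : n * J0 ^ (I + 1) ≤ F ^ (I + 1)) (hb1 : 2 * Real.exp 4 * F / n ≤ 1)
    (hκ1 : 2 * Real.exp 4 * F / n ≤ κ)
    (hκ2 : ∀ j, N * j ≤ n → bb j J0 n F ^ J0 ≤ κ)
    (hκ3 : Real.exp (-(1 / (2 * 336 * 12096 * (N : ℝ) ^ 2) * n)) ≤ κ)
    (y : Alt n) (hy : FewFixK n ℓ F (fun _ : Fin 1 => (y : Equiv.Perm (Fin n)))) (m : ℕ)
    (hm : 1 ≤ m) (hmℓ : I * m ≤ ℓ)
    (ρ : Alt n →* (V ≃ₗᵢ[ℂ] V)) (W : Submodule ℂ V) (hW : Irr ρ W)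
    (hno : ∀ v ∈ W, (∀ h : Alt n, ρ h v = v) → v = 0) :
    RtL ρ W hW.2.1 (fun _ : Fin 1 => y ^ m) 1 ≤ (1 + κ) / 2 * Module.finrank ℂ W := by
  have hirr := AMP1.irr_res ρ W hW
  have hnt : ∃ g v, res ρ W hW.2.1 g v ≠ v := by
    by_contra hcon
    push Not at hcon
    apply hW.1
    rw [Submodule.eq_bot_iff]
    intro v hv
    refine hno v hv fun h => ?_
    exact congrArg (fun z : W => (z : V)) (hcon h ⟨v, hv⟩)
  have hu1 : (FreeGroup.of (0 : Fin 1)) ^ m ≠ 1 := by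
    intro h
    have h1 := (pow_eq_one_iff_left (by omega : m ≠ 0)).1 h
    exact FreeGroup.of_ne_one _ h1
  have hn1 : ((FreeGroup.of (0 : Fin 1)) ^ m).norm ≤ m := by
    refine (Pool.Agent.L0h8.SK.norm_pow_le _ m).trans ?_
    rw [FreeGroup.norm_of, mul_one]
  have hl1 : FreeGroup.lift (fun _ : Fin 1 => y) ((FreeGroup.of (0 : Fin 1)) ^ m) = y ^ m := by
    rw [map_pow, FreeGroup.lift_apply_of]
  have hb : ∀ u : FreeGroup (Fin 1), u ≠ 1 → u.norm ≤ m →
      ‖chr (res ρ W hW.2.1) (FreeGroup.lift (fun _ : Fin 1 => y) u)‖ ≤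
        κ * Module.finrank ℂ W := fun u hu hul =>
    char1 n N F I J0 κ hN hNn hn hF hI hJF hJI hb1 hκ1 hκ2 hκ3 _ hirr hnt _
      fun i hi1 hi => few_pow (x := fun _ : Fin 1 => y) hy hmℓ u hu hul i hi1 hi
  have b1 := hb _ hu1 hn1
  have b2 := hb _ (inv_ne_one.2 hu1) (by rw [FreeGroup.norm_inv_eq]; exact hn1)
  rw [map_inv] at b2
  rw [hl1] at b1 b2
  exact rtr_TL_one _ (y ^ m) κ b1 b2

/-- correlations along the powers of an even permutation whose powers have few fixed points -/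
theorem corr_few {n : ℕ} (N F I J0 ℓ : ℕ) (κ : ℝ) (hN : 100 ≤ N) (hNn : 2 * (12096 * N) ≤ n)
    (hn : 1000 ≤ n) (hF : 2 * F ≤ n) (hI : 1 ≤ I) (hJF : J0 ≤ F)
    (hJI : n * J0 ^ (I + 1) ≤ F ^ (I + 1)) (hb1 : 2 * Real.exp 4 * F / n ≤ 1)
    (hκ1 : 2 * Real.exp 4 * F / n ≤ κ)
    (hκ2 : ∀ j, N * j ≤ n → bb j J0 n F ^ J0 ≤ κ)
    (hκ3 : Real.exp (-(1 / (2 * 336 * 12096 * (N : ℝ) ^ 2) * n)) ≤ κ)
    (y : Alt n) (hy : FewFixK n ℓ F (fun _ : Fin 1 => (y : Equiv.Perm (Fin n)))) (m : ℕ)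
    (hm : 1 ≤ m) (hmℓ : I * m ≤ ℓ)
    (f : Alt n → ℝ) (hf : ∀ g h, f (h * g * h⁻¹) = f g) (h0 : ∑ g, f g = 0) :
    ∑ g, f g * f (g * y ^ m) ≤ κ * ∑ g, f g ^ 2 := by
  have hno : ∀ v : HH 0 n, (∀ h : Alt n, rM (HH 0 n) (HH_inv 0 n) h v = v) → v = 0 := by
    intro v hv
    have h1 : (v : FA n) = 0 := by
      refine NOINV n 0 _ v.2 ∅ (by simp) fun s _ => ?_
      have h2 := hv s
      exact congrArg (fun z : HH 0 n => (z : FA n)) h2
    exact Subtype.ext h1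
  have hκ : ∀ (W : Submodule ℂ (HH 0 n)) (hW : Irr (V := HH 0 n) (rM (HH 0 n) (HH_inv 0 n)) W),
      RtL (V := HH 0 n) (rM (HH 0 n) (HH_inv 0 n)) W hW.2.1 (fun _ : Fin 1 => y ^ m) 1 ≤
        (1 + κ) / 2 * Module.finrank ℂ W := fun W hW =>
    irr_trace1 (V := HH 0 n) N F I J0 ℓ κ hN hNn hn hF hI hJF hJI hb1 hκ1 hκ2 hκ3 y hy m hm hmℓ
      (rM (HH 0 n) (HH_inv 0 n)) W hW fun v _ hv => hno v hv
  exact corr_le (y ^ m) κ hκ f hf h0

/-- **few first generators miss a normal set** -/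
theorem miss_le {n L : ℕ} (hL : 1 ≤ L) (y : Alt n) (κ : ℝ) (hκ0 : 0 ≤ κ)
    (hcorr : ∀ f : Alt n → ℝ, (∀ g h, f (h * g * h⁻¹) = f g) → ∑ g, f g = 0 →
      ∀ m, 1 ≤ m → m < L → ∑ g, f g * f (g * y ^ m) ≤ κ * ∑ g, f g ^ 2)
    (E : Finset (Alt n)) (hE : ∀ g h : Alt n, h * g * h⁻¹ ∈ E ↔ g ∈ E) :
    (Nat.card {g : Alt n // ∀ i < L, g * y ^ i ∉ E} : ℝ) * E.card ≤
      (1 / L + κ) * (Fintype.card (Alt n) : ℝ) ^ 2 := by
  classical
  set Q : ℝ := (Fintype.card (Alt n) : ℝ) with hQ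
  have hQ0 : 0 < Q := by rw [hQ]; exact_mod_cast Fintype.card_pos
  have hLr : (0 : ℝ) < L := by exact_mod_cast hL
  rcases Nat.eq_zero_or_pos E.card with hE0 | hE0
  · rw [hE0, Nat.cast_zero, mul_zero]; positivity
  have hEr : (0 : ℝ) < E.card := by exact_mod_cast hE0
  set p : ℝ := E.card / Q with hp
  set f : Alt n → ℝ := fun g => (if g ∈ E then 1 else 0) - p with hf
  have hfc : ∀ g h, f (h * g * h⁻¹) = f g := by
    intro g h
    simp only [hf, hE g h]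
  have hf0 : ∑ g, f g = 0 := by
    simp only [hf]
    rw [Finset.sum_sub_distrib, Finset.sum_ite_mem, Finset.univ_inter, Finset.sum_const,
      Finset.sum_const, Finset.card_univ, nsmul_eq_mul, nsmul_eq_mul, mul_one, ← hQ, hp]
    field_simp
    ring
  have hf2 : ∑ g, f g ^ 2 ≤ E.card := by
    have h1 : ∀ g, f g ^ 2 = (if g ∈ E then 1 else 0) - p * (2 * f g + p) := by
      intro g
      simp only [hf]
      split_ifs <;> ring
    have h2 : ∑ g, p * (2 * f g + p) = p ^ 2 * Q := by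
      rw [← Finset.mul_sum, Finset.sum_add_distrib, ← Finset.mul_sum, hf0, Finset.sum_const,
        Finset.card_univ, nsmul_eq_mul, ← hQ]
      ring
    rw [Finset.sum_congr rfl fun g _ => h1 g, Finset.sum_sub_distrib, h2, Finset.sum_ite_mem,
      Finset.univ_inter, Finset.sum_const, nsmul_eq_mul, mul_one]
    have : 0 ≤ p ^ 2 * Q := by positivity
    linarith
  have hf20 : 0 ≤ ∑ g, f g ^ 2 := Finset.sum_nonneg fun _ _ => sq_nonneg _
  -- correlations
  have hshift : ∀ (i j : ℕ), ∑ g, f (g * y ^ i) * f (g * y ^ (i + j)) =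
      ∑ g, f g * f (g * y ^ j) := by
    intro i j
    rw [← Equiv.sum_comp (Equiv.mulRight (y ^ i)) (fun g => f g * f (g * y ^ j))]
    refine Finset.sum_congr rfl fun g _ => ?_
    simp only [Equiv.coe_mulRight]
    rw [pow_add, mul_assoc]
  have hpair : ∀ i ∈ range L, ∀ j ∈ range L, ∑ g, f (g * y ^ i) * f (g * y ^ j) ≤
      (if i = j then ∑ g, f g ^ 2 else 0) + κ * ∑ g, f g ^ 2 := by
    intro i hi j hj
    rw [mem_range] at hi hj
    have hκf : 0 ≤ κ * ∑ g, f g ^ 2 := by positivity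
    rcases lt_trichotomy i j with h | h | h
    · rw [if_neg h.ne, zero_add]
      obtain ⟨m, rfl⟩ := Nat.exists_eq_add_of_lt h
      rw [show i + m + 1 = i + (m + 1) by ring, hshift]
      exact hcorr f hfc hf0 (m + 1) (by omega) (by omega)
    · subst h
      rw [if_pos rfl]
      have h1 := hshift i 0
      rw [add_zero] at h1
      rw [h1]
      have h2 : ∑ g, f g * f (g * y ^ 0) = ∑ g, f g ^ 2 :=
        Finset.sum_congr rfl fun g _ => by rw [pow_zero, mul_one, sq]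
      rw [h2]
      linarith
    · rw [if_neg h.ne', zero_add]
      obtain ⟨m, rfl⟩ := Nat.exists_eq_add_of_lt h
      rw [show j + m + 1 = j + (m + 1) by ring]
      rw [Finset.sum_congr rfl fun g _ => mul_comm _ _, hshift]
      exact hcorr f hfc hf0 (m + 1) (by omega) (by omega)
  have hsq : ∑ g, (∑ i ∈ range L, f (g * y ^ i)) ^ 2 ≤ (L + L ^ 2 * κ) * E.card := by
    have h1 : ∑ g, (∑ i ∈ range L, f (g * y ^ i)) ^ 2 =
        ∑ i ∈ range L, ∑ j ∈ range L, ∑ g, f (g * y ^ i) * f (g * y ^ j) := by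
      have h2 : ∀ g, (∑ i ∈ range L, f (g * y ^ i)) ^ 2 =
          ∑ i ∈ range L, ∑ j ∈ range L, f (g * y ^ i) * f (g * y ^ j) := fun g => by
        rw [sq, Finset.sum_mul_sum]
      rw [Finset.sum_congr rfl fun g _ => h2 g, Finset.sum_comm]
      refine Finset.sum_congr rfl fun i _ => ?_
      rw [Finset.sum_comm]
    rw [h1]
    calc ∑ i ∈ range L, ∑ j ∈ range L, ∑ g, f (g * y ^ i) * f (g * y ^ j)
        ≤ ∑ i ∈ range L, ∑ j ∈ range L, ((if i = j then ∑ g, f g ^ 2 else 0) +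
            κ * ∑ g, f g ^ 2) :=
          Finset.sum_le_sum fun i hi => Finset.sum_le_sum fun j hj => hpair i hi j hj
      _ = (L + L ^ 2 * κ) * ∑ g, f g ^ 2 := by
          have h3 : ∀ i ∈ range L, ∑ j ∈ range L, ((if i = j then ∑ g, f g ^ 2 else 0) +
            κ * ∑ g, f g ^ 2) = ∑ g, f g ^ 2 + L * (κ * ∑ g, f g ^ 2) := by
            intro i hi
            rw [Finset.sum_add_distrib, Finset.sum_ite_eq, if_pos hi, Finset.sum_const,
              card_range, nsmul_eq_mul]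
          rw [Finset.sum_congr rfl h3, Finset.sum_const, card_range, nsmul_eq_mul]
          ring
      _ ≤ (L + L ^ 2 * κ) * E.card := by gcongr
  -- the missed elements
  set B : Finset (Alt n) := univ.filter fun g => ∀ i < L, g * y ^ i ∉ E with hB
  have hBc : (Nat.card {g : Alt n // ∀ i < L, g * y ^ i ∉ E} : ℝ) = B.card := by
    rw [Nat.card_eq_fintype_card, Fintype.card_subtype]
  rw [hBc]
  have hlow : (B.card : ℝ) * (L * p) ^ 2 ≤ ∑ g, (∑ i ∈ range L, f (g * y ^ i)) ^ 2 := by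
    have h1 : ∀ g ∈ B, (∑ i ∈ range L, f (g * y ^ i)) ^ 2 = (L * p) ^ 2 := by
      intro g hg
      have h2 : ∑ i ∈ range L, f (g * y ^ i) = ∑ i ∈ range L, (-p) := by
        refine Finset.sum_congr rfl fun i hi => ?_
        simp only [hf]
        rw [if_neg ((mem_filter.1 hg).2 i (mem_range.1 hi)), zero_sub]
      rw [h2, Finset.sum_const, card_range, nsmul_eq_mul]
      ring
    calc (B.card : ℝ) * (L * p) ^ 2 = ∑ g ∈ B, (∑ i ∈ range L, f (g * y ^ i)) ^ 2 := by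
          rw [Finset.sum_congr rfl h1, Finset.sum_const, nsmul_eq_mul]
      _ ≤ _ := Finset.sum_le_sum_of_subset_of_nonneg (subset_univ _) fun _ _ _ => sq_nonneg _
  have h1 := hlow.trans hsq
  have h2 : ((B.card : ℝ) * E.card) * (L ^ 2 * E.card) ≤
      ((1 / L + κ) * Q ^ 2) * (L ^ 2 * E.card) := by
    have e1 : (L * p) ^ 2 * Q ^ 2 = L ^ 2 * (E.card : ℝ) ^ 2 := by
      rw [hp]; field_simp
    calc ((B.card : ℝ) * E.card) * (L ^ 2 * E.card) = B.card * ((L * p) ^ 2 * Q ^ 2) := by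
          rw [e1]; ring
      _ = (B.card * (L * p) ^ 2) * Q ^ 2 := by ring
      _ ≤ ((L + L ^ 2 * κ) * E.card) * Q ^ 2 := by gcongr
      _ = ((1 / L + κ) * Q ^ 2) * (L ^ 2 * E.card) := by field_simp
  exact le_of_mul_le_mul_right h2 (by positivity)

end

end Pool.Agent.L0h8.K2
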