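import Pool.Agent.L0h8.K2.Words

/-!
Walkers which do not touch a branch vertex are isolated.
-/

set_option autoImplicit false
set_option linter.unusedSectionVars false
set_option linter.unusedVariables false

namespace Pool.Agent.L0h8.K2
open Finset

lemma sgn_zero {j L x : ℕ} (hL : L = 2 * j) (hj : 1 ≤ j) (h1 : (x + 1) % L < j)
    (h2 : ¬ x % L < j) : (x + 1) % L = 0 := by
  subst hL
  have hmod : x % (2 * j) < 2 * j := Nat.mod_lt _ (by omega)
  rcases Nat.lt_or_ge (x % (2 * j) + 1) (2 * j) with h | h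
  · have h3 : (x + 1) % (2 * j) = x % (2 * j) + 1 := by
      rw [Nat.add_mod, Nat.mod_eq_of_lt (show 1 < 2 * j by omega), Nat.mod_eq_of_lt h]
    omega
  · have h6 := Nat.div_add_mod x (2 * j)
    have h7 : x + 1 = 2 * j * (x / (2 * j) + 1) := by
      rw [mul_add, mul_one]; omega
    rw [h7, Nat.mul_mod_right]

lemma mod_pred {L x : ℕ} (hL : 1 ≤ L) (h : (x + 1) % L = 0) : x % L = L - 1 := by
  have hmod : x % L < L := Nat.mod_lt _ (by omega)
  have h6 := Nat.div_add_mod x L
  rcases Nat.lt_or_ge (x % L + 1) L with h1 | h1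
  · have h3 : (x + 1) % L = x % L + 1 := by
      rw [Nat.add_mod, Nat.mod_eq_of_lt (show 1 < L by omega), Nat.mod_eq_of_lt h1]
    omega
  · omega

namespace Cl
variable {n : ℕ} {ι : Type*} [Fintype ι] [DecidableEq ι] {j L : ℕ} {u v : Fin j → Fin 2}
  (W : Cl n 2 ι L)

/-- **isolation** -/
theorem iso (hLdef : L = 2 * j) (hs : W.s = wd u v) (h0 : gt u 0 ≠ gt v 0) {i i' : ι} (hi : ∀ t, W.V i t ∉ W.B)
    {t t' : ℕ} (h : W.V i t = W.V i' t') : i = i' ∧ t % L = t' % L := by
  have hj : 1 ≤ j := by have := W.hL; omega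
  -- shift the times
  obtain ⟨T, hT⟩ : ∃ T, T + 1 = t + 1 * L := ⟨t + 1 * L - 1, by omega⟩
  obtain ⟨T', hT'⟩ : ∃ T', T' + 1 = t' + 4 * L := ⟨t' + 4 * L - 1, by omega⟩
  have hTm : (T + 1) % L = t % L := by rw [hT, Nat.add_mul_mod_self_right]
  have hTm' : (T' + 1) % L = t' % L := by rw [hT', Nat.add_mul_mod_self_right]
  have hV : W.V i (T + 1) = W.V i' (T' + 1) := by rw [hT, hT', W.V_mul, W.V_mul, h]
  rw [← hTm, ← hTm']
  have hnb : W.V i (T + 1) ∉ W.B := hi _
  have hnb' : W.V i' (T' + 1) ∉ W.B := by rw [← hV]; exact hnb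
  have hD := W.D_of_not_B hnb
  have hD' := W.D_of_not_B hnb'
  rw [← hV, hD] at hD'
  have hmem : W.s (T + 1) ∈ ({W.s (T' + 1), inv (W.s T')} : Finset (Ltr 2)) := by
    rw [← hD']; exact mem_insert_self _ _
  -- a time at which the word starts again
  obtain ⟨e, he1, he2, he3⟩ : ∃ e, 1 ≤ e ∧ e ≤ L ∧ (T + 1 + e) % L = 0 := by
    have h1 := Nat.mod_lt (T + 1) (show 0 < L by omega)
    have h2 := Nat.div_add_mod (T + 1) L
    refine ⟨L - (T + 1) % L, by omega, by omega, ?_⟩
    have h3 : T + 1 + (L - (T + 1) % L) = L * ((T + 1) / L + 1) := by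
      rw [mul_add, mul_one]; omega
    rw [h3, Nat.mul_mod_right]
  have he4 : (T + 1 + (e - 1)) % L = L - 1 := by
    refine mod_pred (by omega) ?_
    have : T + 1 + (e - 1) + 1 = T + 1 + e := by omega
    rw [this, he3]
  have sg1 : (W.s (T + 1 + e)).2 = true := by
    rw [hs, wd_sgn, ← hLdef, he3]; simp; omega
  have sg2 : (W.s (T + 1 + (e - 1))).2 = false := by
    rw [hs, wd_sgn, ← hLdef, he4]; simp; omega
  rw [mem_insert, mem_singleton] at hmem
  rcases hmem with hA | hB
  · -- same direction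
    have hfol := W.follow hV hA (e + 1) (fun e' _ _ => hi _)
    have f1 := (hfol e (by omega)).2 (by omega)
    have f2 := (hfol (e - 1) (by omega)).2 (by omega)
    rw [f1] at sg1
    rw [f2] at sg2
    rw [hs, wd_sgn, ← hLdef] at sg1 sg2
    have h1 : (T' + 1 + (e - 1) + 1) % L < j := by
      have : T' + 1 + (e - 1) + 1 = T' + 1 + e := by omega
      rw [this]
      simpa using sg1
    have h2 : ¬ (T' + 1 + (e - 1)) % L < j := by
      intro h; rw [decide_eq_true h] at sg2; simp at sg2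
    have h3 := sgn_zero hLdef hj h1 h2
    have h4 : T' + 1 + (e - 1) + 1 = T' + 1 + e := by omega
    rw [h4] at h3
    have h5 : (T + 1) % L = (T' + 1) % L := by
      have : (T + 1 + e) ≡ (T' + 1 + e) [MOD L] := by
        unfold Nat.ModEq; rw [he3, h3]
      exact Nat.ModEq.add_right_cancel' e this
    refine ⟨?_, h5⟩
    have h6 : W.V i' (T' + 1) = W.V i' (T + 1) := by
      rw [← W.V_mod i' (T' + 1), ← h5, W.V_mod]
    exact W.V_inj (hV.trans h6)
  · -- opposite direction
    exfalso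
    have href : ∀ d, d ≤ 2 * L → W.V i (T + 1 + d) = W.V i' (T' + 1 - d) ∧
        W.s (T + 1 + d) = inv (W.s (T' - d)) := by
      intro d
      induction d with
      | zero => intro _; exact ⟨hV, hB⟩
      | succ d ih =>
        intro hd
        obtain ⟨h1, h2⟩ := ih (by omega)
        obtain ⟨z, hz⟩ : ∃ z, T' - d = z + 1 := ⟨T' - d - 1, by omega⟩
        have e1 : T' + 1 - d = z + 1 + 1 := by omega
        have e2 : T' + 1 - (d + 1) = z + 1 := by omega
        have e3 : T' - (d + 1) = z := by omega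
        rw [e2, e3]
        rw [e1] at h1
        rw [hz] at h2
        have h3 : W.V i (T + 1 + d + 1) = W.V i' (z + 1) := by
          rw [W.hV, h1, h2, W.hV i' (z + 1), st_inv]
        refine ⟨h3, ?_⟩
        have h4 : W.V i (T + 1 + d + 1) ∉ W.B := hi _
        have h5 : W.V i' (z + 1) ∉ W.B := by rw [← h3]; exact h4
        have h6 := W.D_of_not_B h4
        have h7 := W.D_of_not_B h5
        rw [← h3, h6] at h7
        have h8 : W.s (T + 1 + d + 1) ∈ ({W.s (z + 1), inv (W.s z)} : Finset (Ltr 2)) := by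
          rw [← h7]; exact mem_insert_self _ _
        rw [mem_insert, mem_singleton] at h8
        rcases h8 with h9 | h9
        · exfalso
          have h10 : W.s (z + 1) = inv (W.s (T + 1 + d)) := by rw [h2, inv_inv']
          rw [h10] at h9
          exact W.hred _ h9
        · exact h9
    have r1 := (href e (by omega)).2
    have r2 := (href (e - 1) (by omega)).2
    have g1 := congrArg Prod.snd r1
    have g2 := congrArg Prod.snd r2
    rw [sg1] at g1
    rw [sg2] at g2
    simp only [inv, hs, wd_sgn] at g1 g2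
    rw [← hLdef] at g1 g2
    have h1 : (T' - e + 1) % L < j := by
      have : T' - e + 1 = T' - (e - 1) := by omega
      rw [this]
      by_contra hc
      rw [decide_eq_false hc] at g2
      simp at g2
    have h2 : ¬ (T' - e) % L < j := by
      intro hc
      rw [decide_eq_true hc] at g1
      simp at g1
    have h3 := sgn_zero hLdef hj h1 h2
    have h4 := mod_pred (by omega) h3
    have h5 : W.s (T + 1 + e) = (gt u 0, true) := by
      rw [← W.s_mod, he3, hs, wd_lt (by omega)]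
    have h6 : W.s (T' - e) = (gt v 0, false) := by
      have h7 : 2 * j - 1 - (L - 1) = 0 := by omega
      rw [← W.s_mod, h4, hs, wd_ge (by omega) (by omega), h7]
    rw [h5, h6] at r1
    exact h0 (congrArg Prod.fst r1)

end Cl

namespace Cl
variable {n k L : ℕ} {ι : Type*} (W : Cl n k ι L)

/-- restriction to some of the walkers -/
def restr (S : Finset ι) : Cl n k S L where
  x := W.x
  s := W.s
  V := fun i => W.V i
  hL := W.hL
  hs := W.hs
  hred := W.hred
  hV := fun i t => W.hV i t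
  hcl := fun i => W.hcl i
  hinj := fun i i' h => Subtype.ext (W.hinj h)

variable [Fintype ι] [DecidableEq ι]

open Classical in
/-- the walkers which touch a branch vertex -/
noncomputable def tch : Finset ι := univ.filter fun i => ∃ t, W.V i t ∈ W.B

lemma mem_tch {i : ι} : i ∈ W.tch ↔ ∃ t, W.V i t ∈ W.B := by
  classical
  simp [tch]

lemma restr_D {y : Fin n} (hy : y ∈ W.B) : W.D y ⊆ (W.restr W.tch).D y := by
  intro σ hσ
  rw [mem_D, ed_mem_rev] at hσ ⊢
  obtain ⟨i, t', ht', h⟩ := hσ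
  have hi : i ∈ W.tch := by
    rw [mem_tch]
    rcases h with ⟨-, h⟩ | ⟨-, h⟩
    · exact ⟨t', by rw [h]; exact hy⟩
    · exact ⟨t' + 1, by rw [h]; exact hy⟩
  exact ⟨⟨i, hi⟩, t', ht', h⟩

lemma restr_touch (i : W.tch) : ∃ t, (W.restr W.tch).V i t ∈ (W.restr W.tch).B := by
  obtain ⟨t, ht⟩ := W.mem_tch.1 i.2
  refine ⟨t, ?_⟩
  rw [B, mem_filter]
  refine ⟨(W.restr W.tch).V_mem i t, ?_⟩
  exact (mem_filter.1 ht).2.trans (card_le_card (W.restr_D ht))

end Cl

namespace Cl
variable {n : ℕ} {ι : Type*} [Fintype ι] [DecidableEq ι] {j : ℕ} {u v : Fin j → Fin 2}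
  (W : Cl n 2 ι (2 * j))

/-- the number of edges -/
theorem card_rev_split (hs : W.s = wd u v) (h0 : gt u 0 ≠ gt v 0) :
    #(W.rev (2 * j)) = #((W.restr W.tch).rev (2 * j)) +
      (Fintype.card ι - #(W.tch)) * (2 * j) := by
  classical
  set S := W.tch with hS
  have h1 : W.rev (2 * j) = ((W.restr S).rev (2 * j)) ∪
      ((Sᶜ ×ˢ range (2 * j)).image fun p => W.e p.1 p.2) := by
    ext c
    rw [mem_union, mem_rev, mem_rev, mem_image]
    constructor
    · rintro ⟨i, t, ht, h⟩
      by_cases hi : i ∈ S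
      · exact Or.inl ⟨⟨i, hi⟩, t, ht, h⟩
      · exact Or.inr ⟨(i, t), mem_product.2 ⟨mem_compl.2 hi, mem_range.2 ht⟩, h⟩
    · rintro (⟨i, t, ht, h⟩ | ⟨p, hp, h⟩)
      · exact ⟨i, t, ht, h⟩
      · exact ⟨p.1, p.2, mem_range.1 (mem_product.1 hp).2, h⟩
  have key : ∀ i, i ∉ S → ∀ i' t t', t < 2 * j → t' < 2 * j → W.e i t = W.e i' t' →
      i = i' ∧ t = t' := by
    intro i hi i' t t' ht ht' h
    have hi' : ∀ t, W.V i t ∉ W.B := fun t h => hi (by rw [hS, mem_tch]; exact ⟨t, h⟩)
    rw [W.e_eq, W.e_eq, ed_eq_iff] at h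
    rcases h with ⟨-, h⟩ | ⟨h1, h⟩
    · obtain ⟨h2, h3⟩ := W.iso rfl hs h0 hi' h
      rw [Nat.mod_eq_of_lt ht, Nat.mod_eq_of_lt ht'] at h3
      exact ⟨h2, h3⟩
    · rw [← W.hV] at h
      obtain ⟨h2, h3⟩ := W.iso rfl hs h0 hi' h
      exfalso
      have h4 : W.s t = W.s (t' + 1) := by rw [← W.s_mod t, h3, W.s_mod]
      rw [h4] at h1
      exact W.hred _ h1
  have h2 : Disjoint ((W.restr S).rev (2 * j))
      ((Sᶜ ×ˢ range (2 * j)).image fun p => W.e p.1 p.2) := by
    rw [disjoint_left]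
    intro c hc hc'
    obtain ⟨i, t, ht, h⟩ := (W.restr S).mem_rev.1 hc
    rw [mem_image] at hc'
    obtain ⟨⟨i', t'⟩, hp, h'⟩ := hc'
    rw [mem_product, mem_compl, mem_range] at hp
    have h3 := (key i' hp.1 i t' t hp.2 ht (h'.trans h.symm)).1
    exact hp.1 (by simp only; rw [h3]; exact i.2)
  rw [h1, card_union_of_disjoint h2, card_image_of_injOn, card_product, card_compl, card_range]
  rintro ⟨i, t⟩ hp ⟨i', t'⟩ hp' h
  rw [mem_coe, mem_product, mem_compl, mem_range] at hp hp'
  obtain ⟨h3, h4⟩ := key i hp.1 i' t t' hp.2 hp'.2 h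
  exact Prod.ext h3 h4

end Cl

end Pool.Agent.L0h8.K2
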