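import Pool.Agent.L0h8.K2.Hit1
import Pool.Agent.L0h8.K2.Det3
import Pool.Agent.L0h8.K2.Asym2
import Pool.Agent.L0h8.SK.Main2

/-!
The diameter of `A_n` with respect to two random even permutations.
-/

set_option autoImplicit false
set_option linter.unusedSectionVars false

namespace Pool.Agent.L0h8.K2
open Equiv Finset RC14 Filter Topology
open Pool.Agent.R236.Den (FewFixK)
open Pool.Agent.L0h8.ND (ball ball_mono ball_sub gen_mem_ball mul_mem_ball pow_mem_ball)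

/-- the words `x₀ x₁^i` hit the permutations with a power of small support -/
theorem hit2 (β : ℝ) (hβ : 0 < β) (hβ1 : β < 1 / 128) (ε₀ : ℝ) (hε₀ : 0 < ε₀) :
    ∀ᶠ n : ℕ in atTop, (Nat.card {x : Fin 2 → Alt n //
      ∀ i < ⌈(n : ℝ) ^ (2 * β)⌉₊, x 0 * x 1 ^ i ∉ EE n ⌊(n : ℝ) ^ (1 - β)⌋₊} : ℝ) ≤
        ε₀ * (Fintype.card (Alt n) : ℝ) ^ 2 := by
  filter_upwards [SK.hit_par 2 le_rfl 1 one_pos,
    SK.few_ev 1 (1 / 64) (1 / 16) (by norm_num) (by norm_num) (by norm_num) 1,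
    ev_const 1 (2 / ε₀) one_pos, ev_const β (32 / ε₀) hβ,
    ev_le (1 / 2) (1 - β) 128 (by linarith), ev_le (1 - β) 1 6 (by linarith),
    ev_const (1 - β) 8 (by linarith), ev_le (2 * β) (1 / 64) 31 (by linarith),
    eventually_ge_atTop 4] with n h1 h2 h3 h4 h5 h6 h7 h8 hn4
  have hn4r : (4 : ℝ) ≤ n := by exact_mod_cast hn4
  have hn0 : (0 : ℝ) < n := lt_of_lt_of_le (by norm_num) hn4r
  have hn1 : (1 : ℝ) ≤ n := le_trans (by norm_num) hn4r
  rw [Real.rpow_one] at h3 h6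
  rw [pow_one] at h2
  rw [div_le_iff₀ hε₀] at h3 h4
  set L : ℕ := ⌈(n : ℝ) ^ (2 * β)⌉₊ with hL
  set m : ℕ := ⌊(n : ℝ) ^ (1 - β)⌋₊ with hm
  set ℓ : ℕ := ⌊(n : ℝ) ^ (1 / 64 : ℝ)⌋₊ with hℓ
  set F : ℕ := ⌈(n : ℝ) ^ (1 / 16 : ℝ)⌉₊ with hF
  have hL1 : (n : ℝ) ^ (2 * β) ≤ L := Nat.le_ceil _
  have hLpos : 1 ≤ L := by
    have : (0 : ℝ) < (n : ℝ) ^ (2 * β) := by positivity
    exact Nat.one_le_ceil_iff.2 this
  have hm1 : (m : ℝ) ≤ (n : ℝ) ^ (1 - β) := Nat.floor_le (by positivity)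
  have hm2 : (n : ℝ) ^ (1 - β) / 2 ≤ m := by
    have : (n : ℝ) ^ (1 - β) < m + 1 := Nat.lt_floor_add_one _
    linarith
  have hsq : 64 * Nat.sqrt n ≤ m := by
    have e1 : ((Nat.sqrt n : ℕ) : ℝ) ≤ (n : ℝ) ^ (1 / 2 : ℝ) := by
      rw [← Real.sqrt_eq_rpow]
      exact Real.nat_sqrt_le_real_sqrt
    have : (64 * (Nat.sqrt n : ℝ)) ≤ m := by linarith
    exact_mod_cast this
  have hmn : 2 * m + 4 ≤ n := by
    have : (2 * (m : ℝ) + 4) ≤ n := by linarith
    exact_mod_cast this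
  have hm4 : 4 ≤ m := by
    have : (4 : ℝ) ≤ m := by linarith
    exact_mod_cast this
  have hdens := EE_dens hsq hmn hm4
  set κ : ℝ := (n : ℝ) ^ (-(7 / 8) : ℝ) with hκ
  have hκ0 : 0 ≤ κ := by positivity
  have hκ7 : (n : ℝ) ^ (-(7 / 4) : ℝ) ≤ κ := Real.rpow_le_rpow_of_exponent_le hn1 (by norm_num)
  have hκsq : κ ^ 2 = (n : ℝ) ^ (-(7 / 4) : ℝ) := by
    rw [hκ, ← Real.rpow_natCast, ← Real.rpow_mul hn0.le]; norm_num
  have hκ1 : 2 * Real.exp 4 * F / n ≤ κ := by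
    have e1 := h1.hκ1
    rw [← hκsq] at e1
    exact le_of_sq_le_sq e1 hκ0
  set P : (Fin 1 → Alt n) → Prop := fun y =>
    FewFixK n ℓ F (fun i => (y i : Equiv.Perm (Fin n))) with hP
  set Bad : (Fin 1 → Alt n) → Alt n → Prop := fun y g => ∀ i < L, g * y 0 ^ i ∉ EE n m with hBad
  set Q : ℝ := (Fintype.card (Alt n) : ℝ) with hQ
  have hQ0 : 0 < Q := by rw [hQ]; exact_mod_cast Fintype.card_pos
  have hbad : ∀ y, P y → (Nat.card {g : Alt n // Bad y g} : ℝ) ≤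
      (ε₀ / 2) * Fintype.card (Alt n) := by
    intro y hy
    have hy' : FewFixK n ℓ F (fun _ : Fin 1 => (y 0 : Equiv.Perm (Fin n))) := by
      have e : (fun _ : Fin 1 => (y 0 : Equiv.Perm (Fin n))) =
          fun i => (y i : Equiv.Perm (Fin n)) := by
        ext i
        rw [Subsingleton.elim i 0]
      rw [e]; exact hy
    have h9 := miss_le hLpos (y 0) κ hκ0 (by
      intro f hf hf0 j hj1 hj2
      refine corr_few _ _ _ _ ℓ κ h1.hN h1.hNn h1.hn h1.hF h1.hI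
        h1.hJF h1.hJI h1.hb1 hκ1 (fun j hj => (h1.hκ2 j hj).trans hκ7) (h1.hκ3.trans hκ7) (y 0) hy'
        j hj1 ?_ f hf hf0
      have e1 : (j : ℝ) ≤ (n : ℝ) ^ (2 * β) := by
        have e2 : j ≤ L - 1 := by omega
        have e3 : (L : ℝ) < (n : ℝ) ^ (2 * β) + 1 := Nat.ceil_lt_add_one (by positivity)
        have e4 : (j : ℝ) + 1 ≤ L := by
          have : j + 1 ≤ L := by omega
          exact_mod_cast this
        linarith
      apply Nat.le_floor
      push_cast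
      linarith) (EE n m) (fun g h => EE_conj g h)
    set C : ℝ := (Nat.card {g : Alt n // Bad y g} : ℝ) with hC
    have hC0 : 0 ≤ C := Nat.cast_nonneg _
    have h9' : C * #(EE n m) ≤ (1 / L + κ) * Q ^ 2 := h9
    have hd : (m : ℝ) * Q ≤ 4 * n * #(EE n m) := by
      rw [hQ]; exact_mod_cast hdens
    have h10 : C * m ≤ 4 * n * (1 / L + κ) * Q := by
      have e1 : (C * m) * Q ≤ (4 * n * (1 / L + κ) * Q) * Q := by
        calc (C * m) * Q = C * (m * Q) := by ring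
          _ ≤ C * (4 * n * #(EE n m)) := by gcongr
          _ = 4 * n * (C * #(EE n m)) := by ring
          _ ≤ 4 * n * ((1 / L + κ) * Q ^ 2) := by gcongr
          _ = _ := by ring
      exact le_of_mul_le_mul_right e1 hQ0
    have hb2 : 0 < (n : ℝ) ^ (-(2 * β)) := by positivity
    have h11 : 1 / (L : ℝ) + κ ≤ 2 * (n : ℝ) ^ (-(2 * β)) := by
      have e1 : 1 / (L : ℝ) ≤ (n : ℝ) ^ (-(2 * β)) := by
        rw [Real.rpow_neg hn0.le, ← one_div]
        apply one_div_le_one_div_of_le (by positivity) hL1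
      have e2 : κ ≤ (n : ℝ) ^ (-(2 * β)) :=
        Real.rpow_le_rpow_of_exponent_le hn1 (by linarith)
      linarith
    -- `C n^(1-β) / 2 ≤ 8 n^(1 - 2β) Q`
    have hb1 : 0 < (n : ℝ) ^ (1 - β) := by positivity
    have h12 : C * ((n : ℝ) ^ (1 - β) / 2) ≤ 8 * n * (n : ℝ) ^ (-(2 * β)) * Q := by
      calc C * ((n : ℝ) ^ (1 - β) / 2) ≤ C * m := by gcongr
        _ ≤ 4 * n * (1 / L + κ) * Q := h10
        _ ≤ 4 * n * (2 * (n : ℝ) ^ (-(2 * β))) * Q := by gcongr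
        _ = _ := by ring
    have h13 : (n : ℝ) * (n : ℝ) ^ (-(2 * β)) * (n : ℝ) ^ β = (n : ℝ) ^ (1 - β) := by
      nth_rewrite 1 [← Real.rpow_one (n : ℝ)]
      rw [← Real.rpow_add hn0, ← Real.rpow_add hn0]
      congr 1; ring
    have h14 : (C * (n : ℝ) ^ β) * ((n : ℝ) ^ (1 - β) / 2) ≤ (16 * Q) * ((n : ℝ) ^ (1 - β) / 2) := by
      calc (C * (n : ℝ) ^ β) * ((n : ℝ) ^ (1 - β) / 2)
          = (C * ((n : ℝ) ^ (1 - β) / 2)) * (n : ℝ) ^ β := by ring
        _ ≤ (8 * n * (n : ℝ) ^ (-(2 * β)) * Q) * (n : ℝ) ^ β := by gcongr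
        _ = 8 * Q * (n * (n : ℝ) ^ (-(2 * β)) * (n : ℝ) ^ β) := by ring
        _ = _ := by rw [h13]; ring
    have h15 : C * (n : ℝ) ^ β ≤ 16 * Q := le_of_mul_le_mul_right h14 (by positivity)
    have hb0 : 0 < (n : ℝ) ^ β := by positivity
    have h16 : C * (n : ℝ) ^ β ≤ (ε₀ / 2 * Q) * (n : ℝ) ^ β := by
      refine h15.trans ?_
      calc 16 * Q ≤ ((n : ℝ) ^ β * ε₀ / 2) * Q := by gcongr; linarith
        _ = _ := by ring
    exact le_of_mul_le_mul_right h16 hb0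
  have hprod := card_prod_bound P Bad (ε₀ / 2) (by positivity) hbad
  have hequiv : Nat.card {x : Fin 2 → Alt n // ∀ i < L, x 0 * x 1 ^ i ∉ EE n m} =
      Nat.card {p : (Fin 1 → Alt n) × Alt n // Bad p.1 p.2} := by
    let e : (Fin 1 → Alt n) × Alt n ≃ (Fin (1 + 1) → Alt n) :=
      (Equiv.prodComm _ _).trans (Fin.consEquiv (fun _ : Fin (1 + 1) => Alt n))
    refine (RC14.card_equiv e (fun p => Bad p.1 p.2) _ fun p => ?_).symm
    rfl
  rw [hequiv]
  refine hprod.trans ?_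
  have hcardF : (Fintype.card (Fin 1 → Alt n) : ℝ) = Q := by
    rw [Fintype.card_fun, Fintype.card_fin, pow_one]
  rw [hcardF]
  have h9 : (Nat.card {x : Fin 1 → Alt n // ¬ P x} : ℝ) ≤ ε₀ / 2 * Q := by
    have h12 : (Nat.card {x : Fin 1 → Alt n // ¬ P x} : ℝ) * n ≤ Q := by
      have := h2
      rwa [pow_one] at this
    have h13 : (Nat.card {x : Fin 1 → Alt n // ¬ P x} : ℝ) * n ≤ (ε₀ / 2 * Q) * n := by
      calc _ ≤ 1 * Q := by linarith
        _ ≤ (ε₀ / 2 * n) * Q := by gcongr; linarith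
        _ = _ := by ring
    exact le_of_mul_le_mul_right h13 hn0
  calc (Nat.card {x : Fin 1 → Alt n // ¬ P x} : ℝ) * Q + ε₀ / 2 * Q * Q
      ≤ (ε₀ / 2 * Q) * Q + ε₀ / 2 * Q * Q := by gcongr
    _ = ε₀ * Q ^ 2 := by ring

/-- **the diameter** for two generators -/
theorem diam_2 (δ : ℝ) (hδ : 0 < δ) : ∀ ε₀ : ℝ, 0 < ε₀ →
    ∀ᶠ n : ℕ in atTop, (Nat.card {x : Fin 2 → Alt n // ¬ ∃ T : ℕ,
      (T : ℝ) ≤ (n : ℝ) ^ (2 - 1 / 21 + δ) ∧
      ∀ w : Alt n, w ∈ ball x T} : ℝ) ≤ ε₀ * (Fintype.card (Alt n) : ℝ) ^ 2 := by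
  intro ε₀ hε₀
  set d : ℝ := min δ (1 / 42) / 8 with hd'
  have hd : 0 < d := by
    have : 0 < min δ (1 / 42) := lt_min hδ (by norm_num)
    positivity
  have hd1 : d ≤ 1 / 336 := by
    have : min δ (1 / 42) ≤ 1 / 42 := min_le_right _ _
    linarith
  have hdδ : 8 * d ≤ δ := by
    have : min δ (1 / 42) ≤ δ := min_le_left _ _
    linarith
  set a : ℝ := 1 / 21 - d with ha'
  set a' : ℝ := 1 / 21 - 2 * d with ha''
  have ha : 0 < a := by rw [ha']; linarith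
  have ha1 : a < 1 / 21 := by rw [ha']; linarith
  have ha0' : 0 < a' := by rw [ha'']; linarith
  obtain ⟨t, ht⟩ := exists_pow_lt_of_lt_one (show (0 : ℝ) < min d (1 / 128) from
    lt_min hd (by norm_num)) (show (1 / 2 : ℝ) < 1 by norm_num)
  set β : ℝ := (1 - a') * (1 / 2) ^ t with hβ'
  have h1a : 0 < 1 - a' := by rw [ha'']; linarith
  have hβ : 0 < β := by positivity
  have hβ2 : β * 2 ^ t = 1 - a' := by
    rw [hβ', mul_assoc, ← mul_pow]; norm_num
  have hβm : β < min d (1 / 128) := by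
    refine lt_of_le_of_lt ?_ ht
    rw [hβ']
    exact mul_le_of_le_one_left (by positivity) (by linarith)
  have hβd : β < d := lt_of_lt_of_le hβm (min_le_left _ _)
  have hβ1 : β < 1 / 128 := lt_of_lt_of_le hβm (min_le_right _ _)
  set c : ℝ := 32 ^ (2 ^ t) with hc
  have hc1 : 1 ≤ c := one_le_pow₀ (by norm_num)
  filter_upwards [good_mix a ha ha1 (ε₀ / 2) (by positivity), hit2 β hβ hβ1 (ε₀ / 2) (by positivity),
    ev_const β 100 hβ, ev_le (1 - a') 1 c (by linarith),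
    ev_le a' a ((9 / 2) ^ (2 ^ t)) (by rw [ha', ha'']; linarith),
    ev_const a' (3 * c) ha0', ev_const (1 - β) 2 (by linarith),
    ev_le (2 - a' + 2 * β) (2 - 1 / 21 + δ) (120 * c * 4 ^ t) (by rw [ha'']; linarith),
    eventually_ge_atTop 6] with n h1 h2 h3 h4 h5 h6 h7 h8 hn6
  have hn6r : (6 : ℝ) ≤ n := by exact_mod_cast hn6
  have hn0 : (0 : ℝ) < n := by linarith
  have hn1 : (1 : ℝ) ≤ n := by linarith
  rw [Real.rpow_one] at h4
  set r : ℕ := ⌊(n : ℝ) ^ a⌋₊ with hr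
  set T : ℕ := ⌊(n : ℝ) ^ (1 / 2 : ℝ)⌋₊ with hT
  set L : ℕ := ⌈(n : ℝ) ^ (2 * β)⌉₊ with hL
  set m : ℕ := ⌊(n : ℝ) ^ (1 - β)⌋₊ with hm
  have hrn : r ≤ n := by
    have e1 : (r : ℝ) ≤ (n : ℝ) ^ a := Nat.floor_le (by positivity)
    have e2 : (n : ℝ) ^ a ≤ n := by
      calc (n : ℝ) ^ a ≤ (n : ℝ) ^ (1 : ℝ) := Real.rpow_le_rpow_of_exponent_le hn1 (by linarith)
        _ = n := Real.rpow_one _
    have : (r : ℝ) ≤ n := e1.trans e2
    exact_mod_cast this
  have hm1 : (m : ℝ) ≤ (n : ℝ) ^ (1 - β) := Nat.floor_le (by positivity)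
  have hm2 : (n : ℝ) ^ (1 - β) / 2 ≤ m := by
    have : (n : ℝ) ^ (1 - β) < m + 1 := Nat.lt_floor_add_one _
    linarith
  have hT1 : (T : ℝ) ≤ n := by
    have e1 : (T : ℝ) ≤ (n : ℝ) ^ (1 / 2 : ℝ) := Nat.floor_le (by positivity)
    refine e1.trans ?_
    calc (n : ℝ) ^ (1 / 2 : ℝ) ≤ (n : ℝ) ^ (1 : ℝ) :=
          Real.rpow_le_rpow_of_exponent_le hn1 (by norm_num)
      _ = n := Real.rpow_one _
  have hL2 : (L : ℝ) ≤ 2 * (n : ℝ) ^ (2 * β) := by
    have e1 : (L : ℝ) < (n : ℝ) ^ (2 * β) + 1 := Nat.ceil_lt_add_one (by positivity)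
    have e2 : (1 : ℝ) ≤ (n : ℝ) ^ (2 * β) := Real.one_le_rpow hn1 (by linarith)
    linarith
  have hnβ : (n : ℝ) ^ β * (n : ℝ) ^ (1 - β) = n := by
    rw [← Real.rpow_add hn0]
    have : β + (1 - β) = 1 := by ring
    rw [this, Real.rpow_one]
  have hpowβ : ((n : ℝ) ^ β) ^ (2 ^ t) = (n : ℝ) ^ (1 - a') := by
    rw [← Real.rpow_natCast, ← Real.rpow_mul hn0.le]
    congr 1
    push_cast
    exact hβ2
  have hpB : (4 * (8 * (n : ℝ) ^ β)) ^ (2 ^ t) = c * (n : ℝ) ^ (1 - a') := by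
    have : 4 * (8 * (n : ℝ) ^ β) = 32 * (n : ℝ) ^ β := by ring
    rw [this, mul_pow, hpowβ, hc]
  have hna : (n : ℝ) ^ (1 - a') * (n : ℝ) ^ a' = n := by
    rw [← Real.rpow_add hn0]
    have : 1 - a' + a' = 1 := by ring
    rw [this, Real.rpow_one]
  have hsub := card_union (ι := Bool) (fun x : Fin 2 → Alt n => ¬ ∃ T : ℕ,
      (T : ℝ) ≤ (n : ℝ) ^ (2 - 1 / 21 + δ) ∧ ∀ w : Alt n, w ∈ ball x T)
      (fun b x => if b then (¬ GoodMix n r T x) else
        (∀ i < L, x 0 * x 1 ^ i ∉ EE n m)) (by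
        intro x hx
        by_contra hcon
        have hgm : GoodMix n r T x := by
          by_contra h
          exact hcon ⟨true, by rw [if_pos rfl]; exact h⟩
        have hb : ¬ ∀ i < L, x 0 * x 1 ^ i ∉ EE n m := by
          intro h
          exact hcon ⟨false, by rw [if_neg (by simp)]; exact h⟩
        push Not at hb
        obtain ⟨i, hi, hE⟩ := hb
        apply hx
        obtain ⟨L₁, hL₁, hs1, hs2⟩ := mem_EE.1 hE
        have hg : x 0 * x 1 ^ i ∈ ball x L := by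
          have e1 : x 0 ∈ ball x 1 := gen_mem_ball (x := x) 0
          have e2 : x 1 ^ i ∈ ball x (i * 1) := pow_mem_ball (gen_mem_ball (x := x) 1) i
          exact ball_mono (by omega) (mul_mem_ball e1 e2)
        have hg2 : (x 0 * x 1 ^ i) ^ L₁ ∈ ball x (n * L) :=
          ball_mono (Nat.mul_le_mul_right _ hL₁) (pow_mem_ball hg L₁)
        have hcoe : (((x 0 * x 1 ^ i) ^ L₁ : Alt n) : Perm (Fin n)) =
            ((x 0 * x 1 ^ i : Alt n) : Perm (Fin n)) ^ L₁ := Subgroup.coe_pow _ _ _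
        rw [← hcoe] at hs1 hs2
        have hs1r : (m : ℝ) ≤ 4 * #(((x 0 * x 1 ^ i) ^ L₁ : Alt n) : Perm (Fin n)).support := by
          exact_mod_cast hs1
        have hs2r : (#(((x 0 * x 1 ^ i) ^ L₁ : Alt n) : Perm (Fin n)).support : ℝ) ≤ m := by
          exact_mod_cast hs2
        obtain ⟨h', g1, g2, g3⟩ := iter hgm (by omega) t (n * L) ((n : ℝ) ^ β)
          (8 * (n : ℝ) ^ β) ((x 0 * x 1 ^ i) ^ L₁) hg2 h3 (by linarith)
          (by
            calc (n : ℝ) ^ β * #(((x 0 * x 1 ^ i) ^ L₁ : Alt n) : Perm (Fin n)).support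
                ≤ (n : ℝ) ^ β * (n : ℝ) ^ (1 - β) := by
                  gcongr
                  exact hs2r.trans hm1
              _ = n := hnβ)
          (by
            calc (n : ℝ) = (n : ℝ) ^ β * (n : ℝ) ^ (1 - β) := hnβ.symm
              _ ≤ (n : ℝ) ^ β * (2 * m) := by gcongr; linarith
              _ ≤ (n : ℝ) ^ β * (2 * (4 *
                    #(((x 0 * x 1 ^ i) ^ L₁ : Alt n) : Perm (Fin n)).support)) := by gcongr
              _ = _ := by ring)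
          (by rw [hpB]; linarith)
        set s : ℕ := #(h' : Perm (Fin n)).support with hs
        rw [hpB] at g3
        have hsr : s ≤ r := by
          apply Nat.le_floor
          refine le_trans ?_ h5
          have e1 : 9 / 2 * (2 / 9 * (n : ℝ) ^ β) ^ (2 ^ t) * s =
              9 / 2 * (2 / 9) ^ (2 ^ t) * ((n : ℝ) ^ (1 - a') * s) := by
            rw [mul_pow, hpowβ]; ring
          rw [e1] at g2
          have e2 : (2 / 9 : ℝ) ^ (2 ^ t) * ((n : ℝ) ^ (1 - a') * s) ≤ n := by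
            refine le_trans ?_ g2
            rw [mul_assoc]
            exact le_mul_of_one_le_left (by positivity) (by norm_num)
          have e3 : (9 / 2 : ℝ) ^ (2 ^ t) * (2 / 9 : ℝ) ^ (2 ^ t) = 1 := by
            rw [← mul_pow]; norm_num
          have e4 : (n : ℝ) ^ (1 - a') * s ≤ (n : ℝ) ^ (1 - a') * ((9 / 2) ^ (2 ^ t) * (n : ℝ) ^ a') := by
            calc (n : ℝ) ^ (1 - a') * s
                = ((9 / 2 : ℝ) ^ (2 ^ t) * (2 / 9 : ℝ) ^ (2 ^ t)) * ((n : ℝ) ^ (1 - a') * s) := by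
                  rw [e3, one_mul]
              _ = (9 / 2 : ℝ) ^ (2 ^ t) * ((2 / 9 : ℝ) ^ (2 ^ t) * ((n : ℝ) ^ (1 - a') * s)) := by
                  ring
              _ ≤ (9 / 2 : ℝ) ^ (2 ^ t) * n := by gcongr
              _ = (9 / 2 : ℝ) ^ (2 ^ t) * ((n : ℝ) ^ (1 - a') * (n : ℝ) ^ a') := by rw [hna]
              _ = _ := by ring
          exact le_of_mul_le_mul_left e4 (by positivity)
        have hslow : 4 * (n : ℝ) ^ a' ≤ c * s := by
          have e1 : (4 * (n : ℝ) ^ a') * (n : ℝ) ^ (1 - a') ≤ (c * s) * (n : ℝ) ^ (1 - a') := by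
            calc (4 * (n : ℝ) ^ a') * (n : ℝ) ^ (1 - a') = 4 * ((n : ℝ) ^ (1 - a') * (n : ℝ) ^ a') := by
                  ring
              _ = 4 * n := by rw [hna]
              _ ≤ c * (n : ℝ) ^ (1 - a') * s := g3
              _ = _ := by ring
          exact le_of_mul_le_mul_right e1 (by positivity)
        have hs12 : 12 ≤ s := by
          have e1 : c * 12 ≤ c * s := by linarith
          have e2 : (12 : ℝ) ≤ s := le_of_mul_le_mul_left e1 (by linarith)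
          exact_mod_cast e2
        set J : ℕ := (s + 2) / 3 with hJ
        have hJ3 : 3 * J ≤ s + 2 := Nat.mul_div_le _ _
        have hJ2 : 2 ≤ J := by omega
        have hJs : s ≤ 12 * (J / 2) := by omega
        refine ⟨(4 * (n / (J / 2)) + 8) * (4 ^ t * (n * L + 2 * T) + 2 * T), ?_,
          fun w => det3 hgm.1 g1 hsr hrn hJ3 hJ2 hn6 w⟩
        refine le_trans ?_ h8
        have hJr : (s : ℝ) ≤ 12 * ((J / 2 : ℕ) : ℝ) := by exact_mod_cast hJs
        have hJpos : (0 : ℝ) < ((J / 2 : ℕ) : ℝ) := by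
          have : (12 : ℝ) ≤ s := by exact_mod_cast hs12
          linarith
        have hdiv : ((n / (J / 2) : ℕ) : ℝ) ≤ 3 * c * (n : ℝ) ^ (1 - a') := by
          refine Nat.cast_div_le.trans ?_
          rw [div_le_iff₀ hJpos]
          have e1 : (n : ℝ) ^ a' ≤ 3 * c * ((J / 2 : ℕ) : ℝ) := by
            have : c * s ≤ c * (12 * ((J / 2 : ℕ) : ℝ)) := by gcongr
            linarith
          calc (n : ℝ) = (n : ℝ) ^ (1 - a') * (n : ℝ) ^ a' := hna.symm
            _ ≤ (n : ℝ) ^ (1 - a') * (3 * c * ((J / 2 : ℕ) : ℝ)) := by gcongr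
            _ = _ := by ring
        have hp1 : (1 : ℝ) ≤ (n : ℝ) ^ (1 - a') := Real.one_le_rpow hn1 h1a.le
        have hp2 : (1 : ℝ) ≤ (n : ℝ) ^ (2 * β) := Real.one_le_rpow hn1 (by linarith)
        have hcp : (1 : ℝ) ≤ c * (n : ℝ) ^ (1 - a') := one_le_mul_of_one_le_of_one_le hc1 hp1
        have f1 : 4 * ((n / (J / 2) : ℕ) : ℝ) + 8 ≤ 20 * (c * (n : ℝ) ^ (1 - a')) := by
          linarith
        have h4t : (1 : ℝ) ≤ 4 ^ t := one_le_pow₀ (by norm_num)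
        have f2 : (4 : ℝ) ^ t * (n * L + 2 * T) + 2 * T ≤ 4 ^ t * (6 * (n * (n : ℝ) ^ (2 * β))) := by
          have e1 : (n : ℝ) * L ≤ 2 * (n * (n : ℝ) ^ (2 * β)) := by
            calc (n : ℝ) * L ≤ n * (2 * (n : ℝ) ^ (2 * β)) := mul_le_mul_of_nonneg_left hL2 hn0.le
              _ = _ := by ring
          have e2 : (n : ℝ) ≤ n * (n : ℝ) ^ (2 * β) := le_mul_of_one_le_right hn0.le hp2
          have e3 : (n : ℝ) * L + 2 * T ≤ 4 * (n * (n : ℝ) ^ (2 * β)) := by linarith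
          have e4 : 2 * (T : ℝ) ≤ 4 ^ t * (2 * (n * (n : ℝ) ^ (2 * β))) := by
            calc 2 * (T : ℝ) ≤ 2 * (n * (n : ℝ) ^ (2 * β)) := by linarith
              _ ≤ _ := le_mul_of_one_le_left (by positivity) h4t
          calc (4 : ℝ) ^ t * (n * L + 2 * T) + 2 * T
              ≤ 4 ^ t * (4 * (n * (n : ℝ) ^ (2 * β))) + 4 ^ t * (2 * (n * (n : ℝ) ^ (2 * β))) := by
                gcongr
            _ = _ := by ring
        have f3 : (n : ℝ) ^ (2 - a' + 2 * β) = (n : ℝ) ^ (1 - a') * (n * (n : ℝ) ^ (2 * β)) := by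
          rw [show (2 : ℝ) - a' + 2 * β = (1 - a') + (1 + 2 * β) by ring, Real.rpow_add hn0,
            Real.rpow_add hn0 1, Real.rpow_one]
        push_cast
        rw [f3]
        calc (4 * ((n / (J / 2) : ℕ) : ℝ) + 8) * (4 ^ t * (n * L + 2 * T) + 2 * T)
            ≤ (20 * (c * (n : ℝ) ^ (1 - a'))) * (4 ^ t * (6 * (n * (n : ℝ) ^ (2 * β)))) := by
              gcongr
          _ = _ := by ring)
  rw [Fintype.sum_bool] at hsub
  simp only [if_true, Bool.false_eq_true, if_false] at hsub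
  have hsub' : (Nat.card {x : Fin 2 → Alt n // ¬ ∃ T : ℕ,
      (T : ℝ) ≤ (n : ℝ) ^ (2 - 1 / 21 + δ) ∧ ∀ w : Alt n, w ∈ ball x T} : ℝ) ≤
      (Nat.card {x : Fin 2 → Alt n // ¬ GoodMix n r T x} : ℝ) +
      (Nat.card {x : Fin 2 → Alt n // ∀ i < L, x 0 * x 1 ^ i ∉ EE n m} : ℝ) := by
    exact_mod_cast hsub
  linarith

end Pool.Agent.L0h8.K2
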