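import Pool.Agent.L0h8.K2.Strip
import Pool.Agent.L0h8.ND.Mix

/-!
From the number of agreements of positive words to the mixing of the products of positive words on
tuples.
-/

set_option autoImplicit false
set_option linter.unusedSectionVars false
set_option linter.unusedVariables false

namespace Pool.Agent.L0h8.K2
open Finset RC14
open Pool.Agent.L0h8.ND (ball ball_mono ball_sub gen_mem_ball mul_mem_ball one_mem_ball)

noncomputable section

section Gen
variable {n r : ℕ} {U : Type} [Fintype U] [Nonempty U] (h : U → Alt n)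

/-- averaging over a family of even permutations -/
def av (f : Tup r n → ℝ) (b : Tup r n) : ℝ :=
  (∑ u, f (mv (h u : Equiv.Perm (Fin n)) b)) / Fintype.card U

/-- the kernel -/
def Qk (b c : Tup r n) : ℝ :=
  (#(univ.filter fun u => mv (h u : Equiv.Perm (Fin n)) b = c) : ℝ) / Fintype.card U

/-- the collision number -/
def coll (r : ℕ) : ℝ :=
  (∑ p : U × U, (Nat.card {b : Tup r n // mv (h p.1 : Equiv.Perm (Fin n)) b =
    mv (h p.2 : Equiv.Perm (Fin n)) b} : ℝ)) / (Fintype.card U : ℝ) ^ 2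

lemma cU : (0 : ℝ) < Fintype.card U := by exact_mod_cast Fintype.card_pos

lemma av_eq (f : Tup r n → ℝ) (b : Tup r n) : av h f b = ∑ c, Qk h b c * f c := by
  unfold av Qk
  have : ∀ c : Tup r n, (#(univ.filter fun u => mv (h u : Equiv.Perm (Fin n)) b = c) : ℝ) /
      Fintype.card U * f c = (∑ u, if mv (h u : Equiv.Perm (Fin n)) b = c then f c else 0) /
      Fintype.card U := by
    intro c
    rw [← sum_filter, sum_const, nsmul_eq_mul]
    ring
  simp only [this]
  rw [← sum_div, sum_comm]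
  congr 1
  refine sum_congr rfl fun u _ => ?_
  rw [sum_ite_eq]
  simp

lemma mv_inj' (g : Equiv.Perm (Fin n)) : Function.Injective (mv (j := r) g) := by
  intro a b hab
  ext l
  have := congrArg (fun z : Tup r n => z l) hab
  simp only [mv_apply] at this
  exact congrArg Fin.val (g.injective this)

lemma Qk_row (b : Tup r n) : ∑ c, Qk h b c = 1 := by
  have h1 := av_eq h (fun _ => (1 : ℝ)) b
  simp only [mul_one] at h1
  rw [← h1, av, sum_const, card_univ, nsmul_eq_mul, mul_one, div_self (cU (U := U)).ne']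

lemma sum_mv (g : Equiv.Perm (Fin n)) (f : Tup r n → ℝ) : ∑ b, f (mv g b) = ∑ b, f b := by
  refine Fintype.sum_bijective (mv g) ?_ _ _ fun _ => rfl
  exact (Fintype.bijective_iff_injective_and_card _).2 ⟨mv_inj' g, rfl⟩

lemma sum_av (f : Tup r n → ℝ) : ∑ b, av h f b = ∑ b, f b := by
  unfold av
  rw [← sum_div, sum_comm]
  simp only [sum_mv]
  rw [sum_const, card_univ, nsmul_eq_mul, mul_div_assoc, mul_div_cancel₀]
  exact (cU (U := U)).ne'

lemma coll_eq : coll h r = ∑ b : Tup r n, ∑ c, Qk h b c ^ 2 := by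
  unfold coll Qk
  have h1 : ∀ b c : Tup r n, ((#(univ.filter fun u => mv (h u : Equiv.Perm (Fin n)) b = c) : ℝ) /
      Fintype.card U) ^ 2 = (∑ p : U × U, if mv (h p.1 : Equiv.Perm (Fin n)) b = c ∧
        mv (h p.2 : Equiv.Perm (Fin n)) b = c then (1 : ℝ) else 0) / (Fintype.card U : ℝ) ^ 2 := by
    intro b c
    rw [div_pow]
    congr 1
    rw [card_filter, sq]
    push_cast
    rw [sum_mul_sum, ← Fintype.sum_prod_type']
    refine sum_congr rfl fun p _ => ?_
    by_cases h1 : mv (h p.1 : Equiv.Perm (Fin n)) b = c <;>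
      by_cases h2 : mv (h p.2 : Equiv.Perm (Fin n)) b = c <;> simp [h1, h2]
  simp only [h1]
  simp only [← sum_div]
  congr 1
  have h2 : ∀ b : Tup r n, ∑ c : Tup r n, ∑ p : U × U, (if mv (h p.1 : Equiv.Perm (Fin n)) b = c ∧
        mv (h p.2 : Equiv.Perm (Fin n)) b = c then (1 : ℝ) else 0) =
      ∑ p : U × U, if mv (h p.1 : Equiv.Perm (Fin n)) b = mv (h p.2 : Equiv.Perm (Fin n)) b then
        (1 : ℝ) else 0 := by
    intro b
    rw [sum_comm]
    refine sum_congr rfl fun p _ => ?_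
    have : ∀ c : Tup r n, (if mv (h p.1 : Equiv.Perm (Fin n)) b = c ∧
        mv (h p.2 : Equiv.Perm (Fin n)) b = c then (1 : ℝ) else 0) =
        if mv (h p.1 : Equiv.Perm (Fin n)) b = c then
          (if mv (h p.1 : Equiv.Perm (Fin n)) b = mv (h p.2 : Equiv.Perm (Fin n)) b then 1 else 0)
        else 0 := by
      intro c
      by_cases h1 : mv (h p.1 : Equiv.Perm (Fin n)) b = c
      · subst h1
        simp [eq_comm]
      · simp [h1]
    simp only [this]
    rw [sum_ite_eq]
    simp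
  simp only [h2]
  rw [sum_comm]
  refine sum_congr rfl fun p _ => ?_
  rw [← sum_filter, sum_const, nsmul_eq_mul, mul_one, Nat.card_eq_fintype_card,
    Fintype.card_subtype]

variable [hT : Nonempty (Tup r n)]

lemma cT : (0 : ℝ) < Fintype.card (Tup r n) := by exact_mod_cast Fintype.card_pos

lemma coll_sub : ∑ b : Tup r n, ∑ c, (Qk h b c - 1 / Fintype.card (Tup r n)) ^ 2 =
    coll h r - 1 := by
  have hN := cT (n := n) (r := r)
  set N : ℝ := (Fintype.card (Tup r n) : ℝ) with hNdef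
  rw [coll_eq]
  have h1 : ∀ b : Tup r n, ∑ c, (Qk h b c - 1 / N) ^ 2 = ∑ c, Qk h b c ^ 2 - 1 / N := by
    intro b
    have h2 : ∀ c : Tup r n, (Qk h b c - 1 / N) ^ 2 =
        Qk h b c ^ 2 - 2 / N * Qk h b c + (1 / N) ^ 2 := by
      intro c; ring
    simp only [h2]
    rw [sum_add_distrib, sum_sub_distrib, ← mul_sum, Qk_row, sum_const, card_univ, nsmul_eq_mul,
      ← hNdef]
    field_simp
    ring
  simp only [h1]
  rw [sum_sub_distrib, sum_const, card_univ, nsmul_eq_mul, ← hNdef]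
  field_simp

lemma one_le_coll : 1 ≤ coll h r := by
  have h1 := coll_sub h (r := r)
  have h2 : 0 ≤ ∑ b : Tup r n, ∑ c, (Qk h b c - 1 / Fintype.card (Tup r n)) ^ 2 :=
    sum_nonneg fun _ _ => sum_nonneg fun _ _ => sq_nonneg _
  linarith

/-- **contraction** -/
theorem av_contract (f : Tup r n → ℝ) (hf : ∑ b, f b = 0) :
    ∑ b, av h f b ^ 2 ≤ (coll h r - 1) * ∑ b, f b ^ 2 := by
  rw [← coll_sub, sum_mul]
  refine sum_le_sum fun b _ => ?_
  have h1 : av h f b = ∑ c, (Qk h b c - 1 / Fintype.card (Tup r n)) * f c := by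
    rw [av_eq]
    simp only [sub_mul]
    rw [sum_sub_distrib, ← mul_sum, hf]
    ring
  rw [h1]
  exact sum_mul_sq_le_sq_mul_sq _ _ _

lemma av_iter (f : Tup r n → ℝ) (hf : ∑ b, f b = 0) (t : ℕ) :
    ∑ b, ((av h)^[t] f b) ^ 2 ≤ (coll h r - 1) ^ t * ∑ b, f b ^ 2 ∧ ∑ b, (av h)^[t] f b = 0 := by
  have h1 := one_le_coll h (r := r)
  induction t with
  | zero => simpa using hf
  | succ t ih =>
    rw [Function.iterate_succ_apply']
    refine ⟨?_, by rw [sum_av]; exact ih.2⟩
    calc _ ≤ (coll h r - 1) * ∑ b, ((av h)^[t] f b) ^ 2 := av_contract h _ ih.2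
      _ ≤ (coll h r - 1) * ((coll h r - 1) ^ t * ∑ b, f b ^ 2) :=
          mul_le_mul_of_nonneg_left ih.1 (by linarith)
      _ = _ := by rw [pow_succ]; ring

lemma av_sub (f : Tup r n → ℝ) (a : ℝ) : av h (fun b => f b - a) = fun b => av h f b - a := by
  funext b
  unfold av
  rw [sum_sub_distrib, sum_const, card_univ, nsmul_eq_mul, sub_div, mul_div_cancel_left₀]
  exact (cU (U := U)).ne'

lemma av_iter_sub (f : Tup r n → ℝ) (a : ℝ) (t : ℕ) :
    (av h)^[t] (fun b => f b - a) = fun b => (av h)^[t] f b - a := by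
  induction t with
  | zero => rfl
  | succ t ih => rw [Function.iterate_succ_apply', ih, av_sub, Function.iterate_succ_apply']

/-- mixing of the iterates -/
theorem av_mix (c b : Tup r n) (t : ℕ) :
    ((av h)^[t] (fun b => if b = c then 1 else 0) b - 1 / Fintype.card (Tup r n)) ^ 2 ≤
      (coll h r - 1) ^ t := by
  have hN := cT (n := n) (r := r)
  set N : ℝ := (Fintype.card (Tup r n) : ℝ) with hNdef
  have hN1 : 1 ≤ N := by
    rw [hNdef]
    exact_mod_cast Fintype.card_pos
  have h1 : ∑ b : Tup r n, ((if b = c then (1 : ℝ) else 0) - 1 / N) = 0 := by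
    rw [sum_sub_distrib, sum_ite_eq', sum_const, card_univ, nsmul_eq_mul, ← hNdef]
    simp only [mem_univ, if_true]
    field_simp
    ring
  have h2 : ∑ b : Tup r n, ((if b = c then (1 : ℝ) else 0) - 1 / N) ^ 2 ≤ 1 := by
    have h3 : ∀ b : Tup r n, ((if b = c then (1 : ℝ) else 0) - 1 / N) ^ 2 =
        (if b = c then (1 : ℝ) else 0) * (1 - 2 / N) + (1 / N) ^ 2 := by
      intro b
      split_ifs
      · ring
      · ring
    simp only [h3]
    rw [sum_add_distrib, ← sum_mul, sum_ite_eq', sum_const, card_univ, nsmul_eq_mul, ← hNdef]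
    simp only [mem_univ, if_true, one_mul]
    have : N * (1 / N) ^ 2 = 1 / N := by field_simp
    rw [this]
    have h4 : 0 ≤ 1 / N := by positivity
    have h5 : 2 / N = 2 * (1 / N) := by ring
    rw [h5]
    linarith
  have h3 := (av_iter h _ h1 t).1
  rw [av_iter_sub] at h3
  have h4 : ((av h)^[t] (fun b => if b = c then 1 else 0) b - 1 / N) ^ 2 ≤
      ∑ b, ((av h)^[t] (fun b => if b = c then 1 else 0) b - 1 / N) ^ 2 :=
    single_le_sum (f := fun b => ((av h)^[t] (fun b => if b = c then 1 else 0) b - 1 / N) ^ 2)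
      (fun _ _ => sq_nonneg _) (mem_univ b)
  have h5 := one_le_coll h (r := r)
  calc _ ≤ _ := h4
    _ ≤ _ := h3
    _ ≤ (coll h r - 1) ^ t * 1 := mul_le_mul_of_nonneg_left h2 (pow_nonneg (by linarith) _)
    _ = _ := mul_one _

end Gen

section Seq
variable {n r : ℕ} {U : Type} [Fintype U] [Nonempty U] (h : U → Alt n)

/-- products of sequences -/
def GG : (t : ℕ) → (Fin t → U) → Alt n
  | 0, _ => 1
  | t + 1, w => GG t (Fin.tail w) * h (w 0)

lemma av_iter_eq (f : Tup r n → ℝ) (t : ℕ) (b : Tup r n) :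
    (av h)^[t] f b = (∑ w : Fin t → U, f (mv (GG h t w : Equiv.Perm (Fin n)) b)) /
      (Fintype.card U : ℝ) ^ t := by
  induction t generalizing b with
  | zero => simp [GG]
  | succ t ih =>
    rw [Function.iterate_succ_apply', av]
    simp only [ih]
    rw [← (Fin.consEquiv (fun _ : Fin (t + 1) => U)).sum_comp, Fintype.sum_prod_type, ← sum_div,
      div_div, pow_succ]
    congr 1

lemma GG_mem {k : ℕ} {x : Fin k → Alt n} {ℓ : ℕ} (hh : ∀ u, h u ∈ ball x ℓ) (t : ℕ)
    (w : Fin t → U) : GG h t w ∈ ball x (t * ℓ) := by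
  induction t with
  | zero => exact one_mem_ball
  | succ t ih =>
    rw [GG]
    have := mul_mem_ball (ih (Fin.tail w)) (hh (w 0))
    rwa [Nat.succ_mul]

end Seq

section Words
variable {n : ℕ}

/-- the even permutation of a positive word -/
def pe {j : ℕ} (x : Fin 2 → Alt n) (u : Fin j → Fin 2) : ℕ → Alt n
  | 0 => 1
  | t + 1 => x (gt u t) * pe x u t

lemma pe_apply {j : ℕ} (x : Fin 2 → Alt n) (u : Fin j → Fin 2) (t : ℕ) (b : Fin n) :
    (pe x u t : Equiv.Perm (Fin n)) b =
      rn (fun i => (x i : Equiv.Perm (Fin n))) (fun t => (gt u t, true)) t b := by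
  induction t with
  | zero => simp [pe, rn]
  | succ t ih =>
    rw [pe, rn, Subgroup.coe_mul, Equiv.Perm.mul_apply, ih]
    simp [st]

lemma pe_mem {j : ℕ} (x : Fin 2 → Alt n) (u : Fin j → Fin 2) (t : ℕ) : pe x u t ∈ ball x t := by
  induction t with
  | zero => exact one_mem_ball
  | succ t ih =>
    rw [pe]
    have := mul_mem_ball (gen_mem_ball (x := x) (gt u t)) ih
    rwa [add_comm] at this

/-- the positive words of length `ℓ` -/
def hw (ℓ : ℕ) (x : Fin 2 → Alt n) (u : Fin ℓ → Fin 2) : Alt n := pe x u ℓ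

lemma hw_mem (ℓ : ℕ) (x : Fin 2 → Alt n) (u : Fin ℓ → Fin 2) : hw ℓ x u ∈ ball x ℓ := pe_mem x u ℓ

lemma coll_hw (r ℓ : ℕ) (x : Fin 2 → Alt n) :
    coll (hw ℓ x) r = (∑ p : (Fin ℓ → Fin 2) × (Fin ℓ → Fin 2), (ag n r x p.1 p.2 : ℝ)) /
      (4 : ℝ) ^ ℓ := by
  unfold coll
  have h1 : ((Fintype.card (Fin ℓ → Fin 2) : ℝ)) ^ 2 = 4 ^ ℓ := by
    rw [Fintype.card_fun, Fintype.card_fin, Fintype.card_fin]
    push_cast
    rw [← pow_mul, mul_comm, pow_mul]
    norm_num
  rw [h1]
  congr 1
  refine sum_congr rfl fun p _ => ?_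
  unfold ag
  have h2 : ∀ b : Tup r n, (mv (hw ℓ x p.1 : Equiv.Perm (Fin n)) b =
      mv (hw ℓ x p.2 : Equiv.Perm (Fin n)) b) ↔
      ∀ i, pw (fun i => (x i : Equiv.Perm (Fin n))) p.1 (b i) =
        pw (fun i => (x i : Equiv.Perm (Fin n))) p.2 (b i) := by
    intro b
    constructor
    · intro h i
      have := congrArg (fun z : Tup r n => z i) h
      simp only [mv_apply, hw, pe_apply] at this
      exact this
    · intro h
      apply DFunLike.ext
      intro i
      simp only [mv_apply, hw, pe_apply]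
      exact h i
  simp only [h2]

end Words

end

end Pool.Agent.L0h8.K2
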