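import Pool.Agent.L0h8.K2.Expect
import Pool.Agent.H14R2.RC.Defs

/-!
Pairs of random even permutations: the expected number of tuples on which two positive words
agree.
-/

set_option autoImplicit false
set_option linter.unusedSectionVars false
set_option linter.unusedVariables false

namespace Pool.Agent.L0h8.K2
open Finset RC14

section Count
variable {n k : ℕ}

/-- the permutations satisfy the constraints -/
def Sat (x : Fin k → Equiv.Perm (Fin n)) (C : Finset (Fin k × Fin n × Fin n)) : Prop :=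
  ∀ c ∈ C, x c.1 c.2.1 = c.2.2

/-- a transposition outside of a small set -/
lemma exists_swap (D : Finset (Fin n)) (hD : #D + 2 ≤ n) :
    ∃ τ : Equiv.Perm (Fin n), Equiv.Perm.sign τ = -1 ∧ ∀ a ∈ D, τ a = a := by
  classical
  have h1 : 1 < #(univ \ D) := by
    rw [card_sdiff_of_subset (subset_univ _), card_univ, Fintype.card_fin]; omega
  obtain ⟨a, ha, b, hb, hab⟩ := one_lt_card.1 h1
  rw [mem_sdiff] at ha hb
  refine ⟨Equiv.swap a b, Equiv.Perm.sign_swap hab, fun c hc => ?_⟩
  exact Equiv.swap_apply_of_ne_of_ne (fun h => ha.2 (h ▸ hc)) (fun h => hb.2 (h ▸ hc))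

/-- the number of tuples of even permutations satisfying constraints -/
theorem alt_count (N : ℕ) (hN : N + 2 ≤ n) (C : Finset (Fin k × Fin n × Fin n)) (hC : #C ≤ N) :
    (Nat.card {x : Fin k → Alt n // Sat (fun i => (x i : Equiv.Perm (Fin n))) C} : ℝ) ≤
      (Fintype.card (Alt n) : ℝ) ^ k * (1 / ((n : ℝ) - N)) ^ #C := by
  classical
  have hD : ∀ i : Fin k, ∃ τ : Equiv.Perm (Fin n), Equiv.Perm.sign τ = -1 ∧
      ∀ c ∈ C, c.1 = i → τ c.2.1 = c.2.1 := by
    intro i
    obtain ⟨τ, h1, h2⟩ := exists_swap ((C.filter fun c => c.1 = i).image fun c => c.2.1) (by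
      have : #((C.filter fun c => c.1 = i).image fun c => c.2.1) ≤ #C :=
        card_image_le.trans (card_filter_le _ _)
      omega)
    exact ⟨τ, h1, fun c hc hi => h2 _ (mem_image_of_mem _ (mem_filter.2 ⟨hc, hi⟩))⟩
  choose τ hτ1 hτ2 using hD
  set f : {x : Fin k → Alt n // Sat (fun i => (x i : Equiv.Perm (Fin n))) C} × (Fin k → Bool) →
      {x : Fin k → Equiv.Perm (Fin n) // ∀ c ∈ C, x c.1 c.2.1 = c.2.2} := fun p =>
    ⟨fun i => (p.1.1 i : Equiv.Perm (Fin n)) * (if p.2 i then τ i else 1), by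
      intro c hc
      simp only
      split_ifs
      · rw [Equiv.Perm.mul_apply, hτ2 c.1 c hc rfl]
        exact p.1.2 c hc
      · rw [mul_one]
        exact p.1.2 c hc⟩ with hf
  have hinj : Function.Injective f := by
    rintro ⟨x, ε⟩ ⟨y, η⟩ h
    have h1 : ∀ i, (x.1 i : Equiv.Perm (Fin n)) * (if ε i then τ i else 1) =
        (y.1 i : Equiv.Perm (Fin n)) * (if η i then τ i else 1) := fun i =>
      congrFun (congrArg Subtype.val h) i
    have hsg : ∀ g : Alt n, Equiv.Perm.sign (g : Equiv.Perm (Fin n)) = 1 := fun g =>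
      Equiv.Perm.mem_alternatingGroup.1 g.2
    have h2 : ∀ i, ε i = η i := by
      intro i
      have h3 := congrArg Equiv.Perm.sign (h1 i)
      rw [Equiv.Perm.sign_mul, Equiv.Perm.sign_mul, hsg, hsg, one_mul, one_mul] at h3
      cases h4 : ε i <;> cases h5 : η i <;> rw [h4, h5] at h3 <;>
        simp [hτ1] at h3 ⊢
    have h3 : ε = η := funext h2
    subst h3
    refine Prod.ext (Subtype.ext (funext fun i => Subtype.ext ?_)) rfl
    exact mul_right_cancel (h1 i)
  have h1 := Nat.card_le_card_of_injective f hinj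
  rw [Nat.card_prod] at h1
  have h2 : Nat.card (Fin k → Bool) = 2 ^ k := by
    rw [Nat.card_eq_fintype_card]; simp
  rw [h2] at h1
  have h3 := Pool.Agent.R236.Den.CNT n N (by omega) C hC
  have hn : Nontrivial (Fin n) := Fin.nontrivial_iff_two_le.2 (by omega)
  have h4 : n.factorial = 2 * Fintype.card (Alt n) := by
    have := two_mul_card_alternatingGroup (α := Fin n)
    rw [Fintype.card_perm, Fintype.card_fin] at this
    exact this.symm
  have hnN : (0 : ℝ) < (n : ℝ) - N := by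
    have : (N : ℝ) + 2 ≤ n := by exact_mod_cast hN
    linarith
  have h5 : (Nat.card {x : Fin k → Alt n // Sat (fun i => (x i : Equiv.Perm (Fin n))) C} : ℝ) *
      2 ^ k * ((n : ℝ) - N) ^ #C ≤ (2 * (Fintype.card (Alt n) : ℝ)) ^ k := by
    have h6 : Nat.card {x : Fin k → Alt n // Sat (fun i => (x i : Equiv.Perm (Fin n))) C} *
        2 ^ k * (n - N) ^ #C ≤ n.factorial ^ k := (Nat.mul_le_mul_right _ h1).trans h3
    rw [h4] at h6
    have h7 : ((n - N : ℕ) : ℝ) = (n : ℝ) - N := by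
      rw [Nat.cast_sub (by omega)]
    rw [← h7]
    exact_mod_cast h6
  rw [mul_pow] at h5
  rw [one_div, inv_pow, ← div_eq_mul_inv, le_div_iff₀ (by positivity)]
  have h8 : (0 : ℝ) < 2 ^ k := by positivity
  nlinarith [h5]

end Count

/-! ### running a word -/

section Run
variable {n k : ℕ}

/-- running a word -/
def rn (x : Fin k → Equiv.Perm (Fin n)) (s : ℕ → Ltr k) : ℕ → Fin n → Fin n
  | 0, b => b
  | t + 1, b => st x (s t) (rn x s t b)

lemma rn_inj (x : Fin k → Equiv.Perm (Fin n)) (s : ℕ → Ltr k) (t : ℕ) :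
    Function.Injective (rn x s t) := by
  induction t with
  | zero => exact fun _ _ h => h
  | succ t ih => exact fun _ _ h => ih (st_inj _ _ h)

lemma rn_congr (x : Fin k → Equiv.Perm (Fin n)) {s s' : ℕ → Ltr k} {t : ℕ}
    (h : ∀ t' < t, s t' = s' t') (b : Fin n) : rn x s t b = rn x s' t b := by
  induction t with
  | zero => rfl
  | succ t ih =>
    rw [rn, rn, ih (fun t' ht => h t' (by omega)), h t (by omega)]

/-- the permutation of a positive word `u` -/
def pw {j : ℕ} (x : Fin 2 → Equiv.Perm (Fin n)) (u : Fin j → Fin 2) (b : Fin n) : Fin n :=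
  rn x (fun t => (gt u t, true)) j b

variable {j : ℕ} {u v : Fin j → Fin 2}

lemma rn_wd_back (x : Fin 2 → Equiv.Perm (Fin n)) {b : Fin n} (h : pw x u b = pw x v b) (d : ℕ)
    (hd : d ≤ j) : rn x (wd u v) (j + d) b = rn x (fun t => (gt v t, true)) (j - d) b := by
  induction d with
  | zero =>
    rw [add_zero, Nat.sub_zero]
    refine (rn_congr x (fun t ht => ?_) b).trans h
    rw [wd_lt ht]
  | succ d ih =>
    rw [← add_assoc, rn, ih (by omega), wd_ge (by omega) (by omega)]
    obtain ⟨z, hz⟩ : ∃ z, j - d = z + 1 := ⟨j - d - 1, by omega⟩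
    have e1 : j - (d + 1) = z := by omega
    have e2 : 2 * j - 1 - (j + d) = z := by omega
    rw [hz, e1, e2, rn]
    exact st_inv x (gt v z, true) _

lemma rn_wd_closed (x : Fin 2 → Equiv.Perm (Fin n)) {b : Fin n} (h : pw x u b = pw x v b) :
    rn x (wd u v) (2 * j) b = b := by
  have := rn_wd_back x h j le_rfl
  rw [Nat.sub_self] at this
  rw [two_mul, this]
  rfl

/-- the closed walks of a tuple on which `u` and `v` agree -/
def clOf {ι : Type*} (hj : 1 ≤ j) (h0 : gt u 0 ≠ gt v 0) (h1 : gt u (j - 1) ≠ gt v (j - 1))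
    (x : Fin 2 → Equiv.Perm (Fin n)) (b : ι → Fin n) (hb : Function.Injective b)
    (h : ∀ i, pw x u (b i) = pw x v (b i)) : Cl n 2 ι (2 * j) where
  x := x
  s := wd u v
  V := fun i t => rn x (wd u v) t (b i)
  hL := by omega
  hs := wd_per
  hred := wd_red hj h0 h1
  hV := fun i t => rfl
  hcl := fun i => rn_wd_closed x (h i)
  hinj := hb

end Run

/-- **the expected number of tuples on which `u` and `v` agree**, for good pairs of words with
different first and last letters -/
theorem expect_core {n j r : ℕ} {u v : Fin j → Fin 2} (hj : 1 ≤ j) (h0 : gt u 0 ≠ gt v 0)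
    (h1 : gt u (j - 1) ≠ gt v (j - 1))
    (hgood : ∀ S : Finset (Fin r), ∀ m, ¬ Viol n S m u v)
    (N : ℕ) (M : ℝ) (hN : r * (2 * j) ≤ N) (hNn : N + 2 ≤ n) (hM0 : 0 < M)
    (hM : M ^ 7 ≤ (n : ℝ) - N) (hNM : 2 * Real.exp 2 * (r * ((2 * j : ℕ) : ℝ) ^ 2) ≤ M) :
    (∑ x : Fin 2 → Alt n, (Nat.card {b : Tup r n // ∀ i,
      pw (fun i => (x i : Equiv.Perm (Fin n))) u (b i) =
        pw (fun i => (x i : Equiv.Perm (Fin n))) v (b i)} : ℝ)) ≤
      (Fintype.card (Alt n) : ℝ) ^ 2 * ((n / ((n : ℝ) - N)) ^ N *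
        (1 + (n / ((n : ℝ) - N)) ^ N * (2 * (r * ((2 * j : ℕ) : ℝ) ^ 2 / M)))) := by
  classical
  have hnN : (0 : ℝ) < (n : ℝ) - N := by
    have : (N : ℝ) + 2 ≤ n := by exact_mod_cast hNn
    linarith
  set q : ℝ := 1 / ((n : ℝ) - N) with hq
  have hq0 : 0 < q := by positivity
  have hnq : (n : ℝ) / ((n : ℝ) - N) = n * q := by rw [hq]; ring
  have hnq1 : 1 ≤ (n : ℝ) * q := by
    rw [← hnq, one_le_div hnN]
    have : (0 : ℝ) ≤ N := Nat.cast_nonneg _
    linarith
  set T : Finset (Fin r → Fin (2 * j) → Fin n) :=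
    univ.filter fun F => ∃ W : Cl n 2 (Fin r) (2 * j), W.s = wd u v ∧ W.F = F with hT
  have hsum := sum_all (n := n) (r := r) hj h0 (fun S hS W hW hB => by
    by_contra hc
    push Not at hc
    exact hgood S W.ex ⟨W, hW, hB, rfl, hc, hS⟩) T (fun F hF => (mem_filter.1 hF).2) N q M hN hq0
    hnq1 hM0 (by rw [hq, one_div, inv_mul_eq_div, div_le_one hnN]; exact hM) hNM
  rw [hnq]
  -- double counting
  have hcount : ∑ x : Fin 2 → Alt n, Nat.card {b : Tup r n // ∀ i,
      pw (fun i => (x i : Equiv.Perm (Fin n))) u (b i) =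
        pw (fun i => (x i : Equiv.Perm (Fin n))) v (b i)} ≤
      ∑ F ∈ T, Nat.card {x : Fin 2 → Alt n //
        Sat (fun i => (x i : Equiv.Perm (Fin n))) (edgF (wd u v) F)} := by
    have e1 : ∑ x : Fin 2 → Alt n, Nat.card {b : Tup r n // ∀ i,
      pw (fun i => (x i : Equiv.Perm (Fin n))) u (b i) =
        pw (fun i => (x i : Equiv.Perm (Fin n))) v (b i)} =
        Nat.card (Σ x : Fin 2 → Alt n, {b : Tup r n // ∀ i,
      pw (fun i => (x i : Equiv.Perm (Fin n))) u (b i) =
        pw (fun i => (x i : Equiv.Perm (Fin n))) v (b i)}) := by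
      rw [Nat.card_sigma]
    have e2 : ∑ F ∈ T, Nat.card {x : Fin 2 → Alt n //
        Sat (fun i => (x i : Equiv.Perm (Fin n))) (edgF (wd u v) F)} =
        Nat.card (Σ F : T, {x : Fin 2 → Alt n //
        Sat (fun i => (x i : Equiv.Perm (Fin n))) (edgF (wd u v) F.1)}) := by
      rw [Nat.card_sigma, ← sum_coe_sort]
    rw [e1, e2]
    have hW : ∀ p : (Σ x : Fin 2 → Alt n, {b : Tup r n // ∀ i,
        pw (fun i => (x i : Equiv.Perm (Fin n))) u (b i) =
        pw (fun i => (x i : Equiv.Perm (Fin n))) v (b i)}),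
        ∃ W : Cl n 2 (Fin r) (2 * j), W.s = wd u v ∧
          W.x = (fun i => (p.1 i : Equiv.Perm (Fin n))) ∧ ∀ i, W.V i 0 = p.2.1 i := by
      intro p
      exact ⟨clOf hj h0 h1 _ (fun i => p.2.1 i) p.2.1.injective p.2.2, rfl, rfl, fun i => rfl⟩
    choose W hWs hWx hW0 using hW
    refine Nat.card_le_card_of_injective (fun p => ⟨⟨(W p).F, ?_⟩, ⟨p.1, ?_⟩⟩) ?_
    · rw [hT, mem_filter]
      exact ⟨mem_univ _, W p, hWs p, rfl⟩
    · intro c hc
      have hc' : c ∈ edgF (wd u v) (W p).F := hc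
      rw [← hWs p, ← (W p).rev_eq_edgF] at hc'
      obtain ⟨i, t, -, h2⟩ := (W p).mem_rev.1 hc'
      rw [← h2]
      have h3 := (st_iff (W p).x ((W p).s t) ((W p).V i t) ((W p).V i (t + 1))).2 ((W p).hV i t).symm
      rw [hWx p] at h3
      exact h3
    · intro p p' h
      have h2 : (W p).F = (W p').F := congrArg Subtype.val (congrArg Sigma.fst h)
      have h3 : p.1 = p'.1 := by
        have := congrArg (fun z : (Σ F : T, {x : Fin 2 → Alt n //
          Sat (fun i => (x i : Equiv.Perm (Fin n))) (edgF (wd u v) F.1)}) => z.2.1) h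
        exact this
      obtain ⟨x, b⟩ := p
      obtain ⟨x', b'⟩ := p'
      simp only at h3
      subst h3
      congr 1
      apply Subtype.ext
      apply DFunLike.ext
      intro i
      have h4 := hW0 ⟨x, b⟩ i
      have h5 := hW0 ⟨x, b'⟩ i
      simp only at h4 h5
      rw [← h4, ← h5]
      exact congrFun (congrFun h2 i) ⟨0, by omega⟩
  have hcount' : (∑ x : Fin 2 → Alt n, (Nat.card {b : Tup r n // ∀ i,
      pw (fun i => (x i : Equiv.Perm (Fin n))) u (b i) =
        pw (fun i => (x i : Equiv.Perm (Fin n))) v (b i)} : ℝ)) ≤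
      ∑ F ∈ T, (Nat.card {x : Fin 2 → Alt n //
        Sat (fun i => (x i : Equiv.Perm (Fin n))) (edgF (wd u v) F)} : ℝ) := by
    exact_mod_cast hcount
  refine hcount'.trans ?_
  calc ∑ F ∈ T, (Nat.card {x : Fin 2 → Alt n //
        Sat (fun i => (x i : Equiv.Perm (Fin n))) (edgF (wd u v) F)} : ℝ)
      ≤ ∑ F ∈ T, (Fintype.card (Alt n) : ℝ) ^ 2 * q ^ #(edgF (wd u v) F) := by
        refine sum_le_sum fun F _ => ?_
        refine alt_count N hNn _ ?_
        refine (card_edgF _ _).trans ?_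
        rw [Fintype.card_fin]; exact hN
    _ = (Fintype.card (Alt n) : ℝ) ^ 2 * ∑ F ∈ T, q ^ #(edgF (wd u v) F) := by rw [mul_sum]
    _ ≤ _ := by gcongr

end Pool.Agent.L0h8.K2
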