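import Pool.Agent.L0h8.ND.Comb
import Pool.Agent.H120R2.RC.CHAR

/-!
Counting even permutations with cycles of prescribed lengths, by counting patterns.
-/

set_option autoImplicit false
set_option linter.unusedSectionVars false

namespace Pool.Agent.L0h8.K2
open Finset RC14 Function

section Pattern
variable {n : ℕ} {ι : Type} [Fintype ι]

/-- pairs of a permutation and an embedded copy of the pattern `π`: at most `n!` -/
theorem pat_le (π : Equiv.Perm ι) :
    Nat.card {p : Equiv.Perm (Fin n) × (ι ↪ Fin n) // ∀ i, p.1 (p.2 i) = p.2 (π i)} ≤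
      n.factorial := by
  rcases isEmpty_or_nonempty (ι ↪ Fin n) with h | ⟨⟨e⟩⟩
  · have : IsEmpty {p : Equiv.Perm (Fin n) × (ι ↪ Fin n) // ∀ i, p.1 (p.2 i) = p.2 (π i)} :=
      ⟨fun p => h.elim p.1.2⟩
    rw [Nat.card_of_isEmpty]
    exact Nat.zero_le _
  · choose ext hext using fun t : ι ↪ Fin n => ND.exists_perm e t e.injective t.injective
    obtain ⟨π', hπ'⟩ := ND.exists_perm e (fun i => e (π i)) e.injective
      (e.injective.comp π.injective)
    have hπi : ∀ i, π'⁻¹ (e i) = e (π⁻¹ i) := by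
      intro i
      rw [Equiv.Perm.inv_eq_iff_eq, hπ' (π⁻¹ i)]
      congr 1
      exact (π.apply_symm_apply i).symm
    have key : ∀ p : {p : Equiv.Perm (Fin n) × (ι ↪ Fin n) // ∀ i, p.1 (p.2 i) = p.2 (π i)},
        ∀ i, (p.1.1 * ext p.1.2 * π'⁻¹) (e i) = p.1.2 i := by
      intro p i
      rw [Equiv.Perm.mul_apply, Equiv.Perm.mul_apply, hπi, hext, p.2]
      congr 1
      exact π.apply_symm_apply i
    have hinj : Function.Injective (fun p : {p : Equiv.Perm (Fin n) × (ι ↪ Fin n) //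
        ∀ i, p.1 (p.2 i) = p.2 (π i)} => p.1.1 * ext p.1.2 * π'⁻¹) := by
      intro p q hpq
      have h1 : p.1.2 = q.1.2 := by
        ext i
        rw [← key p i, ← key q i]
        exact congrArg (fun σ : Equiv.Perm (Fin n) => ((σ (e i) : Fin n) : ℕ)) hpq
      have h2 : p.1.1 = q.1.1 := by
        have h3 : p.1.1 * ext p.1.2 * π'⁻¹ = q.1.1 * ext q.1.2 * π'⁻¹ := hpq
        rw [h1] at h3
        exact mul_right_cancel (mul_right_cancel h3)
      exact Subtype.ext (Prod.ext h2 h1)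
    refine (Nat.card_le_card_of_injective _ hinj).trans ?_
    rw [Nat.card_eq_fintype_card, Fintype.card_perm, Fintype.card_fin]

/-- pairs of an even permutation and an embedded copy of the pattern `π`: at least `|A_n|` -/
theorem pat_ge (hι : Fintype.card ι + 2 ≤ n) (π : Equiv.Perm ι) :
    Fintype.card (Alt n) ≤
    Nat.card {p : Alt n × (ι ↪ Fin n) // ∀ i, (p.1 : Equiv.Perm (Fin n)) (p.2 i) = p.2 (π i)} := by
  obtain ⟨e⟩ : Nonempty (ι ↪ Fin n) := Function.Embedding.nonempty_of_card_le (by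
    rw [Fintype.card_fin]; omega)
  choose h hh using fun t : ι ↪ Fin n => RC14.CHAR.trans_emb hι e t
  obtain ⟨a0, ha0⟩ := RC14.CHAR.trans_emb hι e (π.toEmbedding.trans e)
  let T : Alt n → (ι ↪ Fin n) := fun σ => e.trans (σ : Equiv.Perm (Fin n)).toEmbedding
  have hT : ∀ σ i, T σ i = (σ : Equiv.Perm (Fin n)) (e i) := fun σ i => rfl
  have hinv : ∀ t i, ((h t : Alt n) : Equiv.Perm (Fin n))⁻¹ (t i) = e i := by
    intro t i
    rw [Equiv.Perm.inv_eq_iff_eq, hh]
  have hok : ∀ σ : Alt n, ∀ i,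
      ((σ * a0 * (h (T σ))⁻¹ : Alt n) : Equiv.Perm (Fin n)) (T σ i) = T σ (π i) := by
    intro σ i
    rw [Subgroup.coe_mul, Subgroup.coe_mul, Subgroup.coe_inv, Equiv.Perm.mul_apply,
      Equiv.Perm.mul_apply, hinv, ha0, hT]
    rfl
  rw [← Nat.card_eq_fintype_card]
  refine Nat.card_le_card_of_injective (fun σ : Alt n =>
    (⟨(σ * a0 * (h (T σ))⁻¹, T σ), hok σ⟩ : {p : Alt n × (ι ↪ Fin n) //
      ∀ i, (p.1 : Equiv.Perm (Fin n)) (p.2 i) = p.2 (π i)})) ?_
  intro σ τ hστ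
  have h1 := congrArg (fun p : {p : Alt n × (ι ↪ Fin n) //
      ∀ i, (p.1 : Equiv.Perm (Fin n)) (p.2 i) = p.2 (π i)} => p.1.1) hστ
  have h2 := congrArg (fun p : {p : Alt n × (ι ↪ Fin n) //
      ∀ i, (p.1 : Equiv.Perm (Fin n)) (p.2 i) = p.2 (π i)} => p.1.2) hστ
  simp only at h1 h2
  rw [h2] at h1
  exact mul_right_cancel (mul_right_cancel h1)

end Pattern

section Orbit
variable {n : ℕ}

/-- the length of the cycle of `y` -/
noncomputable abbrev mp (g : Equiv.Perm (Fin n)) (y : Fin n) : ℕ := minimalPeriod g y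

lemma per_mem (g : Equiv.Perm (Fin n)) (y : Fin n) : y ∈ periodicPts g := by
  refine ⟨orderOf g, orderOf_pos g, ?_⟩
  change g^[orderOf g] y = y
  rw [Equiv.Perm.iterate_eq_pow, pow_orderOf_eq_one]
  rfl

lemma mp_pos (g : Equiv.Perm (Fin n)) (y : Fin n) : 0 < mp g y :=
  minimalPeriod_pos_of_mem_periodicPts (per_mem g y)

lemma pow_mp (g : Equiv.Perm (Fin n)) (y : Fin n) : (g ^ mp g y) y = y := by
  rw [← Equiv.Perm.iterate_eq_pow]
  exact iterate_minimalPeriod

lemma pow_eq_iff (g : Equiv.Perm (Fin n)) (y : Fin n) (m : ℕ) : (g ^ m) y = y ↔ mp g y ∣ m := by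
  rw [← Equiv.Perm.iterate_eq_pow]
  exact isPeriodicPt_iff_minimalPeriod_dvd

lemma mp_pow_apply (g : Equiv.Perm (Fin n)) (y : Fin n) (i : ℕ) : mp g ((g ^ i) y) = mp g y := by
  rw [← Equiv.Perm.iterate_eq_pow]
  exact minimalPeriod_apply_iterate (per_mem g y) i

/-- the cycle of `y` -/
noncomputable def orb (g : Equiv.Perm (Fin n)) (y : Fin n) : Finset (Fin n) :=
  (range (mp g y)).image fun i => (g ^ i) y

lemma pow_inj_lt (g : Equiv.Perm (Fin n)) (y : Fin n) {i j : ℕ} (hi : i < mp g y)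
    (hj : j < mp g y) (h : (g ^ i) y = (g ^ j) y) : i = j := by
  rw [← Equiv.Perm.iterate_eq_pow, ← Equiv.Perm.iterate_eq_pow] at h
  exact iterate_injOn_Iio_minimalPeriod hi hj h

lemma card_orb (g : Equiv.Perm (Fin n)) (y : Fin n) : #(orb g y) = mp g y := by
  unfold orb
  rw [card_image_of_injOn, card_range]
  intro i hi j hj h
  exact pow_inj_lt g y (mem_range.1 hi) (mem_range.1 hj) h

lemma pow_mem_orb (g : Equiv.Perm (Fin n)) (y : Fin n) (i : ℕ) : (g ^ i) y ∈ orb g y := by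
  unfold orb
  rw [mem_image]
  refine ⟨i % mp g y, mem_range.2 (Nat.mod_lt _ (mp_pos g y)), ?_⟩
  conv_rhs => rw [← Nat.mod_add_div i (mp g y)]
  rw [pow_add, Equiv.Perm.mul_apply]
  congr 1
  exact ((pow_eq_iff g y _).2 (dvd_mul_right _ _)).symm

lemma mem_orb_iff {g : Equiv.Perm (Fin n)} {y z : Fin n} : z ∈ orb g y ↔ ∃ i, (g ^ i) y = z := by
  constructor
  · intro h
    obtain ⟨i, -, hi⟩ := mem_image.1 h
    exact ⟨i, hi⟩
  · rintro ⟨i, rfl⟩
    exact pow_mem_orb g y i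

lemma mp_of_mem_orb {g : Equiv.Perm (Fin n)} {y z : Fin n} (h : z ∈ orb g y) : mp g z = mp g y := by
  obtain ⟨i, rfl⟩ := mem_orb_iff.1 h
  exact mp_pow_apply g y i

lemma orb_disj {g : Equiv.Perm (Fin n)} {y z : Fin n} (h : z ∉ orb g y) :
    Disjoint (orb g y) (orb g z) := by
  rw [disjoint_left]
  intro w hw hw'
  apply h
  obtain ⟨i, hi⟩ := mem_orb_iff.1 hw
  obtain ⟨j, hj, hj'⟩ := mem_image.1 hw'
  rw [mem_range] at hj
  refine mem_orb_iff.2 ⟨mp g z - j + i, ?_⟩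
  rw [pow_add, Equiv.Perm.mul_apply, hi, ← hj', ← Equiv.Perm.mul_apply, ← pow_add,
    Nat.sub_add_cancel hj.le]
  exact pow_mp g z

lemma add_le_of_notMem {g : Equiv.Perm (Fin n)} {y z : Fin n} (h : z ∉ orb g y) :
    mp g y + mp g z ≤ n := by
  rw [← card_orb g y, ← card_orb g z, ← card_union_of_disjoint (orb_disj h)]
  simpa using card_le_univ (orb g y ∪ orb g z)

lemma add_le_of_ne {g : Equiv.Perm (Fin n)} {y z : Fin n} (h : mp g y ≠ mp g z) :
    mp g y + mp g z ≤ n :=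
  add_le_of_notMem fun hz => h (mp_of_mem_orb hz).symm

/-- the points in cycles of length `L` -/
noncomputable def Np (g : Equiv.Perm (Fin n)) (L : ℕ) : Finset (Fin n) :=
  univ.filter fun y => mp g y = L

lemma mem_Np {g : Equiv.Perm (Fin n)} {L : ℕ} {y : Fin n} : y ∈ Np g L ↔ mp g y = L := by
  simp [Np]

lemma le_card_Np {g : Equiv.Perm (Fin n)} {L : ℕ} {y : Fin n} (h : mp g y = L) :
    L ≤ #(Np g L) := by
  have h1 : orb g y ⊆ Np g L := by
    intro z hz
    rw [mem_Np, mp_of_mem_orb hz, h]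
  have h2 := card_le_card h1
  rwa [card_orb, h] at h2

lemma card_Np_le {g : Equiv.Perm (Fin n)} {L : ℕ} (hL : n < 2 * L) : #(Np g L) ≤ L := by
  rcases (Np g L).eq_empty_or_nonempty with h | ⟨y, hy⟩
  · rw [h, card_empty]; exact Nat.zero_le _
  · rw [mem_Np] at hy
    calc #(Np g L) ≤ #(orb g y) := by
          refine card_le_card fun z hz => ?_
          rw [mem_Np] at hz
          by_contra hcon
          have := add_le_of_notMem hcon
          omega
      _ = L := by rw [card_orb, hy]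

end Orbit

section Counts
variable {n : ℕ}

lemma finRotate_val {L : ℕ} (hL : 1 ≤ L) (i : Fin L) :
    ((finRotate L i : Fin L) : ℕ) = ((i : ℕ) + 1) % L := by
  obtain ⟨l, rfl⟩ : ∃ l, L = l + 1 := ⟨L - 1, by omega⟩
  rw [finRotate_apply, Fin.val_add]
  simp

/-- a lower bound for the number of points of even permutations in cycles of length `L` -/
theorem count_ge {L : ℕ} (hL : 1 ≤ L) (hn : L + 2 ≤ n) :
    Fintype.card (Alt n) ≤ Nat.card {p : Alt n × Fin n // mp (p.1 : Equiv.Perm (Fin n)) p.2 = L} := by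
  refine (pat_ge (ι := Fin L) (by rw [Fintype.card_fin]; exact hn) (finRotate L)).trans ?_
  have hpow : ∀ p : {p : Alt n × (Fin L ↪ Fin n) //
      ∀ i, (p.1 : Equiv.Perm (Fin n)) (p.2 i) = p.2 (finRotate L i)}, ∀ (i : ℕ) (hi : i < L),
      ((p.1.1 : Equiv.Perm (Fin n)) ^ i) (p.1.2 ⟨0, hL⟩) = p.1.2 ⟨i, hi⟩ := by
    intro p i
    induction i with
    | zero => intro hi; simp
    | succ i ih =>
      intro hi
      rw [pow_succ', Equiv.Perm.mul_apply, ih (by omega), p.2]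
      congr 1
      apply Fin.ext
      rw [finRotate_val hL]
      exact Nat.mod_eq_of_lt hi
  have hlast : ∀ p : {p : Alt n × (Fin L ↪ Fin n) //
      ∀ i, (p.1 : Equiv.Perm (Fin n)) (p.2 i) = p.2 (finRotate L i)},
      ((p.1.1 : Equiv.Perm (Fin n)) ^ L) (p.1.2 ⟨0, hL⟩) = p.1.2 ⟨0, hL⟩ := by
    intro p
    obtain ⟨l, rfl⟩ : ∃ l, L = l + 1 := ⟨L - 1, by omega⟩
    rw [pow_succ', Equiv.Perm.mul_apply, hpow p l (by omega), p.2]
    congr 1
    apply Fin.ext
    rw [finRotate_val hL]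
    simp
  refine Nat.card_le_card_of_injective (fun p => (⟨(p.1.1, p.1.2 ⟨0, hL⟩), ?_⟩ :
    {p : Alt n × Fin n // mp (p.1 : Equiv.Perm (Fin n)) p.2 = L})) ?_
  · have h1 : mp (p.1.1 : Equiv.Perm (Fin n)) (p.1.2 ⟨0, hL⟩) ∣ L := (pow_eq_iff _ _ _).1 (hlast p)
    have h2 := Nat.le_of_dvd hL h1
    rcases Nat.lt_or_ge (mp (p.1.1 : Equiv.Perm (Fin n)) (p.1.2 ⟨0, hL⟩)) L with h3 | h3
    · exfalso
      have h4 := hpow p _ h3
      rw [pow_mp] at h4
      have h5 := congrArg Fin.val (p.1.2.injective h4)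
      have h6 := mp_pos (p.1.1 : Equiv.Perm (Fin n)) (p.1.2 ⟨0, hL⟩)
      simp only at h5
      omega
    · exact le_antisymm h2 h3
  · intro p q hpq
    have h1 := congrArg (fun r : {p : Alt n × Fin n // mp (p.1 : Equiv.Perm (Fin n)) p.2 = L} =>
      r.1.1) hpq
    have h2 := congrArg (fun r : {p : Alt n × Fin n // mp (p.1 : Equiv.Perm (Fin n)) p.2 = L} =>
      r.1.2) hpq
    simp only at h1 h2
    refine Subtype.ext (Prod.ext h1 ?_)
    ext i
    rw [← hpow p i i.2, ← hpow q i i.2, h1, h2]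

/-- an upper bound for the number of pairs of points in cycles of lengths `d` and `L` -/
theorem count_le {d L : ℕ} (hd : 1 ≤ d) (hL : 1 ≤ L) (hdL : d ≠ L) :
    Nat.card {p : Alt n × Fin n × Fin n // mp (p.1 : Equiv.Perm (Fin n)) p.2.1 = d ∧
      mp (p.1 : Equiv.Perm (Fin n)) p.2.2 = L} ≤ n.factorial := by
  refine le_trans ?_ (pat_le (ι := Fin d ⊕ Fin L)
    (Equiv.sumCongr (finRotate d) (finRotate L)))
  have hti : ∀ p : {p : Alt n × Fin n × Fin n // mp (p.1 : Equiv.Perm (Fin n)) p.2.1 = d ∧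
      mp (p.1 : Equiv.Perm (Fin n)) p.2.2 = L}, Function.Injective (Sum.elim
        (fun i : Fin d => ((p.1.1 : Equiv.Perm (Fin n)) ^ (i : ℕ)) p.1.2.1)
        (fun i : Fin L => ((p.1.1 : Equiv.Perm (Fin n)) ^ (i : ℕ)) p.1.2.2)) := by
    intro p
    obtain ⟨⟨g, x, y⟩, h1, h2⟩ := p
    have hcross : ∀ (i j : ℕ), ((g : Equiv.Perm (Fin n)) ^ i) x ≠ ((g : Equiv.Perm (Fin n)) ^ j) y := by
      intro i j hij
      have h3 := congrArg (mp (g : Equiv.Perm (Fin n))) hij
      rw [mp_pow_apply, mp_pow_apply] at h3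
      simp only at h1 h2
      omega
    rintro (a | a) (b | b) hab
    · have := pow_inj_lt (g : Equiv.Perm (Fin n)) x (h1.symm ▸ a.2) (h1.symm ▸ b.2) hab
      congr 1; exact Fin.ext this
    · exact absurd hab (hcross _ _)
    · exact absurd hab.symm (hcross _ _)
    · have := pow_inj_lt (g : Equiv.Perm (Fin n)) y (h2.symm ▸ a.2) (h2.symm ▸ b.2) hab
      congr 1; exact Fin.ext this
  have hrot : ∀ (g : Equiv.Perm (Fin n)) (x : Fin n) (d : ℕ) (hd : 1 ≤ d), mp g x = d →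
      ∀ i : Fin d, g ((g ^ (i : ℕ)) x) = (g ^ ((finRotate d i : Fin d) : ℕ)) x := by
    intro g x d hd hx i
    rw [finRotate_val hd, ← Equiv.Perm.mul_apply, ← pow_succ']
    rcases Nat.lt_or_ge ((i : ℕ) + 1) d with h | h
    · rw [Nat.mod_eq_of_lt h]
    · have h3 : (i : ℕ) + 1 = d := by have := i.2; omega
      rw [h3, Nat.mod_self, pow_zero, Equiv.Perm.one_apply, ← hx]
      exact pow_mp g x
  refine Nat.card_le_card_of_injective (fun p => (⟨((p.1.1 : Equiv.Perm (Fin n)),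
    ⟨_, hti p⟩), ?_⟩ : {p : Equiv.Perm (Fin n) × (Fin d ⊕ Fin L ↪ Fin n) //
      ∀ i, p.1 (p.2 i) = p.2 (Equiv.sumCongr (finRotate d) (finRotate L) i)})) ?_
  · rintro (i | i)
    · exact hrot _ _ d hd p.2.1 i
    · exact hrot _ _ L hL p.2.2 i
  · intro p q hpq
    have h1 := congrArg (fun r : {p : Equiv.Perm (Fin n) × (Fin d ⊕ Fin L ↪ Fin n) //
      ∀ i, p.1 (p.2 i) = p.2 (Equiv.sumCongr (finRotate d) (finRotate L) i)} => r.1.1) hpq
    have h2 := congrArg (fun r : {p : Equiv.Perm (Fin n) × (Fin d ⊕ Fin L ↪ Fin n) //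
      ∀ i, p.1 (p.2 i) = p.2 (Equiv.sumCongr (finRotate d) (finRotate L) i)} =>
        r.1.2 (Sum.inl ⟨0, hd⟩)) hpq
    have h3 := congrArg (fun r : {p : Equiv.Perm (Fin n) × (Fin d ⊕ Fin L ↪ Fin n) //
      ∀ i, p.1 (p.2 i) = p.2 (Equiv.sumCongr (finRotate d) (finRotate L) i)} =>
        r.1.2 (Sum.inr ⟨0, hL⟩)) hpq
    simp only [Function.Embedding.coeFn_mk, Sum.elim_inl, Sum.elim_inr, pow_zero,
      Equiv.Perm.one_apply] at h1 h2 h3
    exact Subtype.ext (Prod.ext (Subtype.ext h1) (Prod.ext h2 h3))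

end Counts

/-- the number of divisors -/
lemma card_divisors_le_sqrt (L : ℕ) : #(L.divisors) ≤ 2 * Nat.sqrt L := by
  have h1 : L.divisors ⊆ (Icc 1 (Nat.sqrt L)) ∪
      (Icc 1 (Nat.sqrt L)).image (fun d : ℕ => L / d) := by
    intro d hd
    rw [Nat.mem_divisors] at hd
    obtain ⟨⟨e, he⟩, hL⟩ := hd
    have hd0 : 1 ≤ d := by
      rcases Nat.eq_zero_or_pos d with h | h
      · subst h; rw [zero_mul] at he; exact absurd he hL
      · exact h
    have he0 : 1 ≤ e := by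
      rcases Nat.eq_zero_or_pos e with h | h
      · subst h; rw [mul_zero] at he; exact absurd he hL
      · exact h
    rw [mem_union, mem_Icc, mem_image]
    by_cases hle : d ≤ Nat.sqrt L
    · exact Or.inl ⟨hd0, hle⟩
    · right
      refine ⟨e, mem_Icc.2 ⟨he0, ?_⟩, ?_⟩
      · rw [Nat.le_sqrt]
        push Not at hle
        rw [Nat.sqrt_lt] at hle
        by_contra hcon
        push Not at hcon
        have h3 : d < e ∨ e ≤ d := Nat.lt_or_ge d e
        rcases h3 with h3 | h3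
        · have : d * d ≤ d * e := Nat.mul_le_mul_left _ h3.le
          omega
        · have : e * e ≤ d * e := Nat.mul_le_mul_right _ h3
          omega
      · rw [he]
        exact Nat.mul_div_cancel _ he0
  calc #(L.divisors) ≤ _ := card_le_card h1
    _ ≤ #(Icc 1 (Nat.sqrt L)) + #((Icc 1 (Nat.sqrt L)).image (fun d : ℕ => L / d)) :=
        card_union_le _ _
    _ ≤ #(Icc 1 (Nat.sqrt L)) + #(Icc 1 (Nat.sqrt L)) := Nat.add_le_add_left card_image_le _
    _ = 2 * Nat.sqrt L := by rw [Nat.card_Icc]; omega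

end Pool.Agent.L0h8.K2
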