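import Pool.Agent.L0h8.K2.Pairs

/-!
The number of pairs of positive words for which the expected number of agreements is large.
-/

set_option autoImplicit false
set_option linter.unusedSectionVars false
set_option linter.unusedVariables false

namespace Pool.Agent.L0h8.K2
open Finset RC14

section
variable {n : ℕ}

/-- the tuples on which the words agree -/
def AgT (n r : ℕ) {j : ℕ} (x : Fin 2 → Equiv.Perm (Fin n)) (u v : Fin j → Fin 2) : Type :=
  {b : Tup r n // ∀ i, pw x u (b i) = pw x v (b i)}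

/-- the number of agreements -/
noncomputable def ag (n r : ℕ) {j : ℕ} (x : Fin 2 → Alt n) (u v : Fin j → Fin 2) : ℕ :=
  Nat.card {b : Tup r n // ∀ i, pw (fun i => (x i : Equiv.Perm (Fin n))) u (b i) =
        pw (fun i => (x i : Equiv.Perm (Fin n))) v (b i)}

/-- the total number of agreements -/
noncomputable def Ag (n r : ℕ) {j : ℕ} (u v : Fin j → Fin 2) : ℝ :=
  ∑ x : Fin 2 → Alt n, (ag n r x u v : ℝ)

lemma gt_tail {j : ℕ} (u : Fin (j + 1) → Fin 2) (t : ℕ) : gt (Fin.tail u) t = gt u (t + 1) := by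
  unfold gt Fin.tail
  by_cases h : t < j
  · rw [dif_pos h, dif_pos (by omega)]; rfl
  · rw [dif_neg h, dif_neg (by omega)]

lemma gt_init {j : ℕ} (u : Fin (j + 1) → Fin 2) {t : ℕ} (h : t < j) :
    gt (Fin.init u) t = gt u t := by
  unfold gt Fin.init
  rw [dif_pos h, dif_pos (by omega)]
  rfl

lemma rn_shift {k : ℕ} (x : Fin k → Equiv.Perm (Fin n)) (s : ℕ → Ltr k) (t : ℕ) (b : Fin n) :
    rn x s (t + 1) b = rn x (fun t => s (t + 1)) t (st x (s 0) b) := by
  induction t with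
  | zero => rfl
  | succ t ih => rw [rn, ih, rn]

lemma pw_tail {j : ℕ} (x : Fin 2 → Equiv.Perm (Fin n)) (u : Fin (j + 1) → Fin 2) (b : Fin n) :
    pw x u b = pw x (Fin.tail u) (x (u 0) b) := by
  unfold pw
  rw [rn_shift]
  have h1 : st x (gt u 0, true) b = x (u 0) b := by
    simp [st, gt]
  rw [h1]
  refine rn_congr x (fun t _ => ?_) _
  simp only [gt_tail]

lemma pw_init {j : ℕ} (x : Fin 2 → Equiv.Perm (Fin n)) (u : Fin (j + 1) → Fin 2) (b : Fin n) :
    pw x u b = x (u (Fin.last j)) (pw x (Fin.init u) b) := by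
  unfold pw
  rw [rn]
  have h1 : ∀ c, st x (gt u j, true) c = x (u (Fin.last j)) c := by
    intro c
    simp [st, gt, Fin.last]
  rw [h1]
  congr 1
  refine rn_congr x (fun t ht => ?_) _
  simp only [gt_init u ht]

variable {r j : ℕ}

lemma ag_tail (x : Fin 2 → Alt n) (u v : Fin (j + 1) → Fin 2) (h : u 0 = v 0) :
    ag n r x u v = ag n r x (Fin.tail u) (Fin.tail v) := by
  unfold ag
  set X : Fin 2 → Equiv.Perm (Fin n) := fun i => (x i : Equiv.Perm (Fin n)) with hX
  refine Nat.card_congr (Equiv.subtypeEquiv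
    { toFun := fun b => b.trans (X (u 0)).toEmbedding
      invFun := fun b => b.trans (X (u 0))⁻¹.toEmbedding
      left_inv := fun b => by ext i; simp
      right_inv := fun b => by ext i; simp } ?_)
  intro b
  refine forall_congr' fun i => ?_
  rw [pw_tail, pw_tail, ← h]
  rfl

lemma ag_init (x : Fin 2 → Alt n) (u v : Fin (j + 1) → Fin 2)
    (h : u (Fin.last j) = v (Fin.last j)) :
    ag n r x u v = ag n r x (Fin.init u) (Fin.init v) := by
  unfold ag
  congr 1
  have : ∀ b : Tup r n, (∀ i, pw (fun i => (x i : Equiv.Perm (Fin n))) u (b i) =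
        pw (fun i => (x i : Equiv.Perm (Fin n))) v (b i)) ↔
      (∀ i, pw (fun i => (x i : Equiv.Perm (Fin n))) (Fin.init u) (b i) =
        pw (fun i => (x i : Equiv.Perm (Fin n))) (Fin.init v) (b i)) := by
    intro b
    refine forall_congr' fun i => ?_
    rw [pw_init, pw_init _ v, ← h]
    exact (Equiv.injective _).eq_iff
  simp only [this]

lemma Ag_tail (u v : Fin (j + 1) → Fin 2) (h : u 0 = v 0) :
    Ag n r u v = Ag n r (Fin.tail u) (Fin.tail v) := by
  unfold Ag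
  exact sum_congr rfl fun x _ => by rw [ag_tail x u v h]

lemma Ag_init (u v : Fin (j + 1) → Fin 2) (h : u (Fin.last j) = v (Fin.last j)) :
    Ag n r u v = Ag n r (Fin.init u) (Fin.init v) := by
  unfold Ag
  exact sum_congr rfl fun x _ => by rw [ag_init x u v h]

end

section
variable (n r : ℕ) (c : ℝ)

/-- bad pairs -/
noncomputable def bad (j : ℕ) : Finset ((Fin j → Fin 2) × (Fin j → Fin 2)) := by
  classical
  exact univ.filter fun p => c < Ag n r p.1 p.2

/-- bad pairs with different first letters -/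
noncomputable def bad1 (j : ℕ) : Finset ((Fin j → Fin 2) × (Fin j → Fin 2)) := by
  classical
  exact univ.filter fun p => c < Ag n r p.1 p.2 ∧ gt p.1 0 ≠ gt p.2 0

/-- bad pairs with different first and last letters -/
noncomputable def bad2 (j : ℕ) : Finset ((Fin j → Fin 2) × (Fin j → Fin 2)) := by
  classical
  exact univ.filter fun p => c < Ag n r p.1 p.2 ∧ gt p.1 0 ≠ gt p.2 0 ∧
    gt p.1 (j - 1) ≠ gt p.2 (j - 1)

variable {n r c}

lemma mem_bad {j : ℕ} {p : (Fin j → Fin 2) × (Fin j → Fin 2)} :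
    p ∈ bad n r c j ↔ c < Ag n r p.1 p.2 := by
  classical
  simp [bad]

lemma mem_bad1 {j : ℕ} {p : (Fin j → Fin 2) × (Fin j → Fin 2)} :
    p ∈ bad1 n r c j ↔ c < Ag n r p.1 p.2 ∧ gt p.1 0 ≠ gt p.2 0 := by
  classical
  simp [bad1]

lemma mem_bad2 {j : ℕ} {p : (Fin j → Fin 2) × (Fin j → Fin 2)} :
    p ∈ bad2 n r c j ↔ c < Ag n r p.1 p.2 ∧ gt p.1 0 ≠ gt p.2 0 ∧
      gt p.1 (j - 1) ≠ gt p.2 (j - 1) := by
  classical
  simp [bad2]

lemma card_bad_succ (j : ℕ) :
    #(bad n r c (j + 1)) ≤ 2 * #(bad n r c j) + #(bad1 n r c (j + 1)) := by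
  classical
  have h1 : bad n r c (j + 1) ⊆ (bad n r c (j + 1)).filter (fun p => p.1 0 = p.2 0) ∪
      bad1 n r c (j + 1) := by
    intro p hp
    rw [mem_union, mem_filter, mem_bad1]
    by_cases h : p.1 0 = p.2 0
    · exact Or.inl ⟨hp, h⟩
    · refine Or.inr ⟨mem_bad.1 hp, ?_⟩
      simpa [gt] using h
  have h2 : #((bad n r c (j + 1)).filter (fun p => p.1 0 = p.2 0)) ≤
      #((univ : Finset (Fin 2)) ×ˢ bad n r c j) := by
    refine card_le_card_of_injOn (fun p => (p.1 0, (Fin.tail p.1, Fin.tail p.2))) ?_ ?_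
    · intro p hp
      rw [mem_coe, mem_filter] at hp
      rw [mem_coe, mem_product]
      refine ⟨mem_univ _, ?_⟩
      rw [mem_bad]
      simp only
      rw [← Ag_tail _ _ hp.2]
      exact mem_bad.1 hp.1
    · intro p hp q hq h
      rw [mem_coe, mem_filter] at hp hq
      simp only [Prod.mk.injEq] at h
      obtain ⟨h3, h4, h5⟩ := h
      have h6 : p.1 = q.1 := by
        rw [← Fin.cons_self_tail p.1, ← Fin.cons_self_tail q.1, h3, h4]
      have h7 : p.2 = q.2 := by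
        rw [← Fin.cons_self_tail p.2, ← Fin.cons_self_tail q.2, ← hp.2, ← hq.2, h3, h5]
      exact Prod.ext h6 h7
  rw [card_product, card_univ, Fintype.card_fin] at h2
  have h3 := (card_le_card h1).trans (card_union_le _ _)
  omega

lemma card_bad1_succ (j : ℕ) (hj : 1 ≤ j) :
    #(bad1 n r c (j + 1)) ≤ 2 * #(bad1 n r c j) + #(bad2 n r c (j + 1)) := by
  classical
  have h1 : bad1 n r c (j + 1) ⊆
      (bad1 n r c (j + 1)).filter (fun p => p.1 (Fin.last j) = p.2 (Fin.last j)) ∪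
      bad2 n r c (j + 1) := by
    intro p hp
    rw [mem_union, mem_filter, mem_bad2]
    by_cases h : p.1 (Fin.last j) = p.2 (Fin.last j)
    · exact Or.inl ⟨hp, h⟩
    · have h' := mem_bad1.1 hp
      refine Or.inr ⟨h'.1, h'.2, ?_⟩
      simpa [gt, Fin.last] using h
  have h2 : #((bad1 n r c (j + 1)).filter (fun p => p.1 (Fin.last j) = p.2 (Fin.last j))) ≤
      #((univ : Finset (Fin 2)) ×ˢ bad1 n r c j) := by
    refine card_le_card_of_injOn (fun p => (p.1 (Fin.last j), (Fin.init p.1, Fin.init p.2))) ?_ ?_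
    · intro p hp
      rw [mem_coe, mem_filter] at hp
      rw [mem_coe, mem_product]
      refine ⟨mem_univ _, ?_⟩
      rw [mem_bad1]
      have h' := mem_bad1.1 hp.1
      simp only
      rw [← Ag_init _ _ hp.2, gt_init _ (by omega), gt_init _ (by omega)]
      exact h'
    · intro p hp q hq h
      rw [mem_coe, mem_filter] at hp hq
      simp only [Prod.mk.injEq] at h
      obtain ⟨h3, h4, h5⟩ := h
      have h6 : p.1 = q.1 := by
        rw [← Fin.snoc_init_self p.1, ← Fin.snoc_init_self q.1, h3, h4]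
      have h7 : p.2 = q.2 := by
        rw [← Fin.snoc_init_self p.2, ← Fin.snoc_init_self q.2, ← hp.2, ← hq.2, h3, h5]
      exact Prod.ext h6 h7
  rw [card_product, card_univ, Fintype.card_fin] at h2
  have h3 := (card_le_card h1).trans (card_union_le _ _)
  omega

/-- the recursion -/
lemma card_bad_le (ℓ B : ℕ) (hB : 1 ≤ B) (h2 : ∀ j, 1 ≤ j → j ≤ ℓ → #(bad2 n r c j) ≤ B * 3 ^ j) :
    ∀ j ≤ ℓ, #(bad n r c j) ≤ 9 * B * 3 ^ j ∧ (1 ≤ j → #(bad1 n r c j) ≤ 3 * B * 3 ^ j) := by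
  intro j
  induction j with
  | zero =>
    intro _
    refine ⟨?_, fun h => by omega⟩
    refine (card_le_univ _).trans ?_
    simp
    omega
  | succ j ih =>
    intro hj
    obtain ⟨i1, i2⟩ := ih (by omega)
    have h3 : #(bad1 n r c (j + 1)) ≤ 3 * B * 3 ^ (j + 1) := by
      rcases Nat.eq_zero_or_pos j with h0 | h0
      · subst h0
        have h4 : bad1 n r c (0 + 1) ⊆ bad2 n r c (0 + 1) := by
          intro p hp
          rw [mem_bad1] at hp
          rw [mem_bad2]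
          exact ⟨hp.1, hp.2, hp.2⟩
        have h5 := (card_le_card h4).trans (h2 (0 + 1) le_rfl hj)
        nlinarith [h5]
      · have h4 := card_bad1_succ (n := n) (r := r) (c := c) j h0
        have h5 := i2 h0
        have h6 := h2 (j + 1) (by omega) hj
        rw [pow_succ] at h6 ⊢
        nlinarith
    refine ⟨?_, fun _ => h3⟩
    have h4 := card_bad_succ (n := n) (r := r) (c := c) j
    rw [pow_succ] at h3 ⊢
    nlinarith

end

/-- the bound for the number of violating words -/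
def BB (r N : ℕ) : ℕ := 2 ^ r * (r + 1) * ((N ^ 2 + 1) ^ (2 * r) * (N + 1) ^ r)

lemma BB_pos (r N : ℕ) : 1 ≤ BB r N := by
  unfold BB
  have : 0 < 2 ^ r * (r + 1) * ((N ^ 2 + 1) ^ (2 * r) * (N + 1) ^ r) := by positivity
  omega

/-- bad core pairs violate -/
theorem card_bad2 {n r : ℕ} (ℓ N : ℕ) (M : ℝ) (hN : r * (2 * ℓ) ≤ N)
    (hNn : N + 2 ≤ n) (hM0 : 0 < M) (hM : M ^ 7 ≤ (n : ℝ) - N)
    (hNM : 2 * Real.exp 2 * (r * ((2 * ℓ : ℕ) : ℝ) ^ 2) ≤ M) (j : ℕ) (hj : 1 ≤ j)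
    (hjℓ : j ≤ ℓ) :
    #(bad2 n r ((Fintype.card (Alt n) : ℝ) ^ 2 * ((n / ((n : ℝ) - N)) ^ N *
        (1 + (n / ((n : ℝ) - N)) ^ N * (2 * (r * ((2 * ℓ : ℕ) : ℝ) ^ 2 / M))))) j) ≤
      BB r N * 3 ^ j := by
  classical
  set c : ℝ := (Fintype.card (Alt n) : ℝ) ^ 2 * ((n / ((n : ℝ) - N)) ^ N *
        (1 + (n / ((n : ℝ) - N)) ^ N * (2 * (r * ((2 * ℓ : ℕ) : ℝ) ^ 2 / M)))) with hc
  have hnN : (0 : ℝ) < (n : ℝ) - N := by
    have : (N : ℝ) + 2 ≤ n := by exact_mod_cast hNn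
    linarith
  have hj2 : ((2 * j : ℕ) : ℝ) ^ 2 ≤ ((2 * ℓ : ℕ) : ℝ) ^ 2 := by
    have : ((2 * j : ℕ) : ℝ) ≤ ((2 * ℓ : ℕ) : ℝ) := by exact_mod_cast (by omega : 2 * j ≤ 2 * ℓ)
    gcongr
  have hsub : bad2 n r c j ⊆ ((univ : Finset (Finset (Fin r))) ×ˢ range (r + 1)).biUnion
      (fun q => univ.filter fun p => Viol n q.1 q.2 p.1 p.2) := by
    intro p hp
    rw [mem_bad2] at hp
    by_contra hcon
    have hgood : ∀ S : Finset (Fin r), ∀ m, ¬ Viol n S m p.1 p.2 := by
      intro S m hV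
      apply hcon
      rw [mem_biUnion]
      refine ⟨(S, m), ?_, ?_⟩
      · rw [mem_product, mem_range]
        refine ⟨mem_univ _, ?_⟩
        obtain ⟨W, -, -, -, h5, -⟩ := hV
        have h6 := card_le_univ S
        rw [Fintype.card_fin] at h6
        omega
      · rw [mem_filter]
        exact ⟨mem_univ _, hV⟩
    have h3 := expect_core (n := n) (r := r) hj hp.2.1 hp.2.2 hgood N M
      ((Nat.mul_le_mul_left _ (by omega)).trans hN) hNn hM0 hM
      (le_trans (by gcongr) hNM)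
    have h3' : (Fintype.card (Alt n) : ℝ) ^ 2 * ((n / ((n : ℝ) - N)) ^ N *
        (1 + (n / ((n : ℝ) - N)) ^ N * (2 * (r * ((2 * j : ℕ) : ℝ) ^ 2 / M)))) ≤ c := by
      rw [hc]
      gcongr
    have h4 := hp.1
    unfold Ag ag at h4
    linarith
  refine (card_le_card hsub).trans (card_biUnion_le.trans ?_)
  have hterm : ∀ q ∈ (univ : Finset (Finset (Fin r))) ×ˢ range (r + 1),
      #((univ : Finset ((Fin j → Fin 2) × (Fin j → Fin 2))).filter
        fun p => Viol n q.1 q.2 p.1 p.2) ≤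
      ((N ^ 2 + 1) ^ (2 * r) * (N + 1) ^ r) * 3 ^ j := by
    rintro ⟨S, m⟩ -
    simp only
    have h1 := card_viol n S m j
    rw [Nat.card_eq_fintype_card, Fintype.card_subtype] at h1
    by_cases hSm : 6 * m ≤ #S
    · have h6 := card_le_univ S
      rw [Fintype.card_fin] at h6
      have h7 : #S * (2 * j) ≤ N := (Nat.mul_le_mul h6 (by omega)).trans hN
      refine h1.trans (Nat.mul_le_mul_right _ (Nat.mul_le_mul ?_ ?_))
      · calc ((#S * (2 * j)) ^ 2 + 1) ^ (m + #S) ≤ (N ^ 2 + 1) ^ (m + #S) := by gcongr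
          _ ≤ (N ^ 2 + 1) ^ (2 * r) := Nat.pow_le_pow_right (by omega) (by omega)
      · calc (#S * (2 * j) + 1) ^ (2 * m) ≤ (N + 1) ^ (2 * m) := by gcongr
          _ ≤ (N + 1) ^ r := Nat.pow_le_pow_right (by omega) (by omega)
    · have h2 : (univ : Finset ((Fin j → Fin 2) × (Fin j → Fin 2))).filter
        (fun p => Viol n S m p.1 p.2) = ∅ := by
        rw [filter_eq_empty_iff]
        rintro p - ⟨W, -, -, -, h5, -⟩
        exact hSm h5
      rw [h2, card_empty]
      exact Nat.zero_le _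
  refine (sum_le_sum hterm).trans ?_
  rw [sum_const, card_product, card_univ, card_range, Fintype.card_finset, Fintype.card_fin,
    smul_eq_mul]
  unfold BB
  apply le_of_eq
  ring

/-- **the total number of agreements** -/
theorem total_ag {n r : ℕ} (ℓ N : ℕ) (M : ℝ) (hN : r * (2 * ℓ) ≤ N)
    (hNn : N + 2 ≤ n) (hM0 : 0 < M) (hM : M ^ 7 ≤ (n : ℝ) - N)
    (hNM : 2 * Real.exp 2 * (r * ((2 * ℓ : ℕ) : ℝ) ^ 2) ≤ M) :
    ∑ p : (Fin ℓ → Fin 2) × (Fin ℓ → Fin 2), Ag n r p.1 p.2 ≤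
      (Fintype.card (Alt n) : ℝ) ^ 2 * (4 ^ ℓ * ((n / ((n : ℝ) - N)) ^ N *
        (1 + (n / ((n : ℝ) - N)) ^ N * (2 * (r * ((2 * ℓ : ℕ) : ℝ) ^ 2 / M)))) +
        9 * BB r N * 3 ^ ℓ * (n : ℝ) ^ r) := by
  classical
  set c : ℝ := (Fintype.card (Alt n) : ℝ) ^ 2 * ((n / ((n : ℝ) - N)) ^ N *
        (1 + (n / ((n : ℝ) - N)) ^ N * (2 * (r * ((2 * ℓ : ℕ) : ℝ) ^ 2 / M)))) with hc
  have hnN : (0 : ℝ) < (n : ℝ) - N := by
    have : (N : ℝ) + 2 ≤ n := by exact_mod_cast hNn
    linarith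
  have hc0 : 0 ≤ c := by positivity
  have hb := (card_bad_le (n := n) (r := r) (c := c) ℓ (BB r N) (BB_pos r N)
    (fun j hj hjℓ => card_bad2 ℓ N M hN hNn hM0 hM hNM j hj hjℓ) ℓ le_rfl).1
  have htriv : ∀ p : (Fin ℓ → Fin 2) × (Fin ℓ → Fin 2),
      Ag n r p.1 p.2 ≤ (Fintype.card (Alt n) : ℝ) ^ 2 * (n : ℝ) ^ r := by
    intro p
    unfold Ag
    have h1 : ∀ x : Fin 2 → Alt n, (ag n r x p.1 p.2 : ℝ) ≤ (n : ℝ) ^ r := by
      intro x
      unfold ag
      have h2 : Nat.card {b : Tup r n // ∀ i, pw (fun i => (x i : Equiv.Perm (Fin n))) p.1 (b i) =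
        pw (fun i => (x i : Equiv.Perm (Fin n))) p.2 (b i)} ≤ n ^ r := by
        have h3 := Nat.card_le_card_of_injective
          (fun b : {b : Tup r n // ∀ i, pw (fun i => (x i : Equiv.Perm (Fin n))) p.1 (b i) =
            pw (fun i => (x i : Equiv.Perm (Fin n))) p.2 (b i)} => fun i => b.1 i)
          (fun b b' h => Subtype.ext (DFunLike.ext _ _ fun i => congrFun h i))
        refine h3.trans (le_of_eq ?_)
        rw [Nat.card_eq_fintype_card, Fintype.card_fun, Fintype.card_fin, Fintype.card_fin]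
      exact_mod_cast h2
    refine (sum_le_sum fun x _ => h1 x).trans (le_of_eq ?_)
    rw [sum_const, card_univ, Fintype.card_fun, Fintype.card_fin, nsmul_eq_mul]
    push_cast
    rfl
  have h1 : ∀ p ∈ (univ : Finset ((Fin ℓ → Fin 2) × (Fin ℓ → Fin 2))), Ag n r p.1 p.2 ≤
      c + (if p ∈ bad n r c ℓ then (Fintype.card (Alt n) : ℝ) ^ 2 * (n : ℝ) ^ r else 0) := by
    intro p _
    split_ifs with h
    · have := htriv p
      linarith
    · rw [mem_bad] at h
      push Not at h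
      linarith
  refine (sum_le_sum h1).trans ?_
  rw [sum_add_distrib, sum_const, card_univ, Fintype.card_prod, Fintype.card_fun,
    Fintype.card_fin, Fintype.card_fin, ← sum_filter, sum_const, filter_mem_eq_inter,
    univ_inter, nsmul_eq_mul, nsmul_eq_mul]
  have h2 : (((2 ^ ℓ * 2 ^ ℓ : ℕ)) : ℝ) = 4 ^ ℓ := by
    push_cast
    rw [← mul_pow]; norm_num
  rw [h2]
  have h3 : (#(bad n r c ℓ) : ℝ) ≤ 9 * BB r N * 3 ^ ℓ := by exact_mod_cast hb
  calc 4 ^ ℓ * c + #(bad n r c ℓ) * ((Fintype.card (Alt n) : ℝ) ^ 2 * (n : ℝ) ^ r)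
      ≤ 4 ^ ℓ * c + (9 * BB r N * 3 ^ ℓ) * ((Fintype.card (Alt n) : ℝ) ^ 2 * (n : ℝ) ^ r) := by
        gcongr
    _ = _ := by rw [hc]; ring

end Pool.Agent.L0h8.K2
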