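import Mathlib

/-!
Closed walks in Schreier graphs: several walkers driven by the same cyclically reduced word.
The graph of the traversed edges, its darts, the branch vertices and the excess.
-/

set_option autoImplicit false
set_option linter.unusedSectionVars false
set_option linter.unusedVariables false

namespace Pool.Agent.L0h8.K2
open Finset

/-- letters -/
abbrev Ltr (k : ℕ) := Fin k × Bool

/-- the inverse letter -/
def inv {k : ℕ} (s : Ltr k) : Ltr k := (s.1, !s.2)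

@[simp] lemma inv_inv' {k : ℕ} (s : Ltr k) : inv (inv s) = s := by simp [inv]

lemma inv_ne {k : ℕ} (s : Ltr k) : inv s ≠ s := by
  intro h
  have := congrArg Prod.snd h
  simp [inv] at this

lemma eq_inv_comm {k : ℕ} {s t : Ltr k} : s = inv t ↔ t = inv s :=
  ⟨fun h => by rw [h, inv_inv'], fun h => by rw [h, inv_inv']⟩

section
variable {n k : ℕ}

/-- one step -/
def st (x : Fin k → Equiv.Perm (Fin n)) (s : Ltr k) (v : Fin n) : Fin n :=
  if s.2 then x s.1 v else (x s.1)⁻¹ v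

/-- the edge traversed in one step -/
def ed (s : Ltr k) (v v' : Fin n) : Fin k × Fin n × Fin n :=
  if s.2 then (s.1, v, v') else (s.1, v', v)

lemma st_inv (x : Fin k → Equiv.Perm (Fin n)) (s : Ltr k) (v : Fin n) :
    st x (inv s) (st x s v) = v := by
  obtain ⟨i, b⟩ := s
  cases b <;> simp [st, inv]

lemma st_inj (x : Fin k → Equiv.Perm (Fin n)) (s : Ltr k) : Function.Injective (st x s) := by
  intro a b h
  rw [← st_inv x s a, h, st_inv]

lemma ed_inv (s : Ltr k) (v v' : Fin n) : ed (inv s) v' v = ed s v v' := by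
  obtain ⟨i, b⟩ := s
  cases b <;> simp [ed, inv]

lemma st_iff (x : Fin k → Equiv.Perm (Fin n)) (s : Ltr k) (v v' : Fin n) :
    x (ed s v v').1 (ed s v v').2.1 = (ed s v v').2.2 ↔ st x s v = v' := by
  obtain ⟨i, b⟩ := s
  cases b
  · simp only [ed, st, Bool.false_eq_true, if_false]
    constructor
    · intro h; rw [← h]; simp
    · intro h; rw [← h]; simp
  · simp [ed, st]

/-- two traversed edges are equal iff they are traversed in the same or in the opposite sense -/
lemma ed_eq_iff (x : Fin k → Equiv.Perm (Fin n)) (s t : Ltr k) (v w : Fin n) :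
    ed s v (st x s v) = ed t w (st x t w) ↔ (s = t ∧ v = w) ∨ (s = inv t ∧ v = st x t w) := by
  obtain ⟨i, b⟩ := s
  obtain ⟨j, c⟩ := t
  constructor
  · intro h
    cases b <;> cases c
    · simp only [ed, st, Bool.false_eq_true, if_false, Prod.mk.injEq] at h
      obtain ⟨rfl, -, h3⟩ := h
      exact Or.inl ⟨rfl, h3⟩
    · simp only [ed, st, Bool.false_eq_true, if_false, if_true, Prod.mk.injEq] at h
      obtain ⟨rfl, h2, h3⟩ := h
      exact Or.inr ⟨rfl, by simpa [st] using h3⟩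
    · simp only [ed, st, Bool.false_eq_true, if_false, if_true, Prod.mk.injEq] at h
      obtain ⟨rfl, h2, h3⟩ := h
      exact Or.inr ⟨rfl, by simpa [st] using h2⟩
    · simp only [ed, st, if_true, Prod.mk.injEq] at h
      obtain ⟨rfl, h2, -⟩ := h
      exact Or.inl ⟨rfl, h2⟩
  · rintro (⟨h1, rfl⟩ | ⟨h1, rfl⟩)
    · rw [h1]
    · rw [h1, st_inv, ed_inv]

end

/-- several walkers `i`, driven by the same cyclically reduced word `s` of length `L` in the
permutations `x`, start at different points and come back after `L` steps -/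
structure Cl (n k : ℕ) (ι : Type*) (L : ℕ) where
  x : Fin k → Equiv.Perm (Fin n)
  s : ℕ → Ltr k
  V : ι → ℕ → Fin n
  hL : 1 ≤ L
  hs : ∀ t, s (t + L) = s t
  hred : ∀ t, s (t + 1) ≠ inv (s t)
  hV : ∀ i t, V i (t + 1) = st x (s t) (V i t)
  hcl : ∀ i, V i L = V i 0
  hinj : Function.Injective (fun i => V i 0)

namespace Cl
variable {n k : ℕ} {ι : Type*} {L : ℕ} (W : Cl n k ι L)

lemma V_per (i : ι) (t : ℕ) : W.V i (t + L) = W.V i t := by
  induction t with
  | zero => simpa using W.hcl i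
  | succ t ih =>
    have : t + 1 + L = (t + L) + 1 := by ring
    rw [this, W.hV, W.hs, ih, W.hV]

lemma s_mul (t q : ℕ) : W.s (t + q * L) = W.s t := by
  induction q with
  | zero => simp
  | succ q ih =>
    have : t + (q + 1) * L = (t + q * L) + L := by ring
    rw [this, W.hs, ih]

lemma V_mul (i : ι) (t q : ℕ) : W.V i (t + q * L) = W.V i t := by
  induction q with
  | zero => simp
  | succ q ih =>
    have : t + (q + 1) * L = (t + q * L) + L := by ring
    rw [this, W.V_per, ih]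

lemma s_mod (t : ℕ) : W.s (t % L) = W.s t := by
  conv_rhs => rw [← Nat.mod_add_div t L, mul_comm, W.s_mul]

lemma V_mod (i : ι) (t : ℕ) : W.V i (t % L) = W.V i t := by
  conv_rhs => rw [← Nat.mod_add_div t L, mul_comm, W.V_mul]

lemma V_inj {i j : ι} {t : ℕ} (h : W.V i t = W.V j t) : i = j := by
  induction t with
  | zero => exact W.hinj h
  | succ t ih =>
    rw [W.hV, W.hV] at h
    exact ih (st_inj _ _ h)

/-- the edge traversed by the walker `i` at time `t` -/
def e (i : ι) (t : ℕ) : Fin k × Fin n × Fin n := ed (W.s t) (W.V i t) (W.V i (t + 1))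

lemma e_eq (i : ι) (t : ℕ) : W.e i t = ed (W.s t) (W.V i t) (st W.x (W.s t) (W.V i t)) := by
  rw [e, W.hV]

lemma e_mod (i : ι) (t : ℕ) : W.e i (t % L) = W.e i t := by
  rw [e_eq, e_eq, W.s_mod, W.V_mod]

variable [Fintype ι] [DecidableEq ι]

/-- the edges traversed before time `t` -/
def rev (t : ℕ) : Finset (Fin k × Fin n × Fin n) :=
  ((univ : Finset ι) ×ˢ range t).image fun p => W.e p.1 p.2

/-- the vertices visited up to time `t` -/
def vis (t : ℕ) : Finset (Fin n) :=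
  ((univ : Finset ι) ×ˢ range (t + 1)).image fun p => W.V p.1 p.2

lemma mem_rev {t : ℕ} {c : Fin k × Fin n × Fin n} :
    c ∈ W.rev t ↔ ∃ i, ∃ t' < t, W.e i t' = c := by
  simp only [rev, mem_image, mem_product, mem_univ, true_and, mem_range, Prod.exists]

lemma mem_vis {t : ℕ} {y : Fin n} : y ∈ W.vis t ↔ ∃ i, ∃ t' ≤ t, W.V i t' = y := by
  simp only [vis, mem_image, mem_product, mem_univ, true_and, mem_range, Prod.exists,
    Nat.lt_succ_iff]

lemma rev_mono {a b : ℕ} (h : a ≤ b) : W.rev a ⊆ W.rev b := by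
  intro c hc
  obtain ⟨i, t, h1, h2⟩ := W.mem_rev.1 hc
  exact W.mem_rev.2 ⟨i, t, by omega, h2⟩

lemma vis_mono {a b : ℕ} (h : a ≤ b) : W.vis a ⊆ W.vis b := by
  intro c hc
  obtain ⟨i, t, h1, h2⟩ := W.mem_vis.1 hc
  exact W.mem_vis.2 ⟨i, t, by omega, h2⟩

lemma e_mem (i : ι) (t : ℕ) : W.e i t ∈ W.rev L := by
  rw [← W.e_mod]
  exact W.mem_rev.2 ⟨i, t % L, Nat.mod_lt _ (by have := W.hL; omega), rfl⟩

lemma V_mem (i : ι) (t : ℕ) : W.V i t ∈ W.vis L := by
  rw [← W.V_mod]
  exact W.mem_vis.2 ⟨i, t % L, (Nat.mod_lt _ (by have := W.hL; omega)).le, rfl⟩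

/-- a visited vertex is visited at a time `≥ 1`, indeed at a time in `[L, 2L)` -/
lemma vis_rep {y : Fin n} (h : y ∈ W.vis L) : ∃ i, ∃ t, L ≤ t ∧ t < 2 * L ∧ W.V i t = y := by
  obtain ⟨i, t, -, h2⟩ := W.mem_vis.1 h
  refine ⟨i, t % L + L, by omega, ?_, ?_⟩
  · have := Nat.mod_lt t (show 0 < L by have := W.hL; omega)
    omega
  · rw [W.V_per, W.V_mod, h2]

/-- an edge with letter `σ` leaving `y` has been traversed before time `t` -/
lemma ed_mem_rev {t : ℕ} {σ : Ltr k} {y : Fin n} :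
    ed σ y (st W.x σ y) ∈ W.rev t ↔
      ∃ i, ∃ t' < t, (W.s t' = σ ∧ W.V i t' = y) ∨ (W.s t' = inv σ ∧ W.V i (t' + 1) = y) := by
  rw [mem_rev]
  refine exists_congr fun i => exists_congr fun t' => and_congr_right fun _ => ?_
  rw [W.e_eq, ed_eq_iff, W.hV]
  constructor
  · rintro (⟨h1, h2⟩ | ⟨h1, h2⟩)
    · exact Or.inl ⟨h1, h2⟩
    · refine Or.inr ⟨h1, ?_⟩
      rw [h2, h1, st_inv]
  · rintro (⟨h1, h2⟩ | ⟨h1, h2⟩)
    · exact Or.inl ⟨h1, h2⟩
    · refine Or.inr ⟨h1, ?_⟩
      rw [← h2, h1]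
      have := st_inv W.x (inv σ) (W.V i t')
      rw [inv_inv'] at this
      rw [this]

/-- the letters of the darts at `y` -/
def D (y : Fin n) : Finset (Ltr k) := univ.filter fun σ => ed σ y (st W.x σ y) ∈ W.rev L

lemma mem_D {y : Fin n} {σ : Ltr k} : σ ∈ W.D y ↔ ed σ y (st W.x σ y) ∈ W.rev L := by
  simp [D]

lemma s_mem_D (i : ι) (t : ℕ) : W.s t ∈ W.D (W.V i t) := by
  rw [mem_D, ← W.e_eq]
  exact W.e_mem i t

lemma inv_mem_D (i : ι) (t : ℕ) : inv (W.s t) ∈ W.D (W.V i (t + 1)) := by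
  rw [mem_D, W.hV, st_inv, ed_inv, ← W.e_eq]
  exact W.e_mem i t

lemma D_vis {y : Fin n} {σ : Ltr k} (h : σ ∈ W.D y) : y ∈ W.vis L := by
  rw [mem_D, ed_mem_rev] at h
  obtain ⟨i, t', -, (⟨-, h⟩ | ⟨-, h⟩)⟩ := h
  · rw [← h]; exact W.V_mem _ _
  · rw [← h]; exact W.V_mem _ _

/-- every visited vertex has at least two darts -/
lemma two_le_D {y : Fin n} (h : y ∈ W.vis L) : 2 ≤ #(W.D y) := by
  obtain ⟨i, t, h1, -, h3⟩ := W.vis_rep h
  obtain ⟨t', rfl⟩ : ∃ t', t = t' + 1 := ⟨t - 1, by have := W.hL; omega⟩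
  have : ({W.s (t' + 1), inv (W.s t')} : Finset (Ltr k)) ⊆ W.D y := by
    intro σ hσ
    rw [mem_insert, mem_singleton] at hσ
    rcases hσ with rfl | rfl
    · rw [← h3]; exact W.s_mem_D _ _
    · rw [← h3]; exact W.inv_mem_D _ _
  have h4 := card_le_card this
  rwa [card_pair (W.hred t')] at h4

/-- the branch vertices -/
def B : Finset (Fin n) := (W.vis L).filter fun y => 3 ≤ #(W.D y)

lemma D_of_not_B {i : ι} {t : ℕ} (h : W.V i (t + 1) ∉ W.B) :
    W.D (W.V i (t + 1)) = {W.s (t + 1), inv (W.s t)} := by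
  have h1 : ({W.s (t + 1), inv (W.s t)} : Finset (Ltr k)) ⊆ W.D (W.V i (t + 1)) := by
    intro σ hσ
    rw [mem_insert, mem_singleton] at hσ
    rcases hσ with rfl | rfl
    · exact W.s_mem_D _ _
    · exact W.inv_mem_D _ _
  have h2 : #(W.D (W.V i (t + 1))) ≤ 2 := by
    by_contra hc
    exact h (mem_filter.2 ⟨W.V_mem _ _, by omega⟩)
  refine (eq_of_subset_of_card_le h1 ?_).symm
  rw [card_pair (W.hred t)]
  exact h2

/-- the darts -/
def darts : Finset (Fin n × Ltr k) := univ.filter fun p => p.2 ∈ W.D p.1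

lemma card_darts : #(W.darts) = 2 * #(W.rev L) := by
  classical
  have h1 : ∀ p ∈ W.darts, ed p.2 p.1 (st W.x p.2 p.1) ∈ W.rev L := fun p hp => by
    rw [darts, mem_filter] at hp
    exact W.mem_D.1 hp.2
  rw [card_eq_sum_card_fiberwise h1, mul_comm, ← smul_eq_mul, ← sum_const]
  refine sum_congr rfl fun c hc => ?_
  obtain ⟨i, t, -, h3⟩ := W.mem_rev.1 hc
  rw [W.e_eq] at h3
  have h4 : (W.darts.filter fun p => ed p.2 p.1 (st W.x p.2 p.1) = c) =
      {(W.V i t, W.s t), (W.V i (t + 1), inv (W.s t))} := by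
    ext ⟨y, σ⟩
    simp only [mem_filter, mem_insert, mem_singleton, Prod.mk.injEq]
    constructor
    · rintro ⟨-, h⟩
      rw [← h3, ed_eq_iff] at h
      rcases h with ⟨h5, h6⟩ | ⟨h5, h6⟩
      · exact Or.inl ⟨h6, h5⟩
      · refine Or.inr ⟨?_, h5⟩
        rw [h6, W.hV]
    · rintro (⟨rfl, rfl⟩ | ⟨rfl, rfl⟩)
      · refine ⟨?_, h3⟩
        rw [darts, mem_filter]
        exact ⟨mem_univ _, W.s_mem_D _ _⟩
      · refine ⟨?_, ?_⟩
        · rw [darts, mem_filter]
          exact ⟨mem_univ _, W.inv_mem_D _ _⟩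
        · rw [W.hV, st_inv, ed_inv, h3]
  rw [h4, card_pair]
  intro h
  exact inv_ne (W.s t) (congrArg Prod.snd h).symm

lemma card_darts' : #(W.darts) = ∑ y ∈ W.vis L, #(W.D y) := by
  classical
  have h1 : ∀ p ∈ W.darts, p.1 ∈ W.vis L := fun p hp => by
    rw [darts, mem_filter] at hp
    exact W.D_vis hp.2
  rw [card_eq_sum_card_fiberwise h1]
  refine sum_congr rfl fun y _ => ?_
  refine card_bij (fun p _ => p.2) ?_ ?_ ?_
  · intro p hp
    rw [mem_filter, darts, mem_filter] at hp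
    rw [← hp.2]
    exact hp.1.2
  · intro p hp q hq h
    rw [mem_filter] at hp hq
    exact Prod.ext (hp.2.trans hq.2.symm) h
  · intro σ hσ
    refine ⟨(y, σ), ?_, rfl⟩
    rw [mem_filter, darts, mem_filter]
    exact ⟨⟨mem_univ _, hσ⟩, rfl⟩

/-- the excess -/
def ex : ℕ := #(W.rev L) - #(W.vis L)

lemma two_mul_rev : 2 * #(W.rev L) = ∑ y ∈ W.B, #(W.D y) + 2 * (#(W.vis L) - #(W.B)) := by
  classical
  rw [← card_darts, card_darts']
  have hsub : W.B ⊆ W.vis L := filter_subset _ _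
  rw [← sum_sdiff hsub, add_comm]
  congr 1
  have : ∀ y ∈ W.vis L \ W.B, #(W.D y) = 2 := by
    intro y hy
    rw [mem_sdiff] at hy
    have h1 := W.two_le_D hy.1
    by_contra hc
    exact hy.2 (mem_filter.2 ⟨hy.1, by omega⟩)
  rw [sum_congr rfl this, sum_const, smul_eq_mul, card_sdiff_of_subset hsub, mul_comm]

lemma card_B_le' : #(W.B) ≤ #(W.vis L) := card_le_card (filter_subset _ _)

lemma sum_B_ge : 3 * #(W.B) ≤ ∑ y ∈ W.B, #(W.D y) := by
  rw [mul_comm, ← smul_eq_mul, ← sum_const]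
  exact sum_le_sum fun y hy => (mem_filter.1 hy).2

lemma vis_le_rev : #(W.vis L) ≤ #(W.rev L) := by
  have h1 := W.two_mul_rev
  have h2 := W.sum_B_ge
  have h3 := W.card_B_le'
  omega

lemma card_B_le : #(W.B) ≤ 2 * W.ex := by
  have h1 := W.two_mul_rev
  have h2 := W.sum_B_ge
  have h3 := W.card_B_le'
  unfold ex
  omega

lemma rev_eq : #(W.rev L) = #(W.vis L) + W.ex := by
  have := W.vis_le_rev
  unfold ex
  omega

lemma sum_B_le : ∑ y ∈ W.B, #(W.D y) ≤ 6 * W.ex := by
  have h1 := W.two_mul_rev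
  have h2 := W.rev_eq
  have h3 := W.card_B_le'
  have h4 := W.card_B_le
  omega

/-- two walks which leave the same dart stay together until the first branch vertex -/
lemma follow {i i' : ι} {τ τ' : ℕ} (h0 : W.V i τ = W.V i' τ') (h1 : W.s τ = W.s τ') (d : ℕ)
    (hd : ∀ e, 1 ≤ e → e < d → W.V i (τ + e) ∉ W.B) :
    ∀ e ≤ d, W.V i (τ + e) = W.V i' (τ' + e) ∧ (e < d → W.s (τ + e) = W.s (τ' + e)) := by
  intro e
  induction e with
  | zero => intro _; exact ⟨h0, fun _ => h1⟩
  | succ e ih =>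
    intro he
    obtain ⟨h2, h3⟩ := ih (by omega)
    have h4 := h3 (by omega)
    have h5 : W.V i (τ + e + 1) = W.V i' (τ' + e + 1) := by
      rw [W.hV, W.hV, h2, h4]
    refine ⟨h5, fun h6 => ?_⟩
    have h7 : W.V i (τ + e + 1) ∉ W.B := hd (e + 1) (by omega) h6
    have h8 := h7
    rw [h5] at h8
    change W.s (τ + e + 1) = W.s (τ' + e + 1)
    have h9 := W.D_of_not_B h7
    have h10 := W.D_of_not_B h8
    rw [← h5, h9, h4] at h10
    have h11 : W.s (τ + e + 1) ∈ ({W.s (τ' + e + 1), inv (W.s (τ' + e))} : Finset (Ltr k)) := by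
      rw [← h10]; exact mem_insert_self _ _
    rw [mem_insert, mem_singleton] at h11
    rcases h11 with h | h
    · exact h
    · exact absurd h (by rw [← h4]; exact W.hred _)

open Classical in
/-- the other dart -/
noncomputable def oth (y : Fin n) (τ : Ltr k) : Ltr k :=
  if h : ∃ σ ∈ W.D y, σ ≠ τ then h.choose else τ

lemma oth_fwd {i : ι} {t : ℕ} (h : W.V i (t + 1) ∉ W.B) :
    W.oth (W.V i (t + 1)) (inv (W.s t)) = W.s (t + 1) := by
  have hD := W.D_of_not_B h
  have hex : ∃ σ ∈ W.D (W.V i (t + 1)), σ ≠ inv (W.s t) :=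
    ⟨W.s (t + 1), W.s_mem_D _ _, W.hred t⟩
  rw [oth, dif_pos hex]
  obtain ⟨h1, h2⟩ := hex.choose_spec
  set σ := hex.choose
  rw [hD, mem_insert, mem_singleton] at h1
  exact h1.resolve_right h2

lemma oth_bwd {i : ι} {t : ℕ} (h : W.V i (t + 1) ∉ W.B) :
    W.oth (W.V i (t + 1)) (W.s (t + 1)) = inv (W.s t) := by
  have hD := W.D_of_not_B h
  have hex : ∃ σ ∈ W.D (W.V i (t + 1)), σ ≠ W.s (t + 1) :=
    ⟨inv (W.s t), W.inv_mem_D _ _, (W.hred t).symm⟩
  rw [oth, dif_pos hex]
  obtain ⟨h1, h2⟩ := hex.choose_spec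
  set σ := hex.choose
  rw [hD, mem_insert, mem_singleton] at h1
  exact h1.resolve_left h2

/-- the next dart -/
noncomputable def nxt (p : Fin n × Ltr k) : Fin n × Ltr k :=
  (st W.x p.2 p.1, W.oth (st W.x p.2 p.1) (inv p.2))

lemma nxt_fwd {i : ι} {t : ℕ} (h : W.V i (t + 1) ∉ W.B) :
    W.nxt (W.V i t, W.s t) = (W.V i (t + 1), W.s (t + 1)) := by
  unfold nxt
  simp only
  rw [← W.hV, W.oth_fwd h]

lemma nxt_bwd {i : ι} {t : ℕ} (h : W.V i (t + 1) ∉ W.B) :
    W.nxt (W.V i (t + 2), inv (W.s (t + 1))) = (W.V i (t + 1), inv (W.s t)) := by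
  have h1 : st W.x (inv (W.s (t + 1))) (W.V i (t + 2)) = W.V i (t + 1) := by
    have := W.hV i (t + 1)
    rw [show t + 1 + 1 = t + 2 from rfl] at this
    rw [this, st_inv]
  unfold nxt
  simp only
  rw [h1, inv_inv', W.oth_bwd h]

lemma nxt_iter_fwd {i : ι} {τ d : ℕ} (hd : ∀ e, 1 ≤ e → e < d → W.V i (τ + e) ∉ W.B) :
    ∀ e < d, W.nxt^[e] (W.V i τ, W.s τ) = (W.V i (τ + e), W.s (τ + e)) := by
  intro e
  induction e with
  | zero => intro _; rfl
  | succ e ih =>
    intro he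
    rw [Function.iterate_succ_apply', ih (by omega)]
    exact W.nxt_fwd (hd (e + 1) (by omega) he)

lemma nxt_iter_bwd {i : ι} {t d : ℕ} (hd : ∀ e, 1 ≤ e → e < d → W.V i (t + d - e) ∉ W.B) :
    ∀ e < d, W.nxt^[e] (W.V i (t + d), inv (W.s (t + d - 1))) =
      (W.V i (t + d - e), inv (W.s (t + d - e - 1))) := by
  intro e
  induction e with
  | zero => intro _; rfl
  | succ e ih =>
    intro he
    rw [Function.iterate_succ_apply', ih (by omega)]
    obtain ⟨z, hz⟩ : ∃ z, t + d - e = z + 2 := ⟨t + d - e - 2, by omega⟩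
    have e1 : t + d - (e + 1) = z + 1 := by omega
    have h1 := hd (e + 1) (by omega) he
    rw [e1] at h1
    rw [hz, e1]
    exact W.nxt_bwd h1

/-- residues -/
lemma exists_shift (t t0 : ℕ) (hL : 1 ≤ L) (ht : L ≤ t) :
    ∃ d, d < L ∧ (t - d) % L = t0 % L := by
  refine ⟨(t - t0 % L) % L, Nat.mod_lt _ (by omega), ?_⟩
  have h1 : t0 % L < L := Nat.mod_lt _ (by omega)
  have h2 : (t - t0 % L) % L ≤ t - t0 % L := Nat.mod_le _ _
  have h3 := Nat.div_add_mod (t - t0 % L) L
  have h4 : t - (t - t0 % L) % L = t0 % L + L * ((t - t0 % L) / L) := by omega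
  rw [h4, Nat.add_mul_mod_self_left, Nat.mod_mod]

/-- **few vertices** -/
lemma card_vis_le (hB : ∀ i, ∃ t, W.V i t ∈ W.B) :
    2 * #(W.vis L \ W.B) ≤ (∑ y ∈ W.B, #(W.D y)) * (L - 1) := by
  classical
  have hL := W.hL
  -- the last and the next visit of a branch vertex
  have key : ∀ y ∈ W.vis L \ W.B, ∃ i t d d', L ≤ t ∧ W.V i t = y ∧
      (1 ≤ d ∧ d ≤ L - 1 ∧ W.V i (t - d) ∈ W.B ∧ ∀ e, 1 ≤ e → e < d → W.V i (t - e) ∉ W.B) ∧
      (1 ≤ d' ∧ d' ≤ L - 1 ∧ W.V i (t + d') ∈ W.B ∧ ∀ e, 1 ≤ e → e < d' → W.V i (t + e) ∉ W.B) := by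
    intro y hy
    rw [mem_sdiff] at hy
    obtain ⟨i, t, ht1, ht2, hty⟩ := W.vis_rep hy.1
    obtain ⟨t0, ht0⟩ := hB i
    have hex : ∃ d, 1 ≤ d ∧ d ≤ L - 1 ∧ W.V i (t - d) ∈ W.B := by
      obtain ⟨d, hd1, hd2⟩ := exists_shift t t0 hL ht1
      have h5 : W.V i (t - d) ∈ W.B := by
        rw [← W.V_mod, hd2, W.V_mod]; exact ht0
      rcases Nat.eq_zero_or_pos d with h6 | h6
      · subst h6
        rw [Nat.sub_zero, hty] at h5
        exact absurd h5 hy.2
      · exact ⟨d, h6, by omega, h5⟩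
    have hex' : ∃ d, 1 ≤ d ∧ d ≤ L - 1 ∧ W.V i (t + d) ∈ W.B := by
      obtain ⟨d, hd1, hd2, hd3⟩ := hex
      refine ⟨L - d, by omega, by omega, ?_⟩
      have : t + (L - d) = t - d + L := by omega
      rw [this, W.V_per]
      exact hd3
    obtain ⟨hd1, hd2, hd3⟩ := Nat.find_spec hex
    obtain ⟨hd1', hd2', hd3'⟩ := Nat.find_spec hex'
    refine ⟨i, t, Nat.find hex, Nat.find hex', ht1, hty, ⟨hd1, hd2, hd3, ?_⟩,
      ⟨hd1', hd2', hd3', ?_⟩⟩
    · intro e he1 he2 hmem
      exact Nat.find_min hex he2 ⟨he1, by omega, hmem⟩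
    · intro e he1 he2 hmem
      exact Nat.find_min hex' he2 ⟨he1, by omega, hmem⟩
  rcases isEmpty_or_nonempty ι with hι | hι
  · have : W.vis L = ∅ := by
      rw [eq_empty_iff_forall_notMem]
      intro y hy
      obtain ⟨i, -⟩ := W.mem_vis.1 hy
      exact hι.elim i
    rw [this]
    simp
  choose! i t d d' htL hy hd hd' using key
  -- the darts and the distances
  set pf : Fin n → (Fin n × Ltr k) × ℕ := fun y =>
    ((W.V (i y) (t y - d y), W.s (t y - d y)), d y) with hpf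
  set pb : Fin n → (Fin n × Ltr k) × ℕ := fun y =>
    ((W.V (i y) (t y + d' y), inv (W.s (t y + d' y - 1))), d' y) with hpb
  set Q : (Fin n × Ltr k) × ℕ → Fin n × Ltr k := fun p => W.nxt^[p.2 - 1] p.1 with hQ
  have hQf : ∀ y ∈ W.vis L \ W.B, Q (pf y) = (W.V (i y) (t y - 1), W.s (t y - 1)) := by
    intro y hyy
    obtain ⟨h1, h2, h3, h4⟩ := hd y hyy
    have htL' := htL y hyy
    have h5 := W.nxt_iter_fwd (i := i y) (τ := t y - d y) (d := d y) (fun e he1 he2 => by
      have h6 := h4 (d y - e) (by omega) (by omega)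
      have h7 : t y - (d y - e) = t y - d y + e := by omega
      rwa [h7] at h6) (d y - 1) (by omega)
    have h8 : t y - d y + (d y - 1) = t y - 1 := by omega
    rw [h8] at h5
    exact h5
  have hQb : ∀ y ∈ W.vis L \ W.B, Q (pb y) = (W.V (i y) (t y + 1), inv (W.s (t y))) := by
    intro y hyy
    obtain ⟨h1, h2, h3, h4⟩ := hd' y hyy
    have h5 := W.nxt_iter_bwd (i := i y) (t := t y) (d := d' y) (fun e he1 he2 => by
      have h6 := h4 (d' y - e) (by omega) (by omega)
      have h7 : t y + (d' y - e) = t y + d' y - e := by omega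
      rwa [h7] at h6) (d' y - 1) (by omega)
    have h8 : t y + d' y - (d' y - 1) = t y + 1 := by omega
    rw [h8, Nat.add_sub_cancel] at h5
    exact h5
  have hyf : ∀ y ∈ W.vis L \ W.B, st W.x (Q (pf y)).2 (Q (pf y)).1 = y := by
    intro y hyy
    rw [hQf y hyy]
    simp only
    have htL' := htL y hyy
    rw [← W.hV, Nat.sub_add_cancel (by omega), hy y hyy]
  have hyb : ∀ y ∈ W.vis L \ W.B, st W.x (Q (pb y)).2 (Q (pb y)).1 = y := by
    intro y hyy
    rw [hQb y hyy]
    simp only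
    rw [W.hV, st_inv, hy y hyy]
  have hcard : #((W.vis L \ W.B) ×ˢ (univ : Finset Bool)) ≤
      #((W.darts.filter fun p => p.1 ∈ W.B) ×ˢ (Finset.Icc 1 (L - 1))) := by
    refine card_le_card_of_injOn (fun p => if p.2 then pf p.1 else pb p.1) ?_ ?_
    · rintro ⟨y, b⟩ hyy
      rw [mem_coe, mem_product] at hyy
      obtain ⟨h1, h2, h3, -⟩ := hd y hyy.1
      obtain ⟨h1', h2', h3', -⟩ := hd' y hyy.1
      rw [mem_coe, mem_product, mem_Icc, mem_filter, darts, mem_filter]
      cases b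
      · simp only [Bool.false_eq_true, if_false, hpb]
        refine ⟨⟨⟨mem_univ _, ?_⟩, h3'⟩, h1', h2'⟩
        have := W.inv_mem_D (i y) (t y + d' y - 1)
        rwa [Nat.sub_add_cancel (by omega)] at this
      · simp only [if_true, hpf]
        exact ⟨⟨⟨mem_univ _, W.s_mem_D _ _⟩, h3⟩, h1, h2⟩
    · rintro ⟨y, b⟩ hyy ⟨y', b'⟩ hyy' h
      rw [mem_coe, mem_product] at hyy hyy'
      have h1 := hyy.1
      have h2 := hyy'.1
      simp only at h1 h2 h
      -- the vertices are equal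
      have hyeq : y = y' := by
        have e1 : st W.x (Q (if b then pf y else pb y)).2 (Q (if b then pf y else pb y)).1 = y := by
          cases b
          · exact hyb y h1
          · exact hyf y h1
        have e2 : st W.x (Q (if b' then pf y' else pb y')).2
            (Q (if b' then pf y' else pb y')).1 = y' := by
          cases b'
          · exact hyb y' h2
          · exact hyf y' h2
        rw [← e1, h, e2]
      subst hyeq
      -- the directions are equal
      have hne : pf y ≠ pb y := by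
        intro heq
        have h3 := hQf y h1
        rw [heq, hQb y h1] at h3
        have h4 := congrArg Prod.snd h3
        simp only at h4
        have htL' := htL y h1
        have h5 := W.hred (t y - 1)
        rw [Nat.sub_add_cancel (by omega)] at h5
        exact h5 (eq_inv_comm.1 h4.symm)
      cases b <;> cases b'
      · rfl
      · simp only [Bool.false_eq_true, if_false, if_true] at h
        exact absurd h.symm hne
      · simp only [Bool.false_eq_true, if_false, if_true] at h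
        exact absurd h hne
      · rfl
  have hdB : #(W.darts.filter fun p => p.1 ∈ W.B) = ∑ y ∈ W.B, #(W.D y) := by
    have h1 : ∀ p ∈ W.darts.filter (fun p => p.1 ∈ W.B), p.1 ∈ W.B := fun p hp =>
      (mem_filter.1 hp).2
    rw [card_eq_sum_card_fiberwise h1]
    refine sum_congr rfl fun y hyB => ?_
    refine card_bij (fun p _ => p.2) ?_ ?_ ?_
    · intro p hp
      rw [mem_filter, mem_filter, darts, mem_filter] at hp
      rw [← hp.2]
      exact hp.1.1.2
    · intro p hp q hq h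
      rw [mem_filter] at hp hq
      exact Prod.ext (hp.2.trans hq.2.symm) h
    · intro σ hσ
      refine ⟨(y, σ), ?_, rfl⟩
      rw [mem_filter, mem_filter, darts, mem_filter]
      exact ⟨⟨⟨mem_univ _, hσ⟩, hyB⟩, rfl⟩
  rw [card_product, card_product, card_univ, Fintype.card_bool, Nat.card_Icc, hdB] at hcard
  simp only [Nat.add_sub_cancel] at hcard
  omega

/-- **few edges** -/
theorem rev_le (hB : ∀ i, ∃ t, W.V i t ∈ W.B) : #(W.rev L) ≤ 3 * W.ex * L := by
  have h1 := W.card_vis_le hB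
  have h2 := W.sum_B_le
  have h3 := W.card_B_le
  have h4 := W.rev_eq
  have h5 : W.B ⊆ W.vis L := filter_subset _ _
  rw [card_sdiff_of_subset h5] at h1
  have h6 : (∑ y ∈ W.B, #(W.D y)) * (L - 1) ≤ 6 * W.ex * (L - 1) := Nat.mul_le_mul_right _ h2
  have hL := W.hL
  obtain ⟨L', rfl⟩ : ∃ L', L = L' + 1 := ⟨L - 1, by omega⟩
  have h7 := W.card_B_le'
  simp only [Nat.add_sub_cancel] at h1 h6
  have h8 : 3 * W.ex * (L' + 1) = 3 * W.ex * L' + 3 * W.ex := by ring
  have h9 : 6 * W.ex * L' = 2 * (3 * W.ex * L') := by ring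
  omega

end Cl

end Pool.Agent.L0h8.K2
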