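import Pool.Agent.L0h8.K2.Iso

/-!
The weighted number of the trajectories of walkers which close up and touch branch vertices.
-/

set_option autoImplicit false
set_option linter.unusedSectionVars false
set_option linter.unusedVariables false

namespace Pool.Agent.L0h8.K2
open Finset

namespace Cl
variable {n k : ℕ} {ι : Type*} {L : ℕ} (W : Cl n k ι L) [Fintype ι] [DecidableEq ι]

/-- the trajectory -/
def F : ι → Fin L → Fin n := fun i t => W.V i t

open Classical in
/-- the first occurrences of the vertices -/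
noncomputable def np : Finset (ι × ℕ) :=
  ((univ : Finset ι) ×ˢ range L).filter fun p => ∀ i t, W.V i t = W.V p.1 p.2 → p.2 ≤ t

lemma mem_np {p : ι × ℕ} :
    p ∈ W.np ↔ p.2 < L ∧ ∀ i t, W.V i t = W.V p.1 p.2 → p.2 ≤ t := by
  classical
  rw [np, mem_filter, mem_product, mem_range]
  simp

lemma exists_np (i : ι) (t : ℕ) : ∃ p ∈ W.np, p.2 ≤ t ∧ W.V p.1 p.2 = W.V i t := by
  classical
  have hex : ∃ t', ∃ j, W.V j t' = W.V i t := ⟨t, i, rfl⟩
  obtain ⟨j, hj⟩ := Nat.find_spec hex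
  have hlt : Nat.find hex < L := by
    refine lt_of_le_of_lt (Nat.find_min' hex ⟨j, ?_⟩)
      (Nat.mod_lt (Nat.find hex) (show 0 < L by have := W.hL; omega))
    rw [W.V_mod]
    exact hj
  refine ⟨(j, Nat.find hex), ?_, Nat.find_min' hex ⟨i, rfl⟩, hj⟩
  rw [mem_np]
  refine ⟨hlt, fun i' t' h' => ?_⟩
  simp only at h' ⊢
  exact Nat.find_min' hex ⟨i', h'.trans hj⟩

lemma card_np : #(W.np) = #(W.vis L) := by
  classical
  refine card_bij (fun p _ => W.V p.1 p.2) (fun p _ => W.V_mem _ _) ?_ ?_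
  · intro p hp q hq h
    rw [mem_np] at hp hq
    have h1 : p.2 = q.2 := le_antisymm (hp.2 _ _ h.symm) (hq.2 _ _ h)
    refine Prod.ext ?_ h1
    rw [h1] at h
    exact W.V_inj h
  · intro y hy
    obtain ⟨i, t, -, h⟩ := W.mem_vis.1 hy
    obtain ⟨p, hp, -, h2⟩ := W.exists_np i t
    exact ⟨p, hp, h2.trans h⟩

variable {W} {W' : Cl n k ι L}

lemma Agree.np (h : Agree W W' L) : W.np = W'.np := by
  have key : ∀ {W W' : Cl n k ι L}, Agree W W' L → W.np ⊆ W'.np := by
    intro W W' h p hp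
    rw [mem_np] at hp ⊢
    refine ⟨hp.1, fun i t ht => ?_⟩
    rcases Nat.lt_or_ge L t with h1 | h1
    · have := hp.1
      omega
    · exact hp.2 i t ((h.2 _ _ _ _ h1 hp.1.le).2 ht)
  exact Subset.antisymm (key h) (key h.symm)

end Cl

lemma one_add_inv_pow_le (a : ℝ) (ha : 0 < a) (m : ℕ) (hm : (m : ℝ) ≤ a) : (1 + 1 / a) ^ m ≤ 3 := by
  have h1 : 1 + 1 / a ≤ Real.exp (1 / a) := by
    have := Real.add_one_le_exp (1 / a)
    linarith
  calc (1 + 1 / a) ^ m ≤ (Real.exp (1 / a)) ^ m := by gcongr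
    _ = Real.exp (m * (1 / a)) := by rw [← Real.exp_nat_mul]
    _ ≤ Real.exp 1 := by
        apply Real.exp_le_exp.2
        rw [mul_one_div, div_le_one ha]
        exact hm
    _ ≤ 3 := by
        have := Real.exp_one_lt_d9
        linarith

/-- sum over the records -/
lemma sum_records {α : Type*} [DecidableEq α] (A : Finset α) (a M : ℝ) (K : ℕ) (ha : 0 < a)
    (hM1 : 1 ≤ M) (haM : a ≤ M) :
    ∑ ρ ∈ A.powerset.filter (fun ρ => K + 1 ≤ #ρ), (1 / M) ^ (#ρ + 1) ≤
      Real.exp (#A / a) * (a / M) ^ (K + 1) := by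
  have hM0 : 0 < M := by linarith
  have h1 : ∀ ρ ∈ A.powerset.filter (fun ρ => K + 1 ≤ #ρ),
      (1 / M) ^ (#ρ + 1) ≤ (a / M) ^ (K + 1) * (1 / a) ^ #ρ := by
    intro ρ hρ
    rw [mem_filter] at hρ
    obtain ⟨d, hd⟩ := Nat.exists_eq_add_of_le hρ.2
    have h2 : (1 / M) ^ (#ρ + 1) ≤ (1 / M) ^ #ρ := by
      apply pow_le_pow_of_le_one (by positivity) _ (by omega)
      rw [div_le_one hM0]; linarith
    refine h2.trans ?_
    have h3 : (1 / M) ^ #ρ = (a / M) ^ #ρ * (1 / a) ^ #ρ := by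
      rw [← mul_pow]; congr 1; field_simp
    rw [h3]
    refine mul_le_mul_of_nonneg_right ?_ (by positivity)
    apply pow_le_pow_of_le_one (by positivity) _ hρ.2
    rw [div_le_one hM0]; exact haM
  refine (sum_le_sum h1).trans ?_
  rw [← mul_sum, mul_comm]
  refine mul_le_mul_of_nonneg_right ?_ (by positivity)
  calc ∑ ρ ∈ A.powerset.filter (fun ρ => K + 1 ≤ #ρ), (1 / a) ^ #ρ
      ≤ ∑ ρ ∈ A.powerset, (1 / a) ^ #ρ :=
        sum_le_sum_of_subset_of_nonneg (filter_subset _ _) fun _ _ _ => by positivity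
    _ = (1 + 1 / a) ^ #A := by
        have := Finset.sum_pow_mul_eq_add_pow (1 / a) 1 A
        simp only [one_pow, mul_one] at this
        rw [this, add_comm]
    _ ≤ (Real.exp (1 / a)) ^ #A := by
        have := Real.add_one_le_exp (1 / a)
        gcongr
        linarith
    _ = Real.exp (#A / a) := by rw [← Real.exp_nat_mul, mul_one_div]

/-- **the weighted number of trajectories** -/
theorem sum_weights {n k : ℕ} {ι : Type*} {L : ℕ} [Fintype ι] [DecidableEq ι] (s : ℕ → Ltr k)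
    (T : Finset (ι → Fin L → Fin n)) (E : (ι → Fin L → Fin n) → ℕ) (N : ℕ) (q M : ℝ)
    (hT : ∀ F ∈ T, ∃ W : Cl n k ι L, W.s = s ∧ W.F = F ∧ E F = #(W.rev L) ∧
      Fintype.card ι < 6 * W.ex) (hN : Fintype.card ι * L ≤ N) (hL1 : 1 ≤ L)
    (hK1 : 1 ≤ Fintype.card ι)
    (hq : 0 < q) (hnq : 1 ≤ n * q) (hM : q * M ^ 7 ≤ 1)
    (hNM : (Fintype.card ι : ℝ) * (L : ℝ) ^ 2 ≤ M) :
    ∑ F ∈ T, q ^ E F ≤
      (n * q) ^ N * (Real.exp (Fintype.card ι) *
        ((Fintype.card ι : ℝ) * (L : ℝ) ^ 2 / M) ^ (Fintype.card ι + 1)) := by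
  classical
  set K := Fintype.card ι with hK
  have hL1' : (1 : ℝ) ≤ L := by exact_mod_cast hL1
  have hK1' : (1 : ℝ) ≤ K := by exact_mod_cast hK1
  have hN2 : (1 : ℝ) ≤ (K : ℝ) * (L : ℝ) ^ 2 := by
    have : (1 : ℝ) ≤ (L : ℝ) ^ 2 := one_le_pow₀ hL1'
    nlinarith
  have hM1 : 1 ≤ M := hN2.trans hNM
  have hM0 : 0 < M := by linarith
  set A : Finset (ι × ℕ) := (univ : Finset ι) ×ˢ range L with hA
  have hcA : #A = K * L := by rw [hA, card_product, card_univ, card_range]
  rw [← sum_attach]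
  have hex : ∀ F : T, ∃ W : Cl n k ι L, W.s = s ∧ W.F = F.1 ∧ E F.1 = #(W.rev L) ∧
      K < 6 * W.ex := fun F => hT F.1 F.2
  choose W hWs hWF hWE hWK using hex
  set P : Finset (Finset ((ι × ℕ) × (ι × ℕ))) :=
    (A ×ˢ A).powerset.filter (fun ρ => K + 1 ≤ #ρ) with hP
  have hmaps : ∀ F ∈ T.attach, (W F).rho ∈ P := by
    intro F _
    rw [hP, mem_filter, mem_powerset]
    refine ⟨(W F).rho_sub, ?_⟩
    rw [(W F).card_rho]
    have := hWK F
    omega
  rw [← sum_fiberwise_of_maps_to hmaps]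
  have hinner : ∀ ρ ∈ P, ∑ F ∈ T.attach.filter (fun F => (W F).rho = ρ), q ^ E F.1 ≤
      (n * q) ^ N * (1 / M) ^ (#ρ + 1) := by
    intro ρ hρ
    rcases (T.attach.filter (fun F => (W F).rho = ρ)).eq_empty_or_nonempty with h0 | ⟨F0, hF0⟩
    · rw [h0, sum_empty]; positivity
    rw [mem_filter] at hF0
    set V0 := #((W F0).vis L) with hV0
    have hagree : ∀ F ∈ T.attach.filter (fun F => (W F).rho = ρ), Cl.Agree (W F0) (W F) L := by
      intro F hF
      rw [mem_filter] at hF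
      exact Cl.agree_of_rho (fun t => by rw [hWs, hWs]) (by rw [hF0.2, hF.2]) le_rfl
    have hterm : ∀ F ∈ T.attach.filter (fun F => (W F).rho = ρ),
        q ^ E F.1 ≤ q ^ V0 * (1 / M) ^ (#ρ + 1) := by
      intro F hF
      have h1 : #((W F).vis L) = V0 := by
        rw [hV0, ← Cl.card_np, ← Cl.card_np, (hagree F hF).np]
      rw [mem_filter] at hF
      rw [hWE, (W F).rev_eq, h1, pow_add]
      refine mul_le_mul_of_nonneg_left ?_ (by positivity)
      have h2 : #ρ = (W F).ex + K := by rw [← hF.2, (W F).card_rho]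
      have h3 := hWK F
      have h4 : q ≤ (1 / M) ^ 7 := by
        rw [div_pow, one_pow, le_div_iff₀ (by positivity)]; exact hM
      calc q ^ (W F).ex ≤ ((1 / M) ^ 7) ^ (W F).ex := by gcongr
        _ = (1 / M) ^ (7 * (W F).ex) := by rw [← pow_mul]
        _ ≤ (1 / M) ^ (#ρ + 1) := by
            apply pow_le_pow_of_le_one (by positivity) _ (by omega)
            rw [div_le_one hM0]; exact hM1
    have hcount : #(T.attach.filter (fun F => (W F).rho = ρ)) ≤ n ^ V0 := by
      have h1 : #(T.attach.filter (fun F => (W F).rho = ρ)) ≤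
          #(univ : Finset ((W F0).np → Fin n)) := by
        refine card_le_card_of_injOn (fun F => fun p : (W F0).np => (W F).V p.1.1 p.1.2)
          (fun _ _ => mem_coe.2 (mem_univ _)) ?_
        intro F hF F' hF' h
        rw [mem_coe] at hF hF'
        have e1 := hagree F hF
        have e2 := hagree F' hF'
        apply Subtype.ext
        rw [← hWF F, ← hWF F']
        funext i t
        obtain ⟨p, hp, hp2, hp3⟩ := (W F0).exists_np i t
        have hpL := ((W F0).mem_np.1 hp).1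
        have h5 := (e1.2 _ _ _ _ hpL.le t.2.le).1 hp3
        have h6 := (e2.2 _ _ _ _ hpL.le t.2.le).1 hp3
        have h7 := congrFun h ⟨p, hp⟩
        simp only at h7
        change (W F).V i t = (W F').V i t
        rw [← h5, ← h6, h7]
      refine h1.trans (le_of_eq ?_)
      rw [card_univ, Fintype.card_fun, Fintype.card_fin, Fintype.card_coe, Cl.card_np]
    have hV0N : V0 ≤ N := by
      rw [hV0, ← Cl.card_np]
      refine le_trans (card_le_card (?_ : (W F0).np ⊆ A)) (by rw [hcA]; exact hN)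
      intro p hp
      rw [hA, mem_product, mem_range]
      exact ⟨mem_univ _, ((W F0).mem_np.1 hp).1⟩
    calc ∑ F ∈ T.attach.filter (fun F => (W F).rho = ρ), q ^ E F.1
        ≤ ∑ F ∈ T.attach.filter (fun F => (W F).rho = ρ), q ^ V0 * (1 / M) ^ (#ρ + 1) :=
          sum_le_sum hterm
      _ = #(T.attach.filter (fun F => (W F).rho = ρ)) * (q ^ V0 * (1 / M) ^ (#ρ + 1)) := by
          rw [sum_const, nsmul_eq_mul]
      _ ≤ (n : ℝ) ^ V0 * (q ^ V0 * (1 / M) ^ (#ρ + 1)) := by
          refine mul_le_mul_of_nonneg_right ?_ (by positivity)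
          exact_mod_cast hcount
      _ = (n * q) ^ V0 * (1 / M) ^ (#ρ + 1) := by rw [mul_pow]; ring
      _ ≤ (n * q) ^ N * (1 / M) ^ (#ρ + 1) := by
          refine mul_le_mul_of_nonneg_right ?_ (by positivity)
          exact pow_le_pow_right₀ hnq hV0N
  refine (sum_le_sum hinner).trans ?_
  rw [← mul_sum]
  refine mul_le_mul_of_nonneg_left ?_ (by positivity)
  refine (sum_records (A ×ˢ A) ((K : ℝ) * (L : ℝ) ^ 2) M K (by linarith) hM1 hNM).trans ?_
  refine mul_le_mul_of_nonneg_right ?_ (by positivity)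
  apply Real.exp_le_exp.2
  rw [card_product, hcA, div_le_iff₀ (by linarith)]
  push_cast
  apply le_of_eq
  ring

end Pool.Agent.L0h8.K2
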