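import Pool.Agent.L0h8.K2.Code

/-!
Pairs of positive words, and the number of the pairs for which many walkers close up cheaply.
-/

set_option autoImplicit false
set_option linter.unusedSectionVars false
set_option linter.unusedVariables false

namespace Pool.Agent.L0h8.K2
open Finset

/-- the subsets of `A` with at most `q` elements -/
def sub {α : Type*} [DecidableEq α] (A : Finset α) (q : ℕ) : Finset (Finset α) :=
  A.powerset.filter fun s => #s ≤ q

lemma mem_sub {α : Type*} [DecidableEq α] {A : Finset α} {q : ℕ} {s : Finset α} :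
    s ∈ sub A q ↔ s ⊆ A ∧ #s ≤ q := by
  rw [sub, mem_filter, mem_powerset]

lemma card_sub {α : Type*} [DecidableEq α] (A : Finset α) (q : ℕ) : #(sub A q) ≤ (#A + 1) ^ q := by
  induction q with
  | zero =>
    rw [pow_zero, card_le_one]
    intro s hs t ht
    rw [mem_sub] at hs ht
    rw [card_eq_zero.1 (Nat.le_zero.1 hs.2), card_eq_zero.1 (Nat.le_zero.1 ht.2)]
  | succ q ih =>
    have h1 : sub A (q + 1) ⊆ sub A q ∪ (A ×ˢ sub A q).image (fun p => insert p.1 p.2) := by
      intro s hs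
      rw [mem_sub] at hs
      rw [mem_union]
      rcases s.eq_empty_or_nonempty with h | ⟨a, ha⟩
      · exact Or.inl (mem_sub.2 ⟨hs.1, by rw [h]; simp⟩)
      · refine Or.inr (mem_image.2 ⟨(a, s.erase a), ?_, insert_erase ha⟩)
        rw [mem_product, mem_sub]
        refine ⟨hs.1 ha, (erase_subset _ _).trans hs.1, ?_⟩
        rw [card_erase_of_mem ha]
        have := hs.2
        omega
    calc #(sub A (q + 1)) ≤ #(sub A q) + #((A ×ˢ sub A q).image (fun p => insert p.1 p.2)) :=
          (card_le_card h1).trans (card_union_le _ _)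
      _ ≤ #(sub A q) + #A * #(sub A q) := by
          gcongr
          refine card_image_le.trans ?_
          rw [card_product]
      _ = #(sub A q) * (#A + 1) := by ring
      _ ≤ (#A + 1) ^ q * (#A + 1) := by gcongr
      _ = _ := by rw [pow_succ]

/-- the letters of a word, extended by `0` -/
def gt {j : ℕ} (u : Fin j → Fin 2) (i : ℕ) : Fin 2 := if h : i < j then u ⟨i, h⟩ else 0

/-- the cyclic word `v⁻¹ u` -/
def wd {j : ℕ} (u v : Fin j → Fin 2) (t : ℕ) : Ltr 2 :=
  if t % (2 * j) < j then (gt u (t % (2 * j)), true)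
  else (gt v (2 * j - 1 - t % (2 * j)), false)

section
variable {j : ℕ} {u v : Fin j → Fin 2}

lemma wd_per (t : ℕ) : wd u v (t + 2 * j) = wd u v t := by
  rw [wd, wd, Nat.add_mod_right]

lemma wd_sgn (t : ℕ) : (wd u v t).2 = decide (t % (2 * j) < j) := by
  rw [wd]
  split_ifs with h <;> simp [h]

lemma wd_lt {t : ℕ} (h : t < j) : wd u v t = (gt u t, true) := by
  rw [wd, Nat.mod_eq_of_lt (by omega), if_pos h]

lemma wd_ge {t : ℕ} (h : j ≤ t) (h2 : t < 2 * j) : wd u v t = (gt v (2 * j - 1 - t), false) := by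
  rw [wd, Nat.mod_eq_of_lt h2, if_neg (by omega)]

lemma wd_red (hj : 1 ≤ j) (h0 : gt u 0 ≠ gt v 0) (h1 : gt u (j - 1) ≠ gt v (j - 1)) (t : ℕ) :
    wd u v (t + 1) ≠ inv (wd u v t) := by
  have hmod : t % (2 * j) < 2 * j := Nat.mod_lt _ (by omega)
  rcases Nat.lt_or_ge (t % (2 * j) + 1) (2 * j) with h | h
  · have h2 : (t + 1) % (2 * j) = t % (2 * j) + 1 := by
      rw [Nat.add_mod, Nat.mod_eq_of_lt (show 1 < 2 * j by omega), Nat.mod_eq_of_lt h]
    intro heq
    have hs := congrArg Prod.snd heq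
    rw [inv, wd_sgn, wd_sgn, h2] at hs
    by_cases h3 : t % (2 * j) + 1 < j
    · rw [decide_eq_true h3, decide_eq_true (show t % (2 * j) < j by omega)] at hs
      simp at hs
    · by_cases h4 : t % (2 * j) < j
      · -- the middle
        have h5 : t % (2 * j) = j - 1 := by omega
        have hf := congrArg Prod.fst heq
        rw [inv, wd, wd, h2, if_neg (by omega), if_pos h4, h5] at hf
        simp only at hf
        have h6 : 2 * j - 1 - (j - 1 + 1) = j - 1 := by omega
        rw [h6] at hf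
        exact h1 hf.symm
      · rw [decide_eq_false h3, decide_eq_false h4] at hs
        simp at hs
  · have h5 : t % (2 * j) = 2 * j - 1 := by omega
    have h2 : (t + 1) % (2 * j) = 0 := by
      have h6 := Nat.div_add_mod t (2 * j)
      have h7 : t + 1 = 2 * j * (t / (2 * j) + 1) := by
        rw [mul_add, mul_one]; omega
      rw [h7, Nat.mul_mod_right]
    intro heq
    have hf := congrArg Prod.fst heq
    rw [inv, wd, wd, h2, if_pos (by omega), if_neg (by omega), h5] at hf
    simp only at hf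
    rw [Nat.sub_self] at hf
    exact h0 hf

lemma wd_inj {u' v' : Fin j → Fin 2} (h : ∀ t < 2 * j, wd u v t = wd u' v' t) : u = u' ∧ v = v' := by
  constructor
  · funext i
    have h1 := h i (by omega)
    rw [wd_lt i.2, wd_lt i.2] at h1
    have h2 := congrArg Prod.fst h1
    simpa [gt] using h2
  · funext i
    have h1 := h (2 * j - 1 - i) (by omega)
    have hi := i.2
    rw [wd_ge (by omega) (by omega), wd_ge (by omega) (by omega)] at h1
    have h2 := congrArg Prod.fst h1
    have h3 : 2 * j - 1 - (2 * j - 1 - (i : ℕ)) = i := by omega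
    simp only [h3] at h2
    simpa [gt] using h2

end

/-- the walkers in `S` all touch a branch vertex and close up at small cost -/
def Viol (n : ℕ) {r : ℕ} (S : Finset (Fin r)) (m : ℕ) {j : ℕ} (u v : Fin j → Fin 2) : Prop :=
  ∃ W : Cl n 2 S (2 * j), W.s = wd u v ∧ (∀ i, ∃ t, W.V i t ∈ W.B) ∧ W.ex = m ∧ 6 * m ≤ #S ∧
    S.Nonempty

/-- **few words are bad** -/
theorem card_viol (n : ℕ) {r : ℕ} (S : Finset (Fin r)) (m : ℕ) (j : ℕ) :
    Nat.card {p : (Fin j → Fin 2) × (Fin j → Fin 2) // Viol n S m p.1 p.2} ≤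
      (((#S * (2 * j)) ^ 2 + 1) ^ (m + #S) * (#S * (2 * j) + 1) ^ (2 * m)) * 3 ^ j := by
  classical
  have hex : ∀ p : {p : (Fin j → Fin 2) × (Fin j → Fin 2) // Viol n S m p.1 p.2},
      ∃ W : Cl n 2 S (2 * j), W.s = wd p.1.1 p.1.2 ∧ (∀ i, ∃ t, W.V i t ∈ W.B) ∧ W.ex = m ∧
        6 * m ≤ #S ∧ S.Nonempty := fun p => p.2
  choose W hW using hex
  set A : Finset (S × ℕ) := (univ : Finset S) ×ˢ range (2 * j) with hA
  have hcA : #A = #S * (2 * j) := by
    rw [hA, card_product, card_univ, Fintype.card_coe, card_range]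
  have hcodes : ∀ p, (W p).rho ∈ sub (A ×ˢ A) (m + #S) ∧ (W p).bet ∈ sub A (2 * m) ∧
      ((W p).FL (2 * j)).length ≤ 3 * j / 2 := by
    intro p
    obtain ⟨h1, h2, h3, h4, h5⟩ := hW p
    refine ⟨mem_sub.2 ⟨(W p).rho_sub, ?_⟩, mem_sub.2 ⟨(W p).bet_sub, ?_⟩, ?_⟩
    · rw [(W p).card_rho, h3, Fintype.card_coe]
    · exact ((W p).card_bet.trans (W p).card_B_le).trans (by rw [h3])
    · have h6 := (W p).two_free_le h2 (by rw [h3, Fintype.card_coe]; exact h4) h5.to_subtype
      rw [(W p).length_FL]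
      omega
  set f : {p : (Fin j → Fin 2) × (Fin j → Fin 2) // Viol n S m p.1 p.2} →
      (((sub (A ×ˢ A) (m + #S)) ×ˢ (sub A (2 * m))) ×ˢ
        (univ : Finset (Fin (3 * j / 2) → Fin 2)) : Finset _) := fun p =>
    ⟨(((W p).rho, (W p).bet), fun c => (((W p).FL (2 * j))[(c : ℕ)]?).getD 0), by
      rw [mem_product, mem_product]
      exact ⟨⟨(hcodes p).1, (hcodes p).2.1⟩, mem_univ _⟩⟩ with hf
  have hinj : Function.Injective f := by
    intro p q hpq
    have h1 := congrArg Subtype.val hpq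
    simp only [hf, Prod.mk.injEq] at h1
    obtain ⟨⟨h2, h3⟩, h4⟩ := h1
    have h5 := Cl.word_of_code (W := W p) (W' := W q) (T := 3 * j / 2) 0 h2 h3
      (fun c hc => congrFun h4 ⟨c, hc⟩) (hcodes p).2.2
      (fun t _ => by rw [(hW p).1, (hW q).1, wd_sgn, wd_sgn]) le_rfl
    have h6 := wd_inj (u := p.1.1) (v := p.1.2) (u' := q.1.1) (v' := q.1.2) (fun t ht => by
      rw [← (hW p).1, ← (hW q).1]
      exact h5.1.1 t ht)
    exact Subtype.ext (Prod.ext h6.1 h6.2)
  have h7 := Nat.card_le_card_of_injective f hinj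
  refine h7.trans ?_
  rw [Nat.card_eq_fintype_card, Fintype.card_coe, card_product, card_product]
  have h8 : #(univ : Finset (Fin (3 * j / 2) → Fin 2)) ≤ 3 ^ j := by
    rw [card_univ, Fintype.card_fun, Fintype.card_fin, Fintype.card_fin]
    rw [← Nat.pow_le_pow_iff_left (two_ne_zero)]
    calc (2 ^ (3 * j / 2)) ^ 2 = 2 ^ (3 * j / 2 * 2) := by rw [pow_mul]
      _ ≤ 2 ^ (3 * j) := Nat.pow_le_pow_right (by norm_num) (by omega)
      _ = 8 ^ j := by rw [pow_mul]; norm_num
      _ ≤ 9 ^ j := Nat.pow_le_pow_left (by norm_num) _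
      _ = (3 ^ j) ^ 2 := by rw [← pow_mul, mul_comm, pow_mul]; norm_num
  refine Nat.mul_le_mul (Nat.mul_le_mul ?_ ?_) h8
  · refine (card_sub _ _).trans (le_of_eq ?_)
    rw [card_product, hcA]; ring_nf
  · refine (card_sub _ _).trans (le_of_eq ?_)
    rw [hcA]

end Pool.Agent.L0h8.K2
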